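import Pool.Agent.Lib.MP_85fd23_an.Base

/-!
C0G row AVG.  Averages of the projections onto a sparse chain of finite sets are almost N-contractive.

Proof.  Fix x.  For j < n choose y_j (hn), u_j = y_j - pr (G j) y_j: it vanishes outside
G (j+1) \ G j, |u_j γ| ≤ ‖y_j‖ ≤ N y_j / a ≤ 2 N x / a.  pr (G j) x = pr (G j) y_j = y_j - u_j, so
the sum is Σ c_j y_j - Σ c_j u_j.  N(Σ c_j y_j) ≤ Σ c_j (1+ρ) N x ≤ (1+ρ) N x (EqN.sum_le, smul).
At each γ at most one j < n has γ ∈ G (j+1) \ G j (the G j increase), so |(Σ c_j u_j) γ| ≤ κ 2 N x/a,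
N(Σ c_j u_j) ≤ b ‖Σ c_j u_j‖ ≤ 2 (b/a) κ N x.
-/

set_option linter.unusedSectionVars false

namespace C0G

open scoped ZeroAtInfty Topology BigOperators
open Filter Set

universe u

variable {Γ : Type u} [TopologicalSpace Γ] [DiscreteTopology Γ]

private theorem avg_sum_apply (s : Finset ℕ) (f : ℕ → C₀(Γ, ℝ)) (γ : Γ) :
    (∑ j ∈ s, f j) γ = ∑ j ∈ s, f j γ := by
  classical
  induction s using Finset.induction_on with
  | empty => simp
  | insert i s hi ih =>
    rw [Finset.sum_insert hi, Finset.sum_insert hi, ZeroAtInftyContinuousMap.add_apply, ih]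

theorem avg {N : C₀(Γ, ℝ) → ℝ} {a b : ℝ} (hN : EqN N a b) (G : ℕ → Finset Γ) (n : ℕ) {ρ κ : ℝ}
    (hρ0 : 0 ≤ ρ) (hρ : ρ ≤ 1) (hκ : 0 ≤ κ) (hG : ∀ j, G j ⊆ G (j + 1))
    (hn : ∀ j, j < n → ∀ x, ∃ y, Sup (G (j + 1) : Set Γ) y ∧
      pr (G j : Set Γ) y = pr (G j : Set Γ) x ∧ N y ≤ (1 + ρ) * N x)
    (c : ℕ → ℝ) (hc0 : ∀ j, 0 ≤ c j) (hc1 : ∑ j ∈ Finset.range n, c j ≤ 1)
    (hcκ : ∀ j, j < n → c j ≤ κ) (x : C₀(Γ, ℝ)) :
    N (∑ j ∈ Finset.range n, c j • pr (G j : Set Γ) x) ≤ (1 + ρ + 2 * (b / a) * κ) * N x := by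
  classical
  have hex : ∀ j, ∃ y, j < n → (Sup (G (j + 1) : Set Γ) y ∧
      pr (G j : Set Γ) y = pr (G j : Set Γ) x ∧ N y ≤ (1 + ρ) * N x) := by
    intro j
    by_cases hj : j < n
    · obtain ⟨y, hy⟩ := hn j hj x
      exact ⟨y, fun _ => hy⟩
    · exact ⟨0, fun h => absurd h hj⟩
  choose y hy using hex
  have hNx : 0 ≤ N x := hN.nonneg x
  have ha := hN.apos
  have hb := hN.bpos
  set u : ℕ → C₀(Γ, ℝ) := fun j => y j - pr (G j : Set Γ) (y j) with hu
  have hmono : ∀ j k, j ≤ k → G j ⊆ G k := by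
    intro j k hjk
    induction hjk with
    | refl => exact Finset.Subset.refl _
    | step _ ih => exact ih.trans (hG _)
  have e1 : (∑ j ∈ Finset.range n, c j • pr (G j : Set Γ) x) =
      (∑ j ∈ Finset.range n, c j • y j) - ∑ j ∈ Finset.range n, c j • u j := by
    rw [← Finset.sum_sub_distrib]
    refine Finset.sum_congr rfl fun j hj => ?_
    have h1 := (hy j (Finset.mem_range.1 hj)).2.1
    rw [← h1]
    ext γ
    have e3 : u j γ = y j γ - pr (G j : Set Γ) (y j) γ := by simp [hu]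
    rw [ZeroAtInftyContinuousMap.sub_apply, ZeroAtInftyContinuousMap.smul_apply,
      ZeroAtInftyContinuousMap.smul_apply, ZeroAtInftyContinuousMap.smul_apply, e3]
    simp only [smul_eq_mul]
    ring
  have hy2 : ∀ j, j < n → ‖y j‖ ≤ 2 * N x / a := by
    intro j hj
    rw [le_div_iff₀ ha]
    have h1 := hN.lo (y j)
    have h2 := (hy j hj).2.2
    have h3 : (1 + ρ) * N x ≤ 2 * N x := mul_le_mul_of_nonneg_right (by linarith) hNx
    linarith [mul_comm a ‖y j‖]
  have hu0 : ∀ j γ, j < n → u j γ ≠ 0 → γ ∉ G j ∧ γ ∈ G (j + 1) := by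
    intro j γ hj hne
    have e : u j γ = y j γ - pr (G j : Set Γ) (y j) γ := by simp [hu]
    constructor
    · intro hm
      apply hne
      rw [e, pr_of_mem (by exact_mod_cast hm)]
      ring
    · by_contra hm
      apply hne
      have h1 : y j γ = 0 := (hy j hj).1 γ (by exact_mod_cast hm)
      have h2 : γ ∉ G j := fun h => hm (hG j h)
      rw [e, h1, pr_of_notMem (by exact_mod_cast h2)]
      ring
  have hub : ∀ j γ, j < n → |u j γ| ≤ 2 * N x / a := by
    intro j γ hj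
    have hnn : 0 ≤ 2 * N x / a := by positivity
    by_cases h0 : u j γ = 0
    · rw [h0]; simpa using hnn
    · have h1 := (hu0 j γ hj h0).1
      have e : u j γ = y j γ := by
        have : u j γ = y j γ - pr (G j : Set Γ) (y j) γ := by simp [hu]
        rw [this, pr_of_notMem (by exact_mod_cast h1)]
        ring
      rw [e]
      exact (abs_le_norm _ _).trans (hy2 j hj)
  have hS : ‖∑ j ∈ Finset.range n, c j • u j‖ ≤ κ * (2 * N x / a) := by
    have hnn : 0 ≤ 2 * N x / a := by positivity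
    rw [norm_le_iff (mul_nonneg hκ hnn)]
    intro γ
    rw [avg_sum_apply]
    have e2 : ∀ j, (c j • u j) γ = c j * u j γ := fun j => rfl
    simp only [e2]
    by_cases hall : ∀ j ∈ Finset.range n, u j γ = 0
    · rw [Finset.sum_eq_zero (fun j hj => by rw [hall j hj, mul_zero])]
      simpa using mul_nonneg hκ hnn
    · push Not at hall
      obtain ⟨j0, hj0, hne⟩ := hall
      have hj0' := Finset.mem_range.1 hj0
      rw [Finset.sum_eq_single_of_mem j0 hj0]
      · rw [abs_mul, abs_of_nonneg (hc0 j0)]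
        exact mul_le_mul (hcκ j0 hj0') (hub j0 γ hj0') (abs_nonneg _) hκ
      · intro j hj hjne
        have hj' := Finset.mem_range.1 hj
        by_contra hc
        have hune : u j γ ≠ 0 := fun h => hc (by rw [h, mul_zero])
        have h1 := hu0 j γ hj' hune
        have h2 := hu0 j0 γ hj0' hne
        rcases lt_or_gt_of_ne hjne with h | h
        · exact h2.1 (hmono _ _ h h1.2)
        · exact h1.1 (hmono _ _ h h2.2)
  have hA : N (∑ j ∈ Finset.range n, c j • y j) ≤ (1 + ρ) * N x := by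
    refine (hN.sum_le _ _).trans ?_
    calc ∑ j ∈ Finset.range n, N (c j • y j)
        ≤ ∑ j ∈ Finset.range n, c j * ((1 + ρ) * N x) := by
          refine Finset.sum_le_sum fun j hj => ?_
          rw [hN.smul, abs_of_nonneg (hc0 j)]
          exact mul_le_mul_of_nonneg_left (hy j (Finset.mem_range.1 hj)).2.2 (hc0 j)
      _ = (∑ j ∈ Finset.range n, c j) * ((1 + ρ) * N x) := by rw [Finset.sum_mul]
      _ ≤ 1 * ((1 + ρ) * N x) :=
          mul_le_mul_of_nonneg_right hc1 (mul_nonneg (by linarith) hNx)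
      _ = (1 + ρ) * N x := one_mul _
  have hB : N (∑ j ∈ Finset.range n, c j • u j) ≤ 2 * (b / a) * κ * N x := by
    refine (hN.hi _).trans ?_
    refine (mul_le_mul_of_nonneg_left hS hb.le).trans (le_of_eq ?_)
    field_simp
  rw [e1]
  refine (hN.sub_le _ _).trans ?_
  linarith [hA, hB]

end C0G
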