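import Mathlib

/-!
Project C0G (MP_85fd23_an).  Basic definitions: the space c_0(Gamma) = C₀(Γ, ℝ), Γ discrete;
multipliers, coordinate projections, finitely supported perturbations, equivalent norms N.
-/

set_option linter.unusedSectionVars false

namespace C0G

open scoped ZeroAtInfty Topology BigOperators
open Filter Set

universe u

variable {Γ : Type u} [TopologicalSpace Γ] [DiscreteTopology Γ]

/-- the element of c_0 given by a function tending to zero along the cofinite filter -/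
noncomputable def mk0 (f : Γ → ℝ) (h : Tendsto f cofinite (𝓝 0)) : C₀(Γ, ℝ) :=
  ⟨⟨f, continuous_of_discreteTopology⟩, by
    rw [cocompact_eq_cofinite]; exact h⟩

@[simp] theorem mk0_apply (f : Γ → ℝ) (h : Tendsto f cofinite (𝓝 0)) (γ : Γ) :
    mk0 f h γ = f γ := rfl

theorem abs_le_norm (x : C₀(Γ, ℝ)) (γ : Γ) : |x γ| ≤ ‖x‖ := by
  have := x.toBCF.norm_coe_le_norm γ
  simpa [ZeroAtInftyContinuousMap.norm_toBCF_eq_norm, Real.norm_eq_abs] using this

theorem norm_le_iff {x : C₀(Γ, ℝ)} {c : ℝ} (hc : 0 ≤ c) : ‖x‖ ≤ c ↔ ∀ γ, |x γ| ≤ c := by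
  rw [← ZeroAtInftyContinuousMap.norm_toBCF_eq_norm, BoundedContinuousFunction.norm_le hc]
  rfl

theorem tendsto_cofinite (x : C₀(Γ, ℝ)) : Tendsto (fun γ => x γ) cofinite (𝓝 0) := by
  have := x.zero_at_infty'
  rw [cocompact_eq_cofinite] at this
  exact this

/-- finitely many coordinates of modulus at least c -/
theorem finite_ge (x : C₀(Γ, ℝ)) {c : ℝ} (hc : 0 < c) : {γ | c ≤ |x γ|}.Finite := by
  have h := tendsto_cofinite x
  rw [Metric.tendsto_nhds] at h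
  have h1 := h c hc
  rw [Filter.eventually_cofinite] at h1
  refine h1.subset ?_
  intro γ hγ
  simpa [Real.dist_eq] using hγ

/-- clamp to [0,1] -/
noncomputable def cl (t : ℝ) : ℝ := max 0 (min 1 t)

theorem cl_nonneg (t : ℝ) : 0 ≤ cl t := le_max_left _ _
theorem cl_le_one (t : ℝ) : cl t ≤ 1 := max_le zero_le_one (min_le_left _ _)
theorem cl_eq {t : ℝ} (h0 : 0 ≤ t) (h1 : t ≤ 1) : cl t = t := by
  unfold cl; rw [min_eq_right h1, max_eq_right h0]
theorem cl_of_le_zero {t : ℝ} (h : t ≤ 0) : cl t = 0 := by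
  unfold cl; rw [max_eq_left]; exact (min_le_right _ _).trans h
theorem cl_of_one_le {t : ℝ} (h : 1 ≤ t) : cl t = 1 := by
  unfold cl; rw [min_eq_left h]; norm_num
theorem cl_mono {s t : ℝ} (h : s ≤ t) : cl s ≤ cl t :=
  max_le_max le_rfl (min_le_min le_rfl h)
theorem cl_sub_le {s t : ℝ} (h : s ≤ t) : cl t - cl s ≤ t - s := by
  have h1 : min 1 t - min 1 s ≤ t - s := by
    rcases min_cases 1 t with ⟨e1, e2⟩ | ⟨e1, e2⟩ <;> rcases min_cases 1 s with ⟨e3, e4⟩ | ⟨e3, e4⟩ <;>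
    rw [e1, e3] <;> linarith
  have h3 : min 1 s ≤ min 1 t := min_le_min le_rfl h
  have h2 : cl t - cl s ≤ min 1 t - min 1 s := by
    unfold cl
    rcases max_cases 0 (min 1 t) with ⟨e1, e2⟩ | ⟨e1, e2⟩ <;>
    rcases max_cases 0 (min 1 s) with ⟨e3, e4⟩ | ⟨e3, e4⟩ <;> rw [e1, e3] <;> linarith
  exact h2.trans h1
theorem abs_cl_sub_le (s t : ℝ) : |cl s - cl t| ≤ |s - t| := by
  rcases le_total s t with h | h
  · rw [abs_sub_comm, abs_of_nonneg (sub_nonneg.2 (cl_mono h)), abs_sub_comm,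
      abs_of_nonneg (sub_nonneg.2 h)]
    exact cl_sub_le h
  · rw [abs_of_nonneg (sub_nonneg.2 (cl_mono h)), abs_of_nonneg (sub_nonneg.2 h)]
    exact cl_sub_le h

/-- multiplication of x by the clamped multiplier m -/
noncomputable def mul (m : Γ → ℝ) (x : C₀(Γ, ℝ)) : C₀(Γ, ℝ) :=
  mk0 (fun γ => cl (m γ) * x γ) (by
    refine squeeze_zero_norm (a := fun γ => ‖x γ‖) ?_ ?_
    · intro γ
      rw [norm_mul, Real.norm_eq_abs, abs_of_nonneg (cl_nonneg _)]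
      exact mul_le_of_le_one_left (norm_nonneg _) (cl_le_one _)
    · exact tendsto_zero_iff_norm_tendsto_zero.1 (tendsto_cofinite x))

theorem mul_apply (m : Γ → ℝ) (x : C₀(Γ, ℝ)) (γ : Γ) : mul m x γ = cl (m γ) * x γ := rfl

theorem mul_add (m : Γ → ℝ) (x y : C₀(Γ, ℝ)) : mul m (x + y) = mul m x + mul m y := by
  ext γ; simp [mul_apply, _root_.mul_add]
theorem mul_sub (m : Γ → ℝ) (x y : C₀(Γ, ℝ)) : mul m (x - y) = mul m x - mul m y := by
  ext γ; simp [mul_apply, _root_.mul_sub]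
theorem mul_smul' (m : Γ → ℝ) (r : ℝ) (x : C₀(Γ, ℝ)) : mul m (r • x) = r • mul m x := by
  ext γ; simp [mul_apply]; ring
theorem norm_mul_le' (m : Γ → ℝ) (x : C₀(Γ, ℝ)) : ‖mul m x‖ ≤ ‖x‖ := by
  rw [norm_le_iff (norm_nonneg _)]
  intro γ
  rw [mul_apply, abs_mul, abs_of_nonneg (cl_nonneg _)]
  exact (mul_le_of_le_one_left (abs_nonneg _) (cl_le_one _)).trans (abs_le_norm x γ)

open Classical in
/-- the coordinate projection onto A -/
noncomputable def pr (A : Set Γ) (x : C₀(Γ, ℝ)) : C₀(Γ, ℝ) := mul (fun γ => if γ ∈ A then 1 else 0) x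

theorem pr_of_mem {A : Set Γ} {γ : Γ} (h : γ ∈ A) (x : C₀(Γ, ℝ)) : pr A x γ = x γ := by
  simp [pr, mul_apply, h, cl]
theorem pr_of_notMem {A : Set Γ} {γ : Γ} (h : γ ∉ A) (x : C₀(Γ, ℝ)) : pr A x γ = 0 := by
  simp [pr, mul_apply, h, cl]
theorem pr_add (A : Set Γ) (x y : C₀(Γ, ℝ)) : pr A (x + y) = pr A x + pr A y := mul_add _ _ _
theorem pr_sub (A : Set Γ) (x y : C₀(Γ, ℝ)) : pr A (x - y) = pr A x - pr A y := mul_sub _ _ _
theorem norm_pr_le (A : Set Γ) (x : C₀(Γ, ℝ)) : ‖pr A x‖ ≤ ‖x‖ := norm_mul_le' _ _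

/-- x is supported in A -/
def Sup (A : Set Γ) (x : C₀(Γ, ℝ)) : Prop := ∀ γ, γ ∉ A → x γ = 0

theorem sup_pr (A : Set Γ) (x : C₀(Γ, ℝ)) : Sup A (pr A x) := fun _ h => pr_of_notMem h x

/-- a finitely supported vector as an element of c_0 -/
noncomputable def io (ξ : Γ →₀ ℝ) : C₀(Γ, ℝ) :=
  mk0 (fun γ => ξ γ) (by
    refine tendsto_nhds_of_eventually_eq ?_
    rw [Filter.eventually_cofinite]
    exact ξ.support.finite_toSet.subset (fun γ hγ => by simpa using hγ))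

@[simp] theorem io_apply (ξ : Γ →₀ ℝ) (γ : Γ) : io ξ γ = ξ γ := rfl

@[simp] theorem io_zero : io (0 : Γ →₀ ℝ) = (0 : C₀(Γ, ℝ)) := by ext γ; simp

theorem norm_io_le {ξ : Γ →₀ ℝ} {s : ℝ} (hs : 0 ≤ s) (h : ∀ γ, |ξ γ| ≤ s) : ‖io ξ‖ ≤ s :=
  (norm_le_iff hs).2 h

/-- N is a norm on c_0(Gamma) with a * sup norm ≤ N ≤ b * sup norm -/
structure EqN (N : C₀(Γ, ℝ) → ℝ) (a b : ℝ) : Prop where
  apos : 0 < a
  bpos : 0 < b
  add : ∀ x y, N (x + y) ≤ N x + N y
  smul : ∀ (r : ℝ) (x), N (r • x) = |r| * N x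
  lo : ∀ x, a * ‖x‖ ≤ N x
  hi : ∀ x, N x ≤ b * ‖x‖

namespace EqN

variable {N : C₀(Γ, ℝ) → ℝ} {a b : ℝ}

theorem zero (h : EqN N a b) : N 0 = 0 := by
  have := h.smul 0 0
  simpa using this
theorem neg (h : EqN N a b) (x : C₀(Γ, ℝ)) : N (-x) = N x := by
  have := h.smul (-1) x
  have e : (-1 : ℝ) • x = -x := by ext γ; simp
  rw [e] at this
  simpa using this
theorem nonneg (h : EqN N a b) (x : C₀(Γ, ℝ)) : 0 ≤ N x :=
  (mul_nonneg h.apos.le (norm_nonneg x)).trans (h.lo x)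
theorem sub_comm (h : EqN N a b) (x y : C₀(Γ, ℝ)) : N (x - y) = N (y - x) := by
  rw [← h.neg (x - y), neg_sub]
theorem sub_le (h : EqN N a b) (x y : C₀(Γ, ℝ)) : N (x - y) ≤ N x + N y := by
  rw [sub_eq_add_neg]; exact (h.add _ _).trans (by rw [h.neg])
theorem tri (h : EqN N a b) (x y z : C₀(Γ, ℝ)) : N (x - z) ≤ N (x - y) + N (y - z) := by
  have := h.add (x - y) (y - z)
  simpa using this
theorem sum_le (h : EqN N a b) {κ : Type*} (s : Finset κ) (f : κ → C₀(Γ, ℝ)) :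
    N (∑ i ∈ s, f i) ≤ ∑ i ∈ s, N (f i) := by
  classical
  induction s using Finset.induction_on with
  | empty => simp [h.zero]
  | insert i s hi ih => rw [Finset.sum_insert hi, Finset.sum_insert hi]; exact (h.add _ _).trans (by linarith)
end EqN

/-- the sup norm is an EqN -/
theorem eqN_norm : EqN (fun x : C₀(Γ, ℝ) => ‖x‖) 1 1 where
  apos := one_pos
  bpos := one_pos
  add := norm_add_le
  smul := fun r x => by rw [norm_smul, Real.norm_eq_abs]
  lo := fun x => by simp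
  hi := fun x => by simp

/-- the gate: the supremum of w γ * |x γ|, w clamped to [0,1] -/
noncomputable def gt (w : Γ → ℝ) (x : C₀(Γ, ℝ)) : ℝ := ‖mul w x‖

theorem gt_nonneg (w : Γ → ℝ) (x : C₀(Γ, ℝ)) : 0 ≤ gt w x := norm_nonneg _

theorem abs_gt_sub_le (w : Γ → ℝ) (x y : C₀(Γ, ℝ)) : |gt w x - gt w y| ≤ ‖x - y‖ := by
  unfold gt
  refine (abs_norm_sub_norm_le _ _).trans ?_
  rw [← mul_sub]
  exact norm_mul_le' _ _

theorem le_gt (w : Γ → ℝ) (x : C₀(Γ, ℝ)) (γ : Γ) : cl (w γ) * |x γ| ≤ gt w x := by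
  have := abs_le_norm (mul w x) γ
  rwa [mul_apply, abs_mul, abs_of_nonneg (cl_nonneg _)] at this

theorem gt_le_iff (w : Γ → ℝ) (x : C₀(Γ, ℝ)) {c : ℝ} (hc : 0 ≤ c) :
    gt w x ≤ c ↔ ∀ γ, cl (w γ) * |x γ| ≤ c := by
  unfold gt
  rw [norm_le_iff hc]
  constructor
  · intro h γ
    have := h γ
    rwa [mul_apply, abs_mul, abs_of_nonneg (cl_nonneg _)] at this
  · intro h γ
    rw [mul_apply, abs_mul, abs_of_nonneg (cl_nonneg _)]
    exact h γ

theorem gt_continuous (w : Γ → ℝ) : Continuous (gt w : C₀(Γ, ℝ) → ℝ) := by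
  have : LipschitzWith 1 (gt w : C₀(Γ, ℝ) → ℝ) := by
    refine LipschitzWith.of_dist_le_mul ?_
    intro x y
    rw [Real.dist_eq, dist_eq_norm, NNReal.coe_one, one_mul]
    exact abs_gt_sub_le w x y
  exact this.continuous

/-- f is N-Lipschitz with constant c -/
def NL (N : C₀(Γ, ℝ) → ℝ) (c : ℝ) (f : C₀(Γ, ℝ) → ℝ) : Prop := ∀ x y, |f x - f y| ≤ c * N (x - y)

/-- the approximation property on X_S for the norm N: every N-1-Lipschitz F is, on the vectors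
supported in S, a uniform limit of C^1 functions with N-Lipschitz constant 1 + ε on the whole space -/
def PP (N : C₀(Γ, ℝ) → ℝ) (S : Set Γ) : Prop :=
  ∀ F, NL N 1 F → ∀ ε > 0, ∀ δ > 0, ∃ H : C₀(Γ, ℝ) → ℝ, ContDiff ℝ 1 H ∧ NL N (1 + ε) H ∧
    ∀ x, Sup S x → |H x - F x| ≤ δ

/-- nx G n is a finite superset of G which supports almost optimal representatives of the
restrictions to G -/
structure NX (N : C₀(Γ, ℝ) → ℝ) (nx : Finset Γ → ℕ → Finset Γ) : Prop where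
  sub : ∀ G n, G ⊆ nx G n
  ex : ∀ G n x, ∃ y, Sup (nx G n : Set Γ) y ∧ pr (G : Set Γ) y = pr (G : Set Γ) x ∧
    N y ≤ (1 + 1 / ((n : ℝ) + 1)) * N x

/-- S is closed under nx -/
def Cld (nx : Finset Γ → ℕ → Finset Γ) (S : Set Γ) : Prop :=
  ∀ G : Finset Γ, G.Nonempty → (G : Set Γ) ⊆ S → ∀ n, (nx G n : Set Γ) ⊆ S

/-- Sx is an increasing chain of closed subsets of S, indexed by I, with union S, and rk γ is the
first index i with γ ∈ Sx i -/
structure Chn (nx : Finset Γ → ℕ → Finset Γ) (S : Set Γ) {I : Type*} [LinearOrder I]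
    (Sx : I → Set Γ) (rk : Γ → I) : Prop where
  cld : ∀ i, Cld nx (Sx i)
  sub : ∀ i, Sx i ⊆ S
  rk_le : ∀ γ ∈ S, ∀ i, γ ∈ Sx i ↔ rk γ ≤ i

theorem NL.continuous {N : C₀(Γ, ℝ) → ℝ} {a b c : ℝ} (h : EqN N a b) (hc : 0 ≤ c) {f : C₀(Γ, ℝ) → ℝ}
    (hf : NL N c f) : Continuous f := by
  have hb : ∀ x y, |f x - f y| ≤ c * (|b|) * ‖x - y‖ := by
    intro x y
    refine (hf x y).trans ?_
    rw [mul_assoc]
    refine mul_le_mul_of_nonneg_left ?_ hc
    exact (h.hi _).trans (mul_le_mul_of_nonneg_right (le_abs_self b) (norm_nonneg _))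
  have : LipschitzWith (Real.toNNReal (c * |b|)) f := by
    refine LipschitzWith.of_dist_le_mul ?_
    intro x y
    rw [Real.dist_eq, dist_eq_norm, Real.coe_toNNReal _ (mul_nonneg hc (abs_nonneg b))]
    exact hb x y
  exact this.continuous

end C0G
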