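import Pool.Agent.Lib.MP_85fd23_an.GateRob

/-!
C0G row BUMP.  C^1 bump functions of the coordinates in a block A.

Proof.  w = 1 on A, 0 outside; g = gt w = sup of |x γ| over A.  u₁ = u + (v-u)/4, v₁ = v - (v-u)/4,
θ t = cl ((t - u₁)/(v₁ - u₁)), f x = θ (g x), s = min ((v-u)/4) (u₁/8) > 0, R = sm s f.
Rob s f by rob_gate with c = u₁ (θ = 0 on [0,u₁]).  C^1: sm_C1.  0 ≤ R ≤ 1: const_le_sm, sm_le_const.
Lipschitz: sm_le with |θ(g(x+ξ)) - θ(g(y+ξ))| ≤ ‖x-y‖/(v₁-u₁) = (2/(v-u)) ‖x-y‖ (abs_gt_sub_le,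
abs_cl_sub_le); or ts with N = sup norm (eqN_norm).  If |x γ| ≤ u on A then for |ξ| ≤ s the gate of
x + io ξ is ≤ u + s ≤ u₁: value 0.  If |x γ| ≥ v for a γ ∈ A it is ≥ v - s ≥ v₁: value 1.
-/

set_option linter.unusedSectionVars false

namespace C0G

open scoped ZeroAtInfty Topology BigOperators
open Filter Set

universe u

variable {Γ : Type u} [TopologicalSpace Γ] [DiscreteTopology Γ]

private theorem bump_io_apply (x : C₀(Γ, ℝ)) (ξ : Γ →₀ ℝ) (γ : Γ) :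
    (x + io ξ) γ = x γ + ξ γ := by
  simp

theorem exists_bump (A : Set Γ) {u v : ℝ} (hu : 0 ≤ u) (huv : u < v) :
    ∃ R : C₀(Γ, ℝ) → ℝ, ContDiff ℝ 1 R ∧ (∀ x, 0 ≤ R x ∧ R x ≤ 1) ∧
      (∀ x y, |R x - R y| ≤ 2 / (v - u) * ‖x - y‖) ∧
      (∀ x : C₀(Γ, ℝ), (∀ γ ∈ A, |x γ| ≤ u) → R x = 0) ∧
      (∀ x : C₀(Γ, ℝ), (∃ γ ∈ A, v ≤ |x γ|) → R x = 1) := by
  classical
  set u₁ : ℝ := u + (v - u) / 4 with hu₁
  set s : ℝ := min ((v - u) / 4) (u₁ / 8) with hs'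
  have hvu : 0 < v - u := sub_pos.2 huv
  have hu₁pos : 0 < u₁ := by rw [hu₁]; linarith
  have hs : 0 < s := lt_min (by linarith) (by linarith)
  have hs1 : s ≤ (v - u) / 4 := min_le_left _ _
  have hs2 : s ≤ u₁ / 8 := min_le_right _ _
  let w : Γ → ℝ := fun γ => if γ ∈ A then 1 else 0
  have hw1 : ∀ γ ∈ A, cl (w γ) = 1 := by
    intro γ hγ
    simp only [w, if_pos hγ]
    exact cl_eq zero_le_one le_rfl
  have hw0 : ∀ γ, γ ∉ A → cl (w γ) = 0 := by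
    intro γ hγ
    simp only [w, if_neg hγ]
    exact cl_eq le_rfl zero_le_one
  let θ : ℝ → ℝ := fun t => cl ((t - u₁) / ((v - u) / 2))
  have hθ0 : ∀ t, t ≤ u₁ → θ t = 0 := by
    intro t ht
    exact cl_of_le_zero (div_nonpos_of_nonpos_of_nonneg (by linarith) (by linarith))
  have hθ1 : ∀ t, v - (v - u) / 4 ≤ t → θ t = 1 := by
    intro t ht
    refine cl_of_one_le ?_
    rw [le_div_iff₀ (by linarith)]
    rw [hu₁]
    linarith
  have hθL : ∀ a b, |θ a - θ b| ≤ 2 / (v - u) * |a - b| := by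
    intro a b
    refine (abs_cl_sub_le _ _).trans (le_of_eq ?_)
    have e : (a - u₁) / ((v - u) / 2) - (b - u₁) / ((v - u) / 2) = 2 / (v - u) * (a - b) := by
      field_simp
      ring
    rw [e, abs_mul, abs_of_nonneg (div_nonneg zero_le_two hvu.le)]
  let f : C₀(Γ, ℝ) → ℝ := fun x => θ (gt w x)
  have hr : Rob s f := by
    refine rob_gate w hu₁pos (by linarith) θ ?_
    intro t _ ht
    rw [hθ0 t ht, hθ0 u₁ le_rfl]
  have hNL : NL (fun x : C₀(Γ, ℝ) => ‖x‖) (2 / (v - u)) f := by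
    intro x y
    refine (hθL _ _).trans ?_
    exact mul_le_mul_of_nonneg_left (abs_gt_sub_le w x y) (div_nonneg zero_le_two hvu.le)
  have hc : (0 : ℝ) ≤ 2 / (v - u) := div_nonneg zero_le_two hvu.le
  have hf : Continuous f := hNL.continuous eqN_norm hc
  obtain ⟨h1, h2, -⟩ := ts eqN_norm hc hNL hs hr
  have hR0 : ∀ x, 0 ≤ sm s f x := fun x => const_le_sm hs hf hr (fun ξ _ => cl_nonneg _)
  have hR1 : ∀ x, sm s f x ≤ 1 := fun x => sm_le_const hs hf hr (fun ξ _ => cl_le_one _)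
  refine ⟨sm s f, h1, fun x => ⟨hR0 x, hR1 x⟩, fun x y => h2 x y, ?_, ?_⟩
  · intro x hx
    refine le_antisymm ?_ (hR0 x)
    refine sm_le_const hs hf hr ?_
    intro ξ hξ
    refine le_of_eq (hθ0 _ ?_)
    rw [gt_le_iff _ _ hu₁pos.le]
    intro γ
    by_cases hγ : γ ∈ A
    · rw [hw1 γ hγ, one_mul, bump_io_apply]
      have h3 := abs_add_le (x γ) (ξ γ)
      have h4 := hx γ hγ
      have h5 := hξ γ
      rw [hu₁]
      linarith
    · rw [hw0 γ hγ, zero_mul]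
      exact hu₁pos.le
  · rintro x ⟨γ, hγ, hx⟩
    refine le_antisymm (hR1 x) ?_
    refine const_le_sm hs hf hr ?_
    intro ξ hξ
    refine ge_of_eq (hθ1 _ ?_)
    have h3 := le_gt w (x + io ξ) γ
    rw [hw1 γ hγ, one_mul, bump_io_apply] at h3
    have h4 : |x γ| ≤ |x γ + ξ γ| + |ξ γ| := by
      have := abs_sub (x γ + ξ γ) (ξ γ)
      simpa using this
    have h5 := hξ γ
    linarith

end C0G
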