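import Pool.Agent.Lib.MP_85fd23_an.Base

/-!
C0G row CARD.  The closure operator of Cld and its cardinality.

Proof.  clo A = ⋂ {S | Cld nx S ∧ A ⊆ S}: contains A, closed, minimal, monotone.  Cardinality:
A_0 = A, A_{k+1} = A_k ∪ ⋃_{G : Finset A_k, n : ℕ} nx (image of G) n, each step has cardinality
≤ max #A ℵ₀ (Cardinal.mk_finset_of_infinite or mk_finset_le..., finite sets are countable, #(Finset α × ℕ)
≤ max #α ℵ₀, Cardinal.mk_iUnion_le / mk_iUnion_le_sum_mk, mul_le_max_of_aleph0_le...), the union A_ω is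
closed (a finite G ⊆ ⋃ A_k lies in one A_k) and contains clo A.
-/

set_option linter.unusedSectionVars false

namespace C0G

open scoped ZeroAtInfty Topology BigOperators Cardinal
open Filter Set Cardinal

universe u

variable {Γ : Type u} [TopologicalSpace Γ] [DiscreteTopology Γ]

def clo (nx : Finset Γ → ℕ → Finset Γ) (A : Set Γ) : Set Γ := ⋂₀ {S | Cld nx S ∧ A ⊆ S}

theorem subset_clo (nx : Finset Γ → ℕ → Finset Γ) (A : Set Γ) : A ⊆ clo nx A :=
  Set.subset_sInter fun _ hS => hS.2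

theorem clo_subset {nx : Finset Γ → ℕ → Finset Γ} {A S : Set Γ} (hS : Cld nx S) (h : A ⊆ S) :
    clo nx A ⊆ S := Set.sInter_subset_of_mem ⟨hS, h⟩

theorem clo_cld (nx : Finset Γ → ℕ → Finset Γ) (A : Set Γ) : Cld nx (clo nx A) := by
  intro G hG hGs n
  refine Set.subset_sInter fun S hS => ?_
  exact hS.1 G hG (hGs.trans (clo_subset hS.1 hS.2)) n

theorem clo_mono (nx : Finset Γ → ℕ → Finset Γ) {A B : Set Γ} (h : A ⊆ B) : clo nx A ⊆ clo nx B :=
  clo_subset (clo_cld nx B) (h.trans (subset_clo nx B))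

/-- one step of the iteration -/
private def Card_stp (nx : Finset Γ → ℕ → Finset Γ) (T : Set Γ) : Set Γ :=
  T ∪ ⋃ p : Finset T × ℕ, (nx (p.1.map (Function.Embedding.subtype _)) p.2 : Set Γ)

private theorem Card_stp_card (nx : Finset Γ → ℕ → Finset Γ) (T : Set Γ) (κ : Cardinal.{u})
    (hκ : ℵ₀ ≤ κ) (hT : #T ≤ κ) : #(Card_stp nx T) ≤ κ := by
  have h1 : #(Finset T) ≤ κ := by
    rcases finite_or_infinite T with h | h
    · exact (Cardinal.mk_le_aleph0 (α := Finset T)).trans hκ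
    · rw [Cardinal.mk_finset_of_infinite]; exact hT
  have h2 : #(Finset T × ℕ) ≤ κ := by
    rw [Cardinal.mk_prod, Cardinal.lift_id', Cardinal.mk_nat, Cardinal.lift_aleph0]
    exact (mul_le_mul' h1 hκ).trans (Cardinal.mul_eq_self hκ).le
  have h3 : #(⋃ p : Finset T × ℕ, (nx (p.1.map (Function.Embedding.subtype _)) p.2 : Set Γ) : Set Γ)
      ≤ κ := by
    refine (Cardinal.mk_iUnion_le_sum_mk).trans ?_
    refine (Cardinal.sum_le_sum _ (fun _ => κ) fun p => ?_).trans ?_
    · exact (Cardinal.mk_le_aleph0 (α := ((nx (p.1.map (Function.Embedding.subtype _)) p.2 : Finset Γ)))).trans hκ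
    · rw [Cardinal.sum_const']
      exact (mul_le_mul' h2 le_rfl).trans (Cardinal.mul_eq_self hκ).le
  refine (Cardinal.mk_union_le _ _).trans ?_
  exact (add_le_add hT h3).trans (Cardinal.add_eq_self hκ).le

private def Card_it (nx : Finset Γ → ℕ → Finset Γ) (A : Set Γ) : ℕ → Set Γ
  | 0 => A
  | k + 1 => Card_stp nx (Card_it nx A k)

private theorem Card_it_mono (nx : Finset Γ → ℕ → Finset Γ) (A : Set Γ) : Monotone (Card_it nx A) :=
  monotone_nat_of_le_succ fun _ => Set.subset_union_left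

private theorem Card_it_card (nx : Finset Γ → ℕ → Finset Γ) (A : Set Γ) (k : ℕ) :
    #(Card_it nx A k) ≤ max #A ℵ₀ := by
  induction k with
  | zero => exact le_max_left _ _
  | succ k ih => exact Card_stp_card nx _ _ (le_max_right _ _) ih

theorem card_clo_le (nx : Finset Γ → ℕ → Finset Γ) (A : Set Γ) : #(clo nx A) ≤ max #A ℵ₀ := by
  have hcl : Cld nx (⋃ k : ULift.{u} ℕ, Card_it nx A k.down) := by
    intro G _ hGs n
    have hex : ∀ x ∈ G, ∃ k : ℕ, x ∈ Card_it nx A k := by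
      intro x hx
      obtain ⟨k, hk⟩ := Set.mem_iUnion.1 (hGs hx)
      exact ⟨k.down, hk⟩
    choose! k hk using hex
    have hG : ∀ x ∈ G, x ∈ Card_it nx A (G.sup k) := fun x hx =>
      Card_it_mono nx A (Finset.le_sup hx) (hk x hx)
    classical
    intro y hy
    refine Set.mem_iUnion.2 ⟨ULift.up (G.sup k + 1), ?_⟩
    change y ∈ Card_stp nx (Card_it nx A (G.sup k))
    refine Or.inr (Set.mem_iUnion.2 ⟨(G.subtype (· ∈ Card_it nx A (G.sup k)), n), ?_⟩)
    have e : (G.subtype (· ∈ Card_it nx A (G.sup k))).map (Function.Embedding.subtype _) = G :=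
      Finset.subtype_map_of_mem hG
    rw [e]
    exact hy
  have hsub : clo nx A ⊆ ⋃ k : ULift.{u} ℕ, Card_it nx A k.down :=
    clo_subset hcl fun x hx => Set.mem_iUnion.2 ⟨ULift.up 0, hx⟩
  refine (Cardinal.mk_le_mk_of_subset hsub).trans ?_
  refine (Cardinal.mk_iUnion_le_sum_mk).trans ?_
  refine (Cardinal.sum_le_sum _ (fun _ => max #A ℵ₀) fun p => Card_it_card nx A _).trans ?_
  rw [Cardinal.sum_const']
  have h : #(ULift.{u} ℕ) ≤ max #A ℵ₀ := (Cardinal.mk_le_aleph0).trans (le_max_right _ _)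
  exact (mul_le_mul' h le_rfl).trans (Cardinal.mul_eq_self (le_max_right _ _)).le

end C0G
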