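import Pool.Agent.Lib.MP_85fd23_an.Card

/-!
C0G row CHAIN.  An uncountable closed S is the union of an increasing chain of closed sets of smaller
cardinality, indexed by a well-order with a least element.

Proof.  I = (#S).ord.toType with its linear well-order, e : I ≃ S (same cardinality, Cardinal.mk_ord_toType),
Sx i = clo nx (image of {j | j ≤ i} under e); #{j | j ≤ i} < #S (Cardinal.mk_Iio_ord_toType, infinite:
add one element) so #(Sx i) ≤ max #{j ≤ i} ℵ₀ < #S as ℵ₀ < #S.  Sx i ⊆ S by clo_subset.  Least element: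
I is nonempty and well-founded (build OrderBot from the minimum).  rk γ = least i with γ ∈ Sx i
(for γ ∈ S: nonempty as γ = e i ∈ Sx i; otherwise ⊥); monotonicity of Sx gives γ ∈ Sx i ↔ rk γ ≤ i.
-/

set_option linter.unusedSectionVars false

namespace C0G

open scoped ZeroAtInfty Topology BigOperators Cardinal
open Filter Set Cardinal

universe u

variable {Γ : Type u} [TopologicalSpace Γ] [DiscreteTopology Γ]

theorem exists_chain (nx : Finset Γ → ℕ → Finset Γ) {S : Set Γ} (hS : Cld nx S) (hunc : ℵ₀ < #S) :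
    ∃ (I : Type u) (_ : LinearOrder I) (_ : OrderBot I) (Sx : I → Set Γ) (rk : Γ → I),
      Chn nx S Sx rk ∧ ∀ i, #(Sx i) < #S := by
  classical
  have hcard : #(#S).ord.ToType = #S := Cardinal.mk_ord_toType _
  obtain ⟨e⟩ := Cardinal.eq.1 hcard
  have hne : Nonempty (#S).ord.ToType := by
    rw [← Cardinal.mk_ne_zero_iff, hcard]
    exact (Cardinal.aleph0_pos.trans hunc).ne'
  let bot : (#S).ord.ToType := wellFounded_lt.min Set.univ ⟨hne.some, trivial⟩
  have hbot : ∀ i, bot ≤ i := fun i => not_lt.1 (wellFounded_lt.not_lt_min Set.univ trivial)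
  let ob : OrderBot (#S).ord.ToType := { bot := bot, bot_le := hbot }
  let Sx : (#S).ord.ToType → Set Γ := fun i => clo nx ((fun j => (e j : Γ)) '' Set.Iic i)
  have hmono : Monotone Sx := fun i j hij => clo_mono nx (Set.image_mono (Set.Iic_subset_Iic.2 hij))
  have hex : ∀ γ : S, ∃ i, (γ : Γ) ∈ Sx i := fun γ =>
    ⟨e.symm γ, subset_clo nx _ ⟨e.symm γ, Set.mem_Iic.2 le_rfl, by simp⟩⟩
  let rk : Γ → (#S).ord.ToType := fun γ =>
    if h : γ ∈ S then wellFounded_lt.min {i | γ ∈ Sx i} (hex ⟨γ, h⟩) else bot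
  refine ⟨(#S).ord.ToType, inferInstance, ob, Sx, rk, ⟨fun i => clo_cld nx _, ?_, ?_⟩, ?_⟩
  · intro i
    refine clo_subset hS ?_
    rintro _ ⟨j, _, rfl⟩
    exact (e j).2
  · intro γ hγ i
    have hr : rk γ = wellFounded_lt.min {i | γ ∈ Sx i} (hex ⟨γ, hγ⟩) := dif_pos hγ
    rw [hr]
    constructor
    · intro h
      exact not_lt.1 (wellFounded_lt.not_lt_min {i | γ ∈ Sx i} h)
    · intro h
      exact hmono h (wellFounded_lt.min_mem {i | γ ∈ Sx i} (hex ⟨γ, hγ⟩))
  · intro i
    refine (card_clo_le nx _).trans_lt (max_lt ?_ hunc)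
    refine Cardinal.mk_image_le.trans_lt ?_
    have h1 : #(Set.Iio i) < #S := by simpa using Cardinal.mk_Iio_lt i
    have h2 : (Set.Iic i) = insert i (Set.Iio i) := by
      ext j
      simp [le_iff_eq_or_lt]
    rw [h2]
    refine Cardinal.mk_insert_le.trans_lt ?_
    exact Cardinal.add_lt_of_lt hunc.le h1 (Cardinal.one_lt_aleph0.trans hunc)

end C0G
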