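import Pool.Agent.Lib.MP_85fd23_an.Main

/-!
C0G row EMBED.  From c_0(Γ) to all spaces that embed isomorphically into some c_0(Γ).

Proof.  c ‖x‖ ≤ ‖J x‖ ≤ C ‖x‖ (C = ‖J‖), c > 0.  B = 1/c.  N z = inf_x (‖x‖ + B ‖z - J x‖) on C₀(Γ, ℝ).
N is a seminorm: subadditive and homogeneous (infimum over the vector space E).  N z ≤ B ‖z‖ (x = 0);
N z ≥ inf (‖J x‖/C' + B ‖z - J x‖) ≥ min (1/C') B ‖z‖ > 0-multiple of ‖z‖ with C' = max C 1.
N (J x) = ‖x‖: ≤ by taking x itself; ≥: ‖x'‖ + B ‖J x - J x'‖ ≥ ‖x'‖ + ‖x - x'‖ ≥ ‖x‖.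
McShane: F' z = inf_x (F x + L N(z - J x)): finite (F x + L N(z - J x) ≥ F 0 - L‖x‖ + L N(J x) - L N z
= F 0 - L N z), N-Lipschitz with constant L, F' (J x) = F x.  Apply approx to F', h = h' ∘ J (J is
continuous linear, so C^1).
-/

set_option linter.unusedSectionVars false

namespace C0G

open scoped ZeroAtInfty Topology BigOperators
open Filter Set

universe u v

section

variable {Γ : Type u} [TopologicalSpace Γ] [DiscreteTopology Γ] {E : Type v}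
  [NormedAddCommGroup E] [NormedSpace ℝ E]

/-- the extended norm -/
private noncomputable def embN (J : E →L[ℝ] C₀(Γ, ℝ)) (B : ℝ) (z : C₀(Γ, ℝ)) : ℝ :=
  ⨅ x : E, (‖x‖ + B * ‖z - J x‖)

private theorem embN_bdd (J : E →L[ℝ] C₀(Γ, ℝ)) {B : ℝ} (hB : 0 < B) (z : C₀(Γ, ℝ)) :
    BddBelow (Set.range fun x : E => ‖x‖ + B * ‖z - J x‖) :=
  ⟨0, by
    rintro _ ⟨x, rfl⟩
    positivity⟩

private theorem embN_le (J : E →L[ℝ] C₀(Γ, ℝ)) {B : ℝ} (hB : 0 < B) (z : C₀(Γ, ℝ)) (x : E) :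
    embN J B z ≤ ‖x‖ + B * ‖z - J x‖ :=
  ciInf_le (embN_bdd J hB z) x

private theorem le_embN (J : E →L[ℝ] C₀(Γ, ℝ)) {B r : ℝ} (z : C₀(Γ, ℝ))
    (h : ∀ x : E, r ≤ ‖x‖ + B * ‖z - J x‖) : r ≤ embN J B z :=
  le_ciInf h

private theorem embN_add (J : E →L[ℝ] C₀(Γ, ℝ)) {B : ℝ} (hB : 0 < B) (z w : C₀(Γ, ℝ)) :
    embN J B (z + w) ≤ embN J B z + embN J B w := by
  have h1 : ∀ x : E, embN J B (z + w) - (‖x‖ + B * ‖z - J x‖) ≤ embN J B w := by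
    intro x
    refine le_embN J w fun y => ?_
    have h2 := embN_le J hB (z + w) (x + y)
    have h3 : ‖z + w - J (x + y)‖ ≤ ‖z - J x‖ + ‖w - J y‖ := by
      have e : z + w - J (x + y) = (z - J x) + (w - J y) := by
        rw [map_add]
        abel
      rw [e]
      exact norm_add_le _ _
    have h4 : ‖x + y‖ ≤ ‖x‖ + ‖y‖ := norm_add_le _ _
    nlinarith
  have h5 : embN J B (z + w) - embN J B w ≤ embN J B z :=
    le_embN J z fun x => by linarith [h1 x]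
  linarith

private theorem embN_nonneg (J : E →L[ℝ] C₀(Γ, ℝ)) {B : ℝ} (hB : 0 < B) (z : C₀(Γ, ℝ)) :
    0 ≤ embN J B z := le_embN J z fun x => by positivity

private theorem embN_zero (J : E →L[ℝ] C₀(Γ, ℝ)) {B : ℝ} (hB : 0 < B) :
    embN J B 0 = 0 := by
  refine le_antisymm ?_ (embN_nonneg J hB 0)
  have h := embN_le J hB 0 0
  simpa using h

private theorem embN_smul_le (J : E →L[ℝ] C₀(Γ, ℝ)) {B : ℝ} (hB : 0 < B) {r : ℝ} (hr : r ≠ 0)
    (z : C₀(Γ, ℝ)) : embN J B (r • z) ≤ |r| * embN J B z := by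
  have hr' : 0 < |r| := abs_pos.2 hr
  have h1 : |r|⁻¹ * embN J B (r • z) ≤ embN J B z := by
    refine le_embN J z fun x => ?_
    have h2 := embN_le J hB (r • z) (r • x)
    have h3 : ‖r • z - J (r • x)‖ = |r| * ‖z - J x‖ := by
      have e : r • z - J (r • x) = r • (z - J x) := by
        rw [map_smul]
        ext γ
        simp [_root_.mul_sub]
      rw [e, norm_smul, Real.norm_eq_abs]
    rw [h3, norm_smul, Real.norm_eq_abs] at h2
    have h4 : |r| * ‖x‖ + B * (|r| * ‖z - J x‖) = |r| * (‖x‖ + B * ‖z - J x‖) := by ring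
    rw [h4] at h2
    rw [inv_mul_le_iff₀ hr']
    exact h2
  rwa [inv_mul_le_iff₀ hr'] at h1

private theorem embN_smul (J : E →L[ℝ] C₀(Γ, ℝ)) {B : ℝ} (hB : 0 < B) (r : ℝ) (z : C₀(Γ, ℝ)) :
    embN J B (r • z) = |r| * embN J B z := by
  by_cases hr : r = 0
  · rw [hr, zero_smul, embN_zero J hB, abs_zero, zero_mul]
  · refine le_antisymm (embN_smul_le J hB hr z) ?_
    have h1 := embN_smul_le J hB (inv_ne_zero hr) (r • z)
    rw [smul_smul, inv_mul_cancel₀ hr, one_smul, abs_inv] at h1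
    have hr' : 0 < |r| := abs_pos.2 hr
    calc |r| * embN J B z ≤ |r| * (|r|⁻¹ * embN J B (r • z)) :=
          mul_le_mul_of_nonneg_left h1 hr'.le
      _ = embN J B (r • z) := by rw [mul_inv_cancel_left₀ hr'.ne']

private theorem embN_lo (J : E →L[ℝ] C₀(Γ, ℝ)) {B : ℝ} (hB : 0 < B) (z : C₀(Γ, ℝ)) :
    min (1 / max ‖J‖ 1) B * ‖z‖ ≤ embN J B z := by
  refine le_embN J z fun x => ?_
  have hC : 0 < max ‖J‖ 1 := lt_of_lt_of_le one_pos (le_max_right _ _)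
  have h1 : ‖z‖ ≤ ‖J x‖ + ‖z - J x‖ := by
    have := norm_add_le (J x) (z - J x)
    rwa [add_sub_cancel] at this
  have h2 : ‖J x‖ ≤ max ‖J‖ 1 * ‖x‖ :=
    (J.le_opNorm x).trans (mul_le_mul_of_nonneg_right (le_max_left _ _) (norm_nonneg _))
  have h0 : 0 ≤ min (1 / max ‖J‖ 1) B := le_min (by positivity) hB.le
  have h3 : min (1 / max ‖J‖ 1) B * ‖J x‖ ≤ ‖x‖ := by
    calc min (1 / max ‖J‖ 1) B * ‖J x‖ ≤ (1 / max ‖J‖ 1) * (max ‖J‖ 1 * ‖x‖) :=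
          mul_le_mul (min_le_left _ _) h2 (norm_nonneg _) (by positivity)
      _ = ‖x‖ := by
        rw [one_div, inv_mul_cancel_left₀ hC.ne']
  have h4 : min (1 / max ‖J‖ 1) B * ‖z - J x‖ ≤ B * ‖z - J x‖ :=
    mul_le_mul_of_nonneg_right (min_le_right _ _) (norm_nonneg _)
  calc min (1 / max ‖J‖ 1) B * ‖z‖ ≤ min (1 / max ‖J‖ 1) B * (‖J x‖ + ‖z - J x‖) :=
        mul_le_mul_of_nonneg_left h1 h0
    _ = min (1 / max ‖J‖ 1) B * ‖J x‖ + min (1 / max ‖J‖ 1) B * ‖z - J x‖ := by ring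
    _ ≤ ‖x‖ + B * ‖z - J x‖ := add_le_add h3 h4

private theorem embN_eqN (J : E →L[ℝ] C₀(Γ, ℝ)) {B : ℝ} (hB : 0 < B) :
    EqN (embN J B) (min (1 / max ‖J‖ 1) B) B where
  apos := by
    have hC : 0 < max ‖J‖ 1 := lt_of_lt_of_le one_pos (le_max_right _ _)
    exact lt_min (by positivity) hB
  bpos := hB
  add := embN_add J hB
  smul := embN_smul J hB
  lo := embN_lo J hB
  hi := fun z => by
    have h := embN_le J hB z 0
    simpa using h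

private theorem embN_J_le (J : E →L[ℝ] C₀(Γ, ℝ)) {B : ℝ} (hB : 0 < B) (x : E) :
    embN J B (J x) ≤ ‖x‖ := by
  have h := embN_le J hB (J x) x
  simpa using h

private theorem le_embN_J (J : E →L[ℝ] C₀(Γ, ℝ)) {c : ℝ} (hc : 0 < c)
    (hJ : ∀ x, c * ‖x‖ ≤ ‖J x‖) (x : E) : ‖x‖ ≤ embN J c⁻¹ (J x) := by
  refine le_embN J _ fun y => ?_
  have h1 : ‖x - y‖ ≤ c⁻¹ * ‖J x - J y‖ := by
    rw [← map_sub, le_inv_mul_iff₀ hc]
    exact hJ (x - y)
  have h2 : ‖x‖ ≤ ‖y‖ + ‖x - y‖ := by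
    have := norm_add_le y (x - y)
    rwa [add_sub_cancel] at this
  linarith

/-- the extended function -/
private noncomputable def embF (J : E →L[ℝ] C₀(Γ, ℝ)) (B L : ℝ) (F : E → ℝ) (z : C₀(Γ, ℝ)) : ℝ :=
  ⨅ x : E, (F x + L * embN J B (z - J x))

private theorem embF_bdd (J : E →L[ℝ] C₀(Γ, ℝ)) {c L : ℝ} (hc : 0 < c) (hL : 0 ≤ L)
    (hJ : ∀ x, c * ‖x‖ ≤ ‖J x‖) {F : E → ℝ} (hF : ∀ x y, |F x - F y| ≤ L * ‖x - y‖)
    (z : C₀(Γ, ℝ)) :
    BddBelow (Set.range fun x : E => F x + L * embN J c⁻¹ (z - J x)) := by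
  refine ⟨F 0 - L * embN J c⁻¹ z, ?_⟩
  rintro _ ⟨x, rfl⟩
  have hN := embN_eqN J (inv_pos.2 hc)
  have h1 : ‖x‖ ≤ embN J c⁻¹ (J x) := le_embN_J J hc hJ x
  have h2 : embN J c⁻¹ (J x) ≤ embN J c⁻¹ z + embN J c⁻¹ (z - J x) := by
    have := hN.sub_le z (z - J x)
    rwa [sub_sub_cancel] at this
  have h3 := hF 0 x
  rw [zero_sub, norm_neg] at h3
  have h4 := (abs_le.1 h3).2
  have h5 : L * ‖x‖ ≤ L * (embN J c⁻¹ z + embN J c⁻¹ (z - J x)) :=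
    mul_le_mul_of_nonneg_left (h1.trans h2) hL
  show F 0 - L * embN J c⁻¹ z ≤ F x + L * embN J c⁻¹ (z - J x)
  nlinarith

private theorem embF_J (J : E →L[ℝ] C₀(Γ, ℝ)) {c L : ℝ} (hc : 0 < c) (hL : 0 ≤ L)
    (hJ : ∀ x, c * ‖x‖ ≤ ‖J x‖) {F : E → ℝ} (hF : ∀ x y, |F x - F y| ≤ L * ‖x - y‖)
    (x : E) : embF J c⁻¹ L F (J x) = F x := by
  refine le_antisymm ?_ ?_
  · have h := ciInf_le (embF_bdd J hc hL hJ hF (J x)) x
    have e : embN J c⁻¹ (J x - J x) = 0 := by rw [sub_self, embN_zero J (inv_pos.2 hc)]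
    simp only [e, mul_zero, add_zero] at h
    exact h
  · refine le_ciInf fun y => ?_
    have h1 : ‖x - y‖ ≤ embN J c⁻¹ (J x - J y) := by
      rw [← map_sub]
      exact le_embN_J J hc hJ (x - y)
    have h2 := (abs_le.1 (hF x y)).2
    have h3 := mul_le_mul_of_nonneg_left h1 hL
    linarith

private theorem embF_NL (J : E →L[ℝ] C₀(Γ, ℝ)) {c L : ℝ} (hc : 0 < c) (hL : 0 ≤ L)
    (hJ : ∀ x, c * ‖x‖ ≤ ‖J x‖) {F : E → ℝ} (hF : ∀ x y, |F x - F y| ≤ L * ‖x - y‖) :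
    NL (embN J c⁻¹) L (embF J c⁻¹ L F) := by
  have hN := embN_eqN J (inv_pos.2 hc)
  have key : ∀ z w, embF J c⁻¹ L F z - L * embN J c⁻¹ (z - w) ≤ embF J c⁻¹ L F w := by
    intro z w
    refine le_ciInf fun x => ?_
    have h1 : embF J c⁻¹ L F z ≤ F x + L * embN J c⁻¹ (z - J x) :=
      ciInf_le (embF_bdd J hc hL hJ hF z) x
    have h2 := mul_le_mul_of_nonneg_left (hN.tri z w (J x)) hL
    linarith
  intro z w
  rw [abs_le]
  constructor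
  · have := key w z
    rw [hN.sub_comm w z] at this
    linarith
  · linarith [key z w]

end

theorem embed {Γ : Type u} [TopologicalSpace Γ] [DiscreteTopology Γ] {E : Type v}
    [NormedAddCommGroup E] [NormedSpace ℝ E] (J : E →L[ℝ] C₀(Γ, ℝ)) {c : ℝ} (hc : 0 < c)
    (hJ : ∀ x, c * ‖x‖ ≤ ‖J x‖) {F : E → ℝ} {L : NNReal} (hF : LipschitzWith L F) {ε : NNReal}
    (hε : 0 < ε) {δ : ℝ} (hδ : 0 < δ) :
    ∃ h : E → ℝ, ContDiff ℝ 1 h ∧ LipschitzWith ((1 + ε) * L) h ∧ ∀ x, |h x - F x| ≤ δ := by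
  have hF' : ∀ x y, |F x - F y| ≤ (L : ℝ) * ‖x - y‖ := by
    intro x y
    have := hF.dist_le_mul x y
    rwa [Real.dist_eq, dist_eq_norm] at this
  have hL : (0 : ℝ) ≤ L := L.2
  have hε' : (0 : ℝ) < ε := hε
  obtain ⟨h, h1, h2, h3⟩ := approx (embN_eqN J (inv_pos.2 hc)) hL
    (embF_NL J hc hL hJ hF') hε' hδ
  refine ⟨fun x => h (J x), h1.comp J.contDiff, ?_, ?_⟩
  · refine LipschitzWith.of_dist_le_mul fun x y => ?_
    rw [Real.dist_eq, dist_eq_norm]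
    refine (h2 (J x) (J y)).trans ?_
    rw [← map_sub]
    have h4 : (0 : ℝ) ≤ (1 + ε) * L := by positivity
    have h5 := mul_le_mul_of_nonneg_left (embN_J_le J (inv_pos.2 hc) (x - y)) h4
    refine h5.trans (le_of_eq ?_)
    push_cast
    rfl
  · intro x
    have := h3 (J x)
    rwa [embF_J J hc hL hJ hF' x] at this

end C0G
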