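import Pool.Agent.Lib.MP_85fd23_an.TS

/-!
C0G row GATEROB.  Functions of a gate which are constant below the level c are robustly dependent on
finitely many coordinates.

gt_max: if y γ = z γ for γ ∈ A and |y γ|, |z γ| ≤ c for γ ∉ A then max (gt w y) c = max (gt w z) c
(gt_le_iff, le_gt: symmetric argument, gt w y ≤ max (gt w z) c).
rob_gate: A = {γ : c/2 ≤ |x₀ γ|} (finite_ge); for ‖y-x₀‖ ≤ 2 s = c/4 and γ ∉ A: |y γ| ≤ c/2 + c/4 ≤ c.
-/

set_option linter.unusedSectionVars false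

namespace C0G

open scoped ZeroAtInfty Topology BigOperators
open Filter Set

universe u

variable {Γ : Type u} [TopologicalSpace Γ] [DiscreteTopology Γ]

private theorem GateRob_le (w : Γ → ℝ) {c : ℝ} {A : Set Γ} {y z : C₀(Γ, ℝ)}
    (hA : ∀ γ ∈ A, y γ = z γ) (hy : ∀ γ ∉ A, |y γ| ≤ c) : gt w y ≤ max (gt w z) c := by
  rw [gt_le_iff w y ((gt_nonneg w z).trans (le_max_left _ _))]
  intro γ
  by_cases h : γ ∈ A
  · rw [hA γ h]
    exact (le_gt w z γ).trans (le_max_left _ _)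
  · exact (mul_le_of_le_one_left (abs_nonneg _) (cl_le_one _)).trans
      ((hy γ h).trans (le_max_right _ _))

theorem gt_max (w : Γ → ℝ) {c : ℝ} (hc : 0 ≤ c) {A : Set Γ} {y z : C₀(Γ, ℝ)}
    (hA : ∀ γ ∈ A, y γ = z γ) (hy : ∀ γ ∉ A, |y γ| ≤ c) (hz : ∀ γ ∉ A, |z γ| ≤ c) :
    max (gt w y) c = max (gt w z) c := by
  apply le_antisymm
  · exact max_le (GateRob_le w hA hy) (le_max_right _ _)
  · exact max_le (GateRob_le w (fun γ h => (hA γ h).symm) hz) (le_max_right _ _)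

private theorem GateRob_theta {c : ℝ} {θ : ℝ → ℝ} (hθ : ∀ t, 0 ≤ t → t ≤ c → θ t = θ c) {t : ℝ}
    (ht : 0 ≤ t) : θ t = θ (max t c) := by
  rcases le_total t c with h | h
  · rw [max_eq_right h]
    exact hθ t ht h
  · rw [max_eq_left h]

theorem rob_gate (w : Γ → ℝ) {c s : ℝ} (hc : 0 < c) (hs : 8 * s ≤ c) (θ : ℝ → ℝ)
    (hθ : ∀ t, 0 ≤ t → t ≤ c → θ t = θ c) : Rob s (fun x : C₀(Γ, ℝ) => θ (gt w x)) := by
  intro x₀
  have hc2 : 0 < c / 2 := by linarith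
  have hfin := finite_ge x₀ hc2
  have hb : ∀ v : C₀(Γ, ℝ), ‖v - x₀‖ ≤ 2 * s → ∀ γ ∉ {γ | c / 2 ≤ |x₀ γ|}, |v γ| ≤ c := by
    intro v hv γ hγ
    have h1 : |x₀ γ| < c / 2 := by
      simpa using hγ
    have h2 : |(v - x₀) γ| ≤ 2 * s := (abs_le_norm _ γ).trans hv
    have h3 : v γ = x₀ γ + (v - x₀) γ := by simp
    rw [h3]
    refine (abs_add_le _ _).trans ?_
    linarith
  refine ⟨hfin.toFinset, ?_⟩
  intro y z hy hz hyz
  have hA : ∀ γ ∈ {γ | c / 2 ≤ |x₀ γ|}, y γ = z γ := fun γ hγ =>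
    hyz γ (hfin.mem_toFinset.2 hγ)
  have hm := gt_max w hc.le hA (hb y hy) (hb z hz)
  show θ (gt w y) = θ (gt w z)
  rw [GateRob_theta hθ (gt_nonneg w y), GateRob_theta hθ (gt_nonneg w z), hm]

end C0G
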