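import Pool.Agent.Lib.MP_85fd23_an.Avg

/-!
C0G row GOOD.  Closed sets are good: the projection onto them is an N-contraction.

Proof of cld_good.  S empty: pr S x = 0.  Else let γ₀ ∈ S, ρ > 0, n ≥ 1, G 0 = {γ₀} ∪ {γ ∈ S : |x γ| ≥ ρ}
(finite), G (j+1) = nx (G j) n.  All G j ⊆ S.  avg with c_j = 1/n (j < n), κ = 1/n, level 1/(n+1):
N(C x) ≤ (1 + 1/(n+1) + 2(b/a)/n) N x, C x = (1/n) Σ_{j<n} pr (G j) x; and |C x - pr S x| ≤ ρ
everywhere (on G 0 equal; on S \ G 0 both between 0 and x γ, |x γ| < ρ; outside S both 0).  So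
N(pr S x) ≤ (1 + 1/(n+1) + 2(b/a)/n) N x + b ρ; let n → ∞, ρ → 0 (le_of_forall_pos_le_add).
cld_union: a finite nonempty G inside ⋃_{i∈J} Sx i lies in one Sx i, i ∈ J (maximum of the finitely
many indices; induction on G or Finset.exists_le / Set.Finite.exists_maximal, directedness), so
nx G n ⊆ Sx i.
-/

set_option linter.unusedSectionVars false

namespace C0G

open scoped ZeroAtInfty Topology BigOperators
open Filter Set

universe u

variable {Γ : Type u} [TopologicalSpace Γ] [DiscreteTopology Γ]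

private noncomputable def goodG (nx : Finset Γ → ℕ → Finset Γ) (G0 : Finset Γ) (n : ℕ) :
    ℕ → Finset Γ
  | 0 => G0
  | j + 1 => nx (goodG nx G0 n j) n

private theorem good_step {N : C₀(Γ, ℝ) → ℝ} {a b : ℝ} (hN : EqN N a b)
    {nx : Finset Γ → ℕ → Finset Γ} (hnx : NX N nx) {S : Set Γ} (hS : Cld nx S)
    (x : C₀(Γ, ℝ)) {γ₀ : Γ} (hγ₀ : γ₀ ∈ S) (m : ℕ) {ρ : ℝ} (hρ : 0 < ρ) :
    N (pr S x) ≤ (1 + 1 / ((m : ℝ) + 1) + 2 * (b / a) * (1 / ((m : ℝ) + 1))) * N x + b * ρ := by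
  classical
  set G0 : Finset Γ := insert γ₀ ((finite_ge x hρ).toFinset.filter (fun γ => γ ∈ S)) with hG0
  set G : ℕ → Finset Γ := goodG nx G0 (m + 1) with hGdef
  have hm : (0 : ℝ) < (m : ℝ) + 1 := by positivity
  have hG0ne : G0.Nonempty := ⟨γ₀, Finset.mem_insert_self _ _⟩
  have hG0S : (G0 : Set Γ) ⊆ S := by
    intro γ hγ
    rw [Finset.mem_coe, hG0, Finset.mem_insert] at hγ
    rcases hγ with rfl | hγ
    · exact hγ₀
    · exact (Finset.mem_filter.1 hγ).2
  have hGsucc : ∀ j, G (j + 1) = nx (G j) (m + 1) := fun j => rfl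
  have hGz : G 0 = G0 := rfl
  have hmono : ∀ j, G j ⊆ G (j + 1) := fun j => by rw [hGsucc]; exact hnx.sub _ _
  have hall : ∀ j, (G j).Nonempty ∧ (G j : Set Γ) ⊆ S ∧ G0 ⊆ G j := by
    intro j
    induction j with
    | zero => exact ⟨hG0ne, hG0S, Finset.Subset.refl _⟩
    | succ j ih =>
      refine ⟨ih.1.mono (hmono j), ?_, ih.2.2.trans (hmono j)⟩
      rw [hGsucc]
      exact hS _ ih.1 ih.2.1 _
  have hav := avg hN G (m + 1) (ρ := 1 / ((m : ℝ) + 1)) (κ := 1 / ((m : ℝ) + 1))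
    (by positivity) (by rw [div_le_one hm]; linarith [(Nat.cast_nonneg m : (0 : ℝ) ≤ m)])
    (by positivity) hmono
    (by
      intro j _ z
      obtain ⟨y, h1, h2, h3⟩ := hnx.ex (G j) (m + 1) z
      refine ⟨y, by rw [hGsucc]; exact h1, h2, h3.trans ?_⟩
      refine mul_le_mul_of_nonneg_right ?_ (hN.nonneg z)
      have : 1 / (((m + 1 : ℕ) : ℝ) + 1) ≤ 1 / ((m : ℝ) + 1) := by
        refine one_div_le_one_div_of_le hm ?_
        push_cast
        linarith
      linarith)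
    (fun _ => 1 / ((m : ℝ) + 1)) (fun _ => by positivity)
    (by
      rw [Finset.sum_const, Finset.card_range, nsmul_eq_mul]
      push_cast
      rw [mul_one_div, div_self hm.ne'])
    (fun _ _ => le_refl _) x
  set C : C₀(Γ, ℝ) := ∑ j ∈ Finset.range (m + 1), (1 / ((m : ℝ) + 1)) • pr (G j : Set Γ) x with hC
  have hCap : ∀ γ, C γ = ∑ j ∈ Finset.range (m + 1),
      (1 / ((m : ℝ) + 1)) * pr (G j : Set Γ) x γ := by
    intro γ
    have hgen : ∀ s : Finset ℕ, (∑ j ∈ s, (1 / ((m : ℝ) + 1)) • pr (G j : Set Γ) x) γ =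
        ∑ j ∈ s, (1 / ((m : ℝ) + 1)) * pr (G j : Set Γ) x γ := by
      intro s
      induction s using Finset.induction_on with
      | empty => simp
      | insert i s hi ih =>
        rw [Finset.sum_insert hi, Finset.sum_insert hi, ZeroAtInftyContinuousMap.add_apply, ih]
        rfl
    exact hgen _
  have hpt : ∀ γ, ∀ j, |pr S x γ - pr (G j : Set Γ) x γ| ≤ ρ := by
    intro γ j
    by_cases hγS : γ ∈ S
    · by_cases hγG : γ ∈ G j
      · rw [pr_of_mem hγS, pr_of_mem (Finset.mem_coe.2 hγG), sub_self, abs_zero]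
        exact hρ.le
      · rw [pr_of_mem hγS, pr_of_notMem (fun h => hγG (Finset.mem_coe.1 h)), sub_zero]
        by_contra hlt
        apply hγG
        apply (hall j).2.2
        rw [hG0, Finset.mem_insert]
        right
        rw [Finset.mem_filter, Set.Finite.mem_toFinset]
        exact ⟨(not_le.1 hlt).le, hγS⟩
    · rw [pr_of_notMem hγS, pr_of_notMem (fun h => hγS ((hall j).2.1 h)), sub_self, abs_zero]
      exact hρ.le
  have hdiff : ‖pr S x - C‖ ≤ ρ := by
    rw [norm_le_iff hρ.le]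
    intro γ
    have h1 : (pr S x - C) γ = ∑ j ∈ Finset.range (m + 1),
        (1 / ((m : ℝ) + 1)) * (pr S x γ - pr (G j : Set Γ) x γ) := by
      rw [ZeroAtInftyContinuousMap.sub_apply, hCap γ]
      simp_rw [_root_.mul_sub]
      rw [Finset.sum_sub_distrib, Finset.sum_const, Finset.card_range, nsmul_eq_mul]
      push_cast
      rw [← mul_assoc, mul_one_div, div_self hm.ne', one_mul]
    rw [h1]
    refine (Finset.abs_sum_le_sum_abs _ _).trans ?_
    have h2 : ∀ j ∈ Finset.range (m + 1),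
        |(1 / ((m : ℝ) + 1)) * (pr S x γ - pr (G j : Set Γ) x γ)| ≤ (1 / ((m : ℝ) + 1)) * ρ := by
      intro j _
      rw [abs_mul, abs_of_nonneg (by positivity : (0 : ℝ) ≤ 1 / ((m : ℝ) + 1))]
      exact mul_le_mul_of_nonneg_left (hpt γ j) (by positivity)
    refine (Finset.sum_le_sum h2).trans ?_
    rw [Finset.sum_const, Finset.card_range, nsmul_eq_mul]
    push_cast
    rw [← mul_assoc, mul_one_div, div_self hm.ne', one_mul]
  have h3 : N (pr S x) ≤ N C + N (pr S x - C) := by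
    have := hN.add C (pr S x - C)
    simpa using this
  have h4 : N (pr S x - C) ≤ b * ρ :=
    (hN.hi _).trans (mul_le_mul_of_nonneg_left hdiff hN.bpos.le)
  linarith

theorem cld_good {N : C₀(Γ, ℝ) → ℝ} {a b : ℝ} (hN : EqN N a b) {nx : Finset Γ → ℕ → Finset Γ}
    (hnx : NX N nx) {S : Set Γ} (hS : Cld nx S) (x : C₀(Γ, ℝ)) : N (pr S x) ≤ N x := by
  rcases S.eq_empty_or_nonempty with rfl | ⟨γ₀, hγ₀⟩
  · have h0 : pr (∅ : Set Γ) x = 0 := by
      ext γ
      rw [pr_of_notMem (Set.notMem_empty γ)]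
      rfl
    rw [h0, hN.zero]
    exact hN.nonneg x
  · have he : Tendsto (fun m : ℕ => 1 / ((m : ℝ) + 1)) atTop (𝓝 0) :=
      tendsto_one_div_add_atTop_nhds_zero_nat
    have hlim : Tendsto (fun m : ℕ => (1 + 1 / ((m : ℝ) + 1) +
        2 * (b / a) * (1 / ((m : ℝ) + 1))) * N x + b * (1 / ((m : ℝ) + 1))) atTop
        (𝓝 ((1 + 0 + 2 * (b / a) * 0) * N x + b * 0)) :=
      (((tendsto_const_nhds.add he).add (he.const_mul _)).mul_const _).add (he.const_mul _)
    have hle : N (pr S x) ≤ (1 + 0 + 2 * (b / a) * 0) * N x + b * 0 :=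
      ge_of_tendsto' hlim fun m => good_step hN hnx hS x hγ₀ m (by positivity)
    simpa using hle

theorem cld_union {nx : Finset Γ → ℕ → Finset Γ} {I : Type*} [LinearOrder I] {Sx : I → Set Γ}
    (hmono : ∀ i j, i ≤ j → Sx i ⊆ Sx j) (h : ∀ i, Cld nx (Sx i)) (J : Set I) :
    Cld nx (⋃ i ∈ J, Sx i) := by
  intro G hG hGS n
  obtain ⟨γ, hγ⟩ := hG
  have hJ : J.Nonempty := by
    have h1 := hGS (Finset.mem_coe.2 hγ)
    rw [Set.mem_iUnion₂] at h1
    obtain ⟨i, hi, _⟩ := h1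
    exact ⟨i, hi⟩
  have hdir : DirectedOn (fun i j => Sx i ⊆ Sx j) J := by
    intro i hi j hj
    rcases le_total i j with hij | hij
    · exact ⟨j, hj, hmono i j hij, le_refl _⟩
    · exact ⟨i, hi, le_refl _, hmono j i hij⟩
  obtain ⟨i, hi, hsub⟩ := DirectedOn.exists_mem_subset_of_finset_subset_biUnion hJ hdir hGS
  refine (h i G ⟨γ, hγ⟩ hsub n).trans ?_
  exact Set.subset_biUnion_of_mem (u := Sx) hi

end C0G
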