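import Pool.Agent.Lib.MP_85fd23_an.Base

/-!
C0G row KERN.  nu s = a probability measure on ℝ with C^infinity density supported in [-s,s];
averages of continuous functions over the product measure are C^1.

Proofs.  nu_prob: for s <= 0 Dirac; else integral of ContDiffBump.normed is 1 (ContDiffBump.integral_normed,
ContDiffBump.nonneg_normed, ofReal_integral_eq_lintegral_ofReal, withDensity_apply univ).
nu_ae: the density vanishes for |t| > s (ContDiffBump.support_normed_eq = ball 0 s).
kern_C1: (a) Measure.pi (fun _ => nu s) = volume.withDensity (fun t => ofReal (prod_i rho (t i)))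
(Measure.pi_eq on boxes, or compare integrals with MeasureTheory.integral_fintype_prod_eq_prod);
(b) int G(a+t) dpi = int K(t) G(a+t) dt = int K(t) G(a-(-t)) dt = convolution of the kernel
K(-t) = prod rho(-t_i) (smooth, compact support in the closed ball of radius s of κ → ℝ) with G
(continuous, hence locally integrable): HasCompactSupport.contDiff_convolution_left.
-/

set_option linter.unusedSectionVars false

namespace C0G

open scoped ZeroAtInfty Topology BigOperators
open Filter Set MeasureTheory

/-- a smooth probability kernel on ℝ supported in [-s,s] (Dirac mass for s ≤ 0) -/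
noncomputable def nu (s : ℝ) : Measure ℝ :=
  if h : 0 < s then
    volume.withDensity fun t => ENNReal.ofReal
      ((⟨s / 2, s, by positivity, by linarith⟩ : ContDiffBump (0 : ℝ)).normed volume t)
  else Measure.dirac 0

instance nu_prob (s : ℝ) : IsProbabilityMeasure (nu s) := by
  unfold nu
  split_ifs with h
  · constructor
    rw [withDensity_apply _ MeasurableSet.univ, Measure.restrict_univ,
      ← ofReal_integral_eq_lintegral_ofReal]
    · rw [ContDiffBump.integral_normed]; simp
    · exact ContDiffBump.integrable_normed _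
    · exact Eventually.of_forall (fun t => ContDiffBump.nonneg_normed _ t)
  · infer_instance

theorem nu_ae {s : ℝ} (hs : 0 < s) : ∀ᵐ t ∂(nu s), |t| ≤ s := by
  unfold nu
  rw [dif_pos hs]
  have hm : Measurable (fun t : ℝ => ENNReal.ofReal
      ((⟨s / 2, s, by positivity, by linarith⟩ : ContDiffBump (0 : ℝ)).normed volume t)) :=
    (ContDiffBump.continuous_normed _).measurable.ennreal_ofReal
  rw [ae_withDensity_iff hm]
  refine Eventually.of_forall (fun t ht => ?_)
  have h1 : t ∈ Function.support
      ((⟨s / 2, s, by positivity, by linarith⟩ : ContDiffBump (0 : ℝ)).normed volume) := by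
    intro h0
    exact ht (by rw [h0]; simp)
  rw [ContDiffBump.support_normed_eq] at h1
  have h2 := Metric.mem_ball.1 h1
  rw [Real.dist_eq, sub_zero] at h2
  exact h2.le

/-- the product of measures with densities r is the measure with the product density -/
theorem pi_dens {κ : Type*} [Fintype κ] {r : ℝ → ℝ} (h0 : ∀ t, 0 ≤ r t)
    (hi : Integrable r volume)
    [SigmaFinite (volume.withDensity (fun t => ENNReal.ofReal (r t)) : Measure ℝ)] :
    Measure.pi (fun _ : κ => (volume.withDensity (fun t => ENNReal.ofReal (r t)) : Measure ℝ)) =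
      (volume : Measure (κ → ℝ)).withDensity (fun t => ENNReal.ofReal (∏ i, r (t i))) := by
  refine (Measure.pi_eq (fun S hS => ?_))
  rw [withDensity_apply _ (MeasurableSet.univ_pi hS), volume_pi, Measure.restrict_pi_pi]
  have hI : Integrable (fun t : κ → ℝ => ∏ i, r (t i))
      (Measure.pi fun i => (volume : Measure ℝ).restrict (S i)) :=
    Integrable.fintype_prod (f := fun _ => r) (fun i => hi.restrict)
  rw [← ofReal_integral_eq_lintegral_ofReal hI
    (Eventually.of_forall (fun t => Finset.prod_nonneg (fun i _ => h0 (t i))))]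
  rw [integral_fintype_prod_eq_prod (f := fun _ => r)]
  rw [ENNReal.ofReal_prod_of_nonneg (fun i _ => integral_nonneg (fun t => h0 t))]
  refine Finset.prod_congr rfl (fun i _ => ?_)
  rw [withDensity_apply _ (hS i), ofReal_integral_eq_lintegral_ofReal hi.restrict
    (Eventually.of_forall h0)]

theorem kern_C1 {κ : Type*} [Fintype κ] {s : ℝ} (hs : 0 < s) {G : (κ → ℝ) → ℝ} (hG : Continuous G) :
    ContDiff ℝ 1 (fun a : κ → ℝ => ∫ t, G (a + t) ∂(Measure.pi fun _ : κ => nu s)) := by
  obtain ⟨f, hf⟩ : ∃ f : ContDiffBump (0 : ℝ), f = ⟨s / 2, s, by positivity, by linarith⟩ :=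
    ⟨_, rfl⟩
  have hnu : nu s = volume.withDensity fun t => ENNReal.ofReal (f.normed volume t) := by
    unfold nu
    rw [dif_pos hs, hf]
  obtain ⟨r, hr⟩ : ∃ r : ℝ → ℝ, r = f.normed volume := ⟨_, rfl⟩
  have hrc : Continuous r := by rw [hr]; exact f.continuous_normed
  have hr0 : ∀ t, 0 ≤ r t := by rw [hr]; exact fun t => f.nonneg_normed t
  have hri : Integrable r volume := by rw [hr]; exact f.integrable_normed
  rw [← hr] at hnu
  have hprob := nu_prob s
  rw [hnu] at hprob ⊢
  rw [pi_dens hr0 hri]
  -- the kernel
  obtain ⟨K, hK⟩ : ∃ K : (κ → ℝ) → ℝ, K = fun t => ∏ i, r (-(t i)) := ⟨_, rfl⟩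
  have hKc : ContDiff ℝ 1 K := by
    rw [hK]
    refine contDiff_prod (fun i _ => ?_)
    have h1 : ContDiff ℝ 1 r := by rw [hr]; exact f.contDiff_normed
    exact h1.comp ((contDiff_apply ℝ ℝ i).neg)
  have hKs : HasCompactSupport K := by
    refine HasCompactSupport.intro (K := Metric.closedBall (0 : κ → ℝ) s)
      (isCompact_closedBall _ _) (fun t ht => ?_)
    rw [Metric.mem_closedBall, dist_zero_right, not_le] at ht
    obtain ⟨i, hi⟩ : ∃ i, s < ‖t i‖ := by
      by_contra hcon
      simp only [not_exists, not_lt] at hcon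
      exact absurd ((pi_norm_le_iff_of_nonneg hs.le).2 hcon) (not_le.2 ht)
    rw [hK]
    refine Finset.prod_eq_zero (Finset.mem_univ i) ?_
    by_contra h1
    have h2 : -(t i) ∈ Function.support (f.normed volume) := by rw [← hr]; exact h1
    rw [ContDiffBump.support_normed_eq] at h2
    have h3 := Metric.mem_ball.1 h2
    rw [Real.dist_eq, sub_zero, abs_neg, hf] at h3
    rw [Real.norm_eq_abs] at hi
    exact absurd h3 (not_lt.2 hi.le)
  have hG' : LocallyIntegrable G (volume : Measure (κ → ℝ)) := hG.locallyIntegrable
  have hmain := HasCompactSupport.contDiff_convolution_left (𝕜 := ℝ) (μ := (volume : Measure (κ → ℝ)))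
    (ContinuousLinearMap.mul ℝ ℝ) hKs hKc hG'
  suffices hfun : (fun a : κ → ℝ => ∫ t, G (a + t)
      ∂((volume : Measure (κ → ℝ)).withDensity fun t => ENNReal.ofReal (∏ i, r (t i)))) =
      convolution K G (ContinuousLinearMap.mul ℝ ℝ) volume by
    rw [hfun]; exact hmain
  funext a
  rw [convolution_def]
  rw [← integral_neg_eq_self _ (volume : Measure (κ → ℝ))]
  rw [integral_withDensity_eq_integral_toReal_smul]
  · refine integral_congr_ae (Eventually.of_forall (fun t => ?_))
    have h0 : 0 ≤ ∏ i, r (t i) := Finset.prod_nonneg (fun i _ => hr0 _)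
    simp only [ContinuousLinearMap.mul_apply', smul_eq_mul, hK, ENNReal.toReal_ofReal h0,
      Pi.neg_apply, neg_neg, sub_neg_eq_add]
  · refine Measurable.ennreal_ofReal ?_
    exact (continuous_finsetProd _ (fun i _ => hrc.comp (continuous_apply i))).measurable
  · exact Eventually.of_forall (fun t => ENNReal.ofReal_lt_top)

end C0G
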