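import Pool.Agent.Lib.MP_85fd23_an.Base

/-!
C0G row LAYER.  A multiplier all of whose level sets {m ≥ t}, t > 0, are good is an N-contraction.

Proof.  For n ≥ 1 let A_j = {γ : j/n ≤ m γ}, j = 1..n, C v = (1/n) Σ_j pr (A_j) v.  At γ:
(C v) γ = (⌊n m γ⌋/n) v γ, so |C v - mul m v| ≤ ‖v‖/n pointwise.  N(C v) ≤ N v.  So
N(mul m v) ≤ N v + b ‖v‖/n for all n.
-/

set_option linter.unusedSectionVars false

namespace C0G

open scoped ZeroAtInfty Topology BigOperators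
open Filter Set

universe u

variable {Γ : Type u} [TopologicalSpace Γ] [DiscreteTopology Γ]

/-- the number of j in 1..n with j/n ≤ t is the floor of n t -/
private theorem layer_card {n : ℕ} (hn : 0 < n) {t : ℝ} (h0 : 0 ≤ t) (h1 : t ≤ 1) :
    (Finset.Icc 1 n).filter (fun j : ℕ => (j : ℝ) / n ≤ t) = Finset.Icc 1 ⌊(n : ℝ) * t⌋₊ := by
  have hn' : (0 : ℝ) < n := Nat.cast_pos.2 hn
  ext j
  rw [Finset.mem_filter, Finset.mem_Icc, Finset.mem_Icc, div_le_iff₀ hn',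
    Nat.le_floor_iff (mul_nonneg hn'.le h0)]
  constructor
  · rintro ⟨⟨a, _⟩, c⟩
    exact ⟨a, by linarith [mul_comm t (n : ℝ)]⟩
  · rintro ⟨a, c⟩
    refine ⟨⟨a, ?_⟩, by linarith [mul_comm t (n : ℝ)]⟩
    have : (j : ℝ) ≤ n := by nlinarith
    exact_mod_cast this

private theorem layer_sum_apply {ι : Type*} (s : Finset ι) (f : ι → C₀(Γ, ℝ)) (γ : Γ) :
    (∑ i ∈ s, f i) γ = ∑ i ∈ s, f i γ := by
  classical
  induction s using Finset.induction_on with
  | empty => simp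
  | insert i s hi ih => rw [Finset.sum_insert hi, Finset.sum_insert hi]; simp [ih]

theorem layer {N : C₀(Γ, ℝ) → ℝ} {a b : ℝ} (hN : EqN N a b) (m : Γ → ℝ)
    (hm : ∀ γ, 0 ≤ m γ ∧ m γ ≤ 1)
    (hgood : ∀ t : ℝ, 0 < t → ∀ v, N (pr {γ | t ≤ m γ} v) ≤ N v) (v : C₀(Γ, ℝ)) :
    N (mul m v) ≤ N v := by
  classical
  have key : ∀ n : ℕ, 0 < n → N (mul m v) ≤ N v + b * (‖v‖ / n) := by
    intro n hn
    have hn' : (0 : ℝ) < n := Nat.cast_pos.2 hn
    set C : C₀(Γ, ℝ) := (1 / (n : ℝ)) •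
      ∑ j ∈ Finset.Icc 1 n, pr {γ | (j : ℝ) / n ≤ m γ} v with hCdef
    have hC : N C ≤ N v := by
      rw [hCdef, hN.smul, abs_of_nonneg (by positivity)]
      have h2 : ∑ j ∈ Finset.Icc 1 n, N (pr {γ | (j : ℝ) / n ≤ m γ} v) ≤
          ∑ j ∈ Finset.Icc 1 n, N v := by
        refine Finset.sum_le_sum ?_
        intro j hj
        have hj1 : (0 : ℝ) < j := Nat.cast_pos.2 (Finset.mem_Icc.1 hj).1
        exact hgood _ (div_pos hj1 hn') v
      rw [Finset.sum_const, Nat.card_Icc, Nat.add_sub_cancel, nsmul_eq_mul] at h2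
      have h3 := (hN.sum_le (Finset.Icc 1 n)
        (fun j : ℕ => pr {γ | (j : ℝ) / n ≤ m γ} v)).trans h2
      calc 1 / (n : ℝ) * N (∑ j ∈ Finset.Icc 1 n, pr {γ | (j : ℝ) / n ≤ m γ} v)
          ≤ 1 / (n : ℝ) * (n * N v) := mul_le_mul_of_nonneg_left h3 (by positivity)
        _ = N v := by field_simp
    have hd : ‖mul m v - C‖ ≤ ‖v‖ / n := by
      rw [norm_le_iff (by positivity)]
      intro γ
      have e1 : C γ = (⌊(n : ℝ) * m γ⌋₊ : ℝ) / n * v γ := by
        have e2 : ∀ j : ℕ, pr {γ | (j : ℝ) / n ≤ m γ} v γ =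
            if (j : ℝ) / n ≤ m γ then v γ else 0 := by
          intro j
          by_cases h : (j : ℝ) / n ≤ m γ
          · rw [if_pos h]
            exact pr_of_mem (A := {γ | (j : ℝ) / n ≤ m γ}) h v
          · rw [if_neg h]
            exact pr_of_notMem (A := {γ | (j : ℝ) / n ≤ m γ}) h v
        rw [hCdef, ZeroAtInftyContinuousMap.coe_smul, Pi.smul_apply, layer_sum_apply,
          Finset.sum_congr rfl (fun j _ => e2 j), ← Finset.sum_filter,
          layer_card hn (hm γ).1 (hm γ).2, Finset.sum_const, Nat.card_Icc, Nat.add_sub_cancel,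
          nsmul_eq_mul, smul_eq_mul]
        ring
      rw [ZeroAtInftyContinuousMap.coe_sub, Pi.sub_apply, mul_apply, cl_eq (hm γ).1 (hm γ).2,
        e1, ← _root_.sub_mul, abs_mul]
      have hf1 : (⌊(n : ℝ) * m γ⌋₊ : ℝ) ≤ n * m γ := Nat.floor_le (mul_nonneg hn'.le (hm γ).1)
      have hf2 : (n : ℝ) * m γ < ⌊(n : ℝ) * m γ⌋₊ + 1 := Nat.lt_floor_add_one _
      have h4 : |m γ - (⌊(n : ℝ) * m γ⌋₊ : ℝ) / n| ≤ 1 / n := by
        have e3 : m γ - (⌊(n : ℝ) * m γ⌋₊ : ℝ) / n =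
            (n * m γ - ⌊(n : ℝ) * m γ⌋₊) / n := by field_simp
        rw [e3, abs_of_nonneg (div_nonneg (by linarith) hn'.le)]
        exact div_le_div_of_nonneg_right (by linarith) hn'.le
      calc |m γ - (⌊(n : ℝ) * m γ⌋₊ : ℝ) / n| * |v γ| ≤ 1 / n * ‖v‖ :=
            mul_le_mul h4 (abs_le_norm v γ) (abs_nonneg _) (by positivity)
        _ = ‖v‖ / n := by ring
    have h5 := hN.add C (mul m v - C)
    rw [add_sub_cancel] at h5
    have h6 := (hN.hi (mul m v - C)).trans (mul_le_mul_of_nonneg_left hd hN.bpos.le)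
    linarith
  have hlim : Tendsto (fun n : ℕ => N v + b * (‖v‖ / n)) atTop (𝓝 (N v + b * 0)) :=
    tendsto_const_nhds.add ((tendsto_const_div_atTop_nhds_zero_nat ‖v‖).const_mul b)
  rw [mul_zero, add_zero] at hlim
  refine ge_of_tendsto hlim ?_
  filter_upwards [eventually_gt_atTop 0] with n hn
  exact key n hn

end C0G
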