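import Pool.Agent.Lib.MP_85fd23_an.Base

/-!
C0G row NEXT.  For every finite G and ρ > 0 there is a finite G' such that every x has a y supported
in G' with the same coordinates on G and N y ≤ (1+ρ) N x.

Proof.  Let ρ' = ρ/(2b).  The set R of restrictions (x γ)_{γ ∈ G} of the x with N x ≤ 1 is bounded
in the finite dimensional space G → ℝ (|x γ| ≤ ‖x‖ ≤ 1/a), hence totally bounded: there are
x_1..x_k with N x_i ≤ 1 such that every x with N x ≤ 1 has some i with |x γ - x_i γ| ≤ ρ' on G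
(Metric.totallyBounded_iff gives centres outside R; use exists_finite_isCover_of_totallyBounded /
TotallyBounded.exists_subset, or finite cover by balls of radius ρ'/2 and pick points of R inside).
Let y_i = pr (G ∪ {γ : |x_i γ| ≥ ρ'}) x_i: finitely supported, equal to x_i on G, ‖x_i - y_i‖ ≤ ρ'.
G' = G ∪ all these supports.  For N x ≤ 1 take y = y_i + pr G (x - x_i): pr G y = pr G x,
N y ≤ N x_i + b ρ' + b ρ' ≤ 1 + ρ.  General x: if N x = 0 then x = 0 (a‖x‖ ≤ N x), y = 0; else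
scale by N x.
-/

set_option linter.unusedSectionVars false

namespace C0G

open scoped ZeroAtInfty Topology BigOperators
open Filter Set

universe u

variable {Γ : Type u} [TopologicalSpace Γ] [DiscreteTopology Γ]

theorem exists_next {N : C₀(Γ, ℝ) → ℝ} {a b : ℝ} (hN : EqN N a b) (G : Finset Γ) {ρ : ℝ}
    (hρ : 0 < ρ) :
    ∃ G' : Finset Γ, G ⊆ G' ∧ ∀ x, ∃ y, Sup (G' : Set Γ) y ∧ pr (G : Set Γ) y = pr (G : Set Γ) x ∧
      N y ≤ (1 + ρ) * N x := by
  classical
  have ha := hN.apos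
  have hb := hN.bpos
  obtain ⟨r, hr⟩ : ∃ r : ℝ, r = ρ / (2 * b) := ⟨_, rfl⟩
  have hrp : 0 < r := by rw [hr]; positivity
  have hbr : b * r = ρ / 2 := by rw [hr]; field_simp
  obtain ⟨res, hres⟩ : ∃ res : C₀(Γ, ℝ) → (G → ℝ), res = fun x g => x g.1 := ⟨_, rfl⟩
  have hR : TotallyBounded (res '' {x | N x ≤ 1}) := by
    refine (isCompact_closedBall (0 : G → ℝ) (1 / a)).totallyBounded.subset ?_
    rintro _ ⟨x, hx, rfl⟩
    have hx' : N x ≤ 1 := hx
    rw [mem_closedBall_zero_iff, pi_norm_le_iff_of_nonneg (by positivity)]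
    intro g
    rw [hres, Real.norm_eq_abs]
    refine (abs_le_norm x g.1).trans ?_
    rw [le_div_iff₀ ha]
    linarith [hN.lo x]
  obtain ⟨t, htR, htf, hcov⟩ := Metric.finite_approx_of_totallyBounded hR r hrp
  have hex : ∀ v, v ∈ t → ∃ x, N x ≤ 1 ∧ res x = v := fun v hv => htR hv
  choose! f hf using hex
  obtain ⟨G', hG'⟩ : ∃ G' : Finset Γ, G' = G ∪ htf.toFinset.biUnion
      (fun v => (finite_ge (f v) hrp).toFinset) := ⟨_, rfl⟩
  have hGG : G ⊆ G' := by rw [hG']; exact Finset.subset_union_left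
  have hsm : ∀ v ∈ t, ∀ γ, γ ∉ G' → |f v γ| < r := by
    intro v hv γ hγ
    by_contra hcon
    push Not at hcon
    apply hγ
    rw [hG']
    refine Finset.mem_union_right _ (Finset.mem_biUnion.2 ⟨v, htf.mem_toFinset.2 hv, ?_⟩)
    rw [Set.Finite.mem_toFinset]
    exact hcon
  -- the normalised case
  have key : ∀ x, N x ≤ 1 → ∃ y, Sup (G' : Set Γ) y ∧ pr (G : Set Γ) y = pr (G : Set Γ) x ∧
      N y ≤ 1 + ρ := by
    intro x hx
    have h1 := hcov ⟨x, hx, rfl⟩
    simp only [Set.mem_iUnion] at h1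
    obtain ⟨v, hv, hd⟩ := h1
    have hfv := hf v hv
    refine ⟨pr (G' : Set Γ) (f v) + pr (G : Set Γ) (x - f v), ?_, ?_, ?_⟩
    · intro γ hγ
      have h2 : γ ∉ (G : Set Γ) := fun h3 => hγ (hGG h3)
      rw [ZeroAtInftyContinuousMap.add_apply, pr_of_notMem hγ, pr_of_notMem h2, add_zero]
    · ext γ
      by_cases hγ : γ ∈ (G : Set Γ)
      · have h2 : γ ∈ (G' : Set Γ) := hGG hγ
        rw [pr_of_mem hγ, pr_of_mem hγ, ZeroAtInftyContinuousMap.add_apply, pr_of_mem h2,
          pr_of_mem hγ, ZeroAtInftyContinuousMap.sub_apply]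
        ring
      · rw [pr_of_notMem hγ, pr_of_notMem hγ]
    · have e1 : pr (G' : Set Γ) (f v) + pr (G : Set Γ) (x - f v) =
          f v + ((pr (G' : Set Γ) (f v) - f v) + pr (G : Set Γ) (x - f v)) := by abel
      have h3 : ‖pr (G' : Set Γ) (f v) - f v‖ ≤ r := by
        rw [norm_le_iff hrp.le]
        intro γ
        rw [ZeroAtInftyContinuousMap.sub_apply]
        by_cases hγ : γ ∈ (G' : Set Γ)
        · rw [pr_of_mem hγ, sub_self, abs_zero]; exact hrp.le
        · rw [pr_of_notMem hγ, zero_sub, abs_neg]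
          exact (hsm v hv γ hγ).le
      have h4 : ‖pr (G : Set Γ) (x - f v)‖ ≤ r := by
        rw [norm_le_iff hrp.le]
        intro γ
        by_cases hγ : γ ∈ (G : Set Γ)
        · rw [pr_of_mem hγ, ZeroAtInftyContinuousMap.sub_apply]
          have h5 : dist (res x) v < r := hd
          have h6 := (dist_pi_lt_iff hrp).1 h5 ⟨γ, hγ⟩
          rw [← hfv.2, hres, Real.dist_eq] at h6
          exact h6.le
        · rw [pr_of_notMem hγ, abs_zero]; exact hrp.le
      rw [e1]
      have h7 := hN.add (f v) ((pr (G' : Set Γ) (f v) - f v) + pr (G : Set Γ) (x - f v))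
      have h8 := hN.add (pr (G' : Set Γ) (f v) - f v) (pr (G : Set Γ) (x - f v))
      have h9 := hN.hi (pr (G' : Set Γ) (f v) - f v)
      have h10 := hN.hi (pr (G : Set Γ) (x - f v))
      have h11 : b * ‖pr (G' : Set Γ) (f v) - f v‖ ≤ b * r := by gcongr
      have h12 : b * ‖pr (G : Set Γ) (x - f v)‖ ≤ b * r := by gcongr
      linarith [hfv.1]
  refine ⟨G', hGG, fun x => ?_⟩
  rcases (hN.nonneg x).eq_or_lt with h0 | h0
  · have h1 : ‖x‖ ≤ 0 := by
      have := hN.lo x
      rw [← h0] at this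
      by_contra hcon
      push Not at hcon
      have := mul_pos ha hcon
      linarith
    have h2 : x = 0 := norm_le_zero_iff.1 h1
    refine ⟨0, fun γ _ => rfl, by rw [h2], ?_⟩
    rw [hN.zero, ← h0, mul_zero]
  · obtain ⟨y, hy1, hy2, hy3⟩ := key ((N x)⁻¹ • x) (by
      rw [hN.smul, abs_of_pos (inv_pos.2 h0), inv_mul_cancel₀ h0.ne'])
    refine ⟨N x • y, ?_, ?_, ?_⟩
    · intro γ hγ
      rw [ZeroAtInftyContinuousMap.smul_apply, hy1 γ hγ, smul_zero]
    · have e1 : pr (G : Set Γ) (N x • y) = N x • pr (G : Set Γ) y := mul_smul' _ _ _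
      have e2 : pr (G : Set Γ) ((N x)⁻¹ • x) = (N x)⁻¹ • pr (G : Set Γ) x := mul_smul' _ _ _
      rw [e1, hy2, e2, smul_smul, mul_inv_cancel₀ h0.ne', one_smul]
    · rw [hN.smul, abs_of_pos h0, mul_comm]
      gcongr

theorem exists_nx {N : C₀(Γ, ℝ) → ℝ} {a b : ℝ} (hN : EqN N a b) :
    ∃ nx : Finset Γ → ℕ → Finset Γ, NX N nx := by
  choose f hf using fun (G : Finset Γ) (n : ℕ) =>
    exists_next hN G (ρ := 1 / ((n : ℝ) + 1)) (by positivity)
  exact ⟨f, fun G n => (hf G n).1, fun G n x => (hf G n).2 x⟩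

end C0G
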