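import Pool.Agent.Lib.MP_85fd23_an.Base

/-!
C0G row MULC1.  The map x ↦ (m γ x * x γ)_γ from c_0(Γ) to itself is C^1 if the multipliers are C^1,
with values in [0,1] and equi-Lipschitz.

Proof.  Candidate derivative at x: T'(x) v = (m γ x * v γ + (fderiv (m γ) x v) * x γ)_γ, a bounded
linear map of C₀(Γ, ℝ) (norm ≤ 1 + |C| ‖x‖; the γ-th entry tends to 0 along cofinite as
|fderiv (m γ) x v| ≤ C ‖v‖, norm_fderiv_le_of_lip).  HasFDerivAt: the γ-entry of
T(x+v) - T x - T'(x) v is (m γ (x+v) - m γ x) v γ + (m γ (x+v) - m γ x - fderiv (m γ) x v) x γ; the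
first is ≤ C ‖v‖^2; the second is ≤ 2 C ‖v‖ |x γ| ≤ ε ‖v‖ for all γ but a finite set, and o(‖v‖) for each of
these finitely many γ.  Continuity of T': entries of T'(x) v - T'(y) v:
(m γ x - m γ y) v γ, and (fderiv (m γ) x v)(x γ) - (fderiv (m γ) y v)(y γ), bounded by
C ‖v‖ |x γ - y γ| + ‖fderiv (m γ) x - fderiv (m γ) y‖ ‖v‖ |x γ|: small for |x γ| small, and for the finitely
many other γ by continuity of the derivative.  contDiff_one_iff_fderiv.
(Use norm_le_iff; an alternative is contDiff_one_iff_hasFDerivAt-type lemmas of your choice.)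
-/

set_option linter.unusedSectionVars false

namespace C0G

open scoped ZeroAtInfty Topology BigOperators
open Filter Set

universe u

variable {Γ : Type u} [TopologicalSpace Γ] [DiscreteTopology Γ]

private theorem MulC1_d_le {f : C₀(Γ, ℝ) → ℝ} {C : ℝ} (hC : 0 ≤ C)
    (h : ∀ x y, |f x - f y| ≤ C * ‖x - y‖) (x : C₀(Γ, ℝ)) : ‖fderiv ℝ f x‖ ≤ C := by
  have h1 : LipschitzWith (Real.toNNReal C) f := by
    refine LipschitzWith.of_dist_le_mul ?_
    intro x y
    rw [Real.dist_eq, dist_eq_norm, Real.coe_toNNReal _ hC]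
    exact h x y
  have := norm_fderiv_le_of_lipschitz ℝ (x₀ := x) h1
  rwa [Real.coe_toNNReal _ hC] at this

private theorem MulC1_tends {C : ℝ} (hC : 0 ≤ C) (a b : Γ → ℝ) (ha : ∀ γ, |a γ| ≤ 1)
    (hb : ∀ γ, |b γ| ≤ C) (x v : C₀(Γ, ℝ)) :
    Tendsto (fun γ => a γ * v γ + b γ * x γ) cofinite (𝓝 0) := by
  refine squeeze_zero_norm (a := fun γ => ‖v γ‖ + C * ‖x γ‖) ?_ ?_
  · intro γ
    refine (norm_add_le _ _).trans (add_le_add ?_ ?_)
    · rw [norm_mul, Real.norm_eq_abs (a γ)]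
      exact mul_le_of_le_one_left (norm_nonneg _) (ha γ)
    · rw [norm_mul, Real.norm_eq_abs (b γ)]
      exact mul_le_mul_of_nonneg_right (hb γ) (norm_nonneg _)
  · have h1 := tendsto_zero_iff_norm_tendsto_zero.1 (tendsto_cofinite v)
    have h2 := (tendsto_zero_iff_norm_tendsto_zero.1 (tendsto_cofinite x)).const_mul C
    have := h1.add h2
    simpa using this

/-- the derivative -/
private noncomputable def MulC1_T {C : ℝ} (hC : 0 ≤ C) (a : Γ → ℝ) (D : Γ → C₀(Γ, ℝ) →L[ℝ] ℝ)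
    (ha : ∀ γ, |a γ| ≤ 1) (hD : ∀ γ, ‖D γ‖ ≤ C) (x : C₀(Γ, ℝ)) : C₀(Γ, ℝ) →L[ℝ] C₀(Γ, ℝ) :=
  LinearMap.mkContinuous
    { toFun := fun v => mk0 (fun γ => a γ * v γ + D γ v * x γ)
        (MulC1_tends (C := C * ‖v‖) (mul_nonneg hC (norm_nonneg v)) a (fun γ => D γ v) ha
          (fun γ => by
            rw [← Real.norm_eq_abs]
            exact (D γ).le_of_opNorm_le (hD γ) v) x v)
      map_add' := fun v w => by
        ext γ
        simp only [mk0_apply, ZeroAtInftyContinuousMap.coe_add, Pi.add_apply, map_add]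
        ring
      map_smul' := fun r v => by
        ext γ
        simp only [mk0_apply, ZeroAtInftyContinuousMap.coe_smul, Pi.smul_apply, map_smul,
          smul_eq_mul, RingHom.id_apply]
        ring }
    (1 + C * ‖x‖) (fun v => by
      rw [norm_le_iff (by positivity)]
      intro γ
      change |a γ * v γ + D γ v * x γ| ≤ _
      have h1 : |a γ * v γ| ≤ ‖v‖ := by
        rw [abs_mul]
        exact (mul_le_of_le_one_left (abs_nonneg _) (ha γ)).trans (abs_le_norm v γ)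
      have h2 : |D γ v * x γ| ≤ C * ‖v‖ * ‖x‖ := by
        rw [abs_mul]
        refine mul_le_mul ?_ (abs_le_norm x γ) (abs_nonneg _) (by positivity)
        rw [← Real.norm_eq_abs]
        exact (D γ).le_of_opNorm_le (hD γ) v
      have h3 := abs_add_le (a γ * v γ) (D γ v * x γ)
      calc |a γ * v γ + D γ v * x γ| ≤ ‖v‖ + C * ‖v‖ * ‖x‖ := by linarith
        _ = (1 + C * ‖x‖) * ‖v‖ := by ring)

private theorem MulC1_T_apply {C : ℝ} (hC : 0 ≤ C) (a : Γ → ℝ) (D : Γ → C₀(Γ, ℝ) →L[ℝ] ℝ)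
    (ha : ∀ γ, |a γ| ≤ 1) (hD : ∀ γ, ‖D γ‖ ≤ C) (x v : C₀(Γ, ℝ)) (γ : Γ) :
    MulC1_T hC a D ha hD x v γ = a γ * v γ + D γ v * x γ := rfl

theorem mul_C1 (m : Γ → C₀(Γ, ℝ) → ℝ) {C : ℝ} (hC : 0 ≤ C) (h1 : ∀ γ, ContDiff ℝ 1 (m γ))
    (h2 : ∀ γ x, 0 ≤ m γ x ∧ m γ x ≤ 1) (h3 : ∀ γ x y, |m γ x - m γ y| ≤ C * ‖x - y‖) :
    ContDiff ℝ 1 (fun x : C₀(Γ, ℝ) => mul (fun γ => m γ x) x) := by
  have ha : ∀ x γ, |m γ x| ≤ 1 := fun x γ => by
    rw [abs_of_nonneg (h2 γ x).1]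
    exact (h2 γ x).2
  have hD : ∀ x γ, ‖fderiv ℝ (m γ) x‖ ≤ C := fun x γ => MulC1_d_le hC (h3 γ) x
  have hmul : ∀ x γ, mul (fun γ => m γ x) x γ = m γ x * x γ := fun x γ => by
    rw [mul_apply, cl_eq (h2 γ x).1 (h2 γ x).2]
  have hfin : ∀ (x : C₀(Γ, ℝ)) {η : ℝ}, 0 < η → {γ | η ≤ |x γ|}.Finite := fun x _ h =>
    finite_ge x h
  have key : ∀ x : C₀(Γ, ℝ), HasFDerivAt (fun x : C₀(Γ, ℝ) => mul (fun γ => m γ x) x)
      (MulC1_T hC (fun γ => m γ x) (fun γ => fderiv ℝ (m γ) x) (ha x) (hD x) x) x := by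
    intro x
    rw [hasFDerivAt_iff_isLittleO_nhds_zero, Asymptotics.isLittleO_iff]
    intro ε hε
    have hη : 0 < ε / (4 * (C + 1)) := by positivity
    have e1 : ∀ᶠ v : C₀(Γ, ℝ) in 𝓝 0, ∀ γ ∈ {γ | ε / (4 * (C + 1)) ≤ |x γ|},
        ‖m γ (x + v) - m γ x - fderiv ℝ (m γ) x v‖ ≤ ε / (2 * (‖x‖ + 1)) * ‖v‖ := by
      rw [Set.Finite.eventually_all (hfin x hη)]
      intro γ _
      have h4 := ((h1 γ).differentiable one_ne_zero x).hasFDerivAt
      rw [hasFDerivAt_iff_isLittleO_nhds_zero, Asymptotics.isLittleO_iff] at h4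
      exact h4 (by positivity)
    have e2 : ∀ᶠ v : C₀(Γ, ℝ) in 𝓝 0, ‖v‖ < ε / (2 * (C + 1)) := by
      have := Metric.ball_mem_nhds (0 : C₀(Γ, ℝ)) (ε := ε / (2 * (C + 1))) (by positivity)
      filter_upwards [this] with v hv
      simpa using hv
    filter_upwards [e1, e2] with v hv1 hv2
    rw [norm_le_iff (by positivity)]
    intro γ
    have e3 : (mul (fun γ => m γ (x + v)) (x + v) - mul (fun γ => m γ x) x -
        MulC1_T hC (fun γ => m γ x) (fun γ => fderiv ℝ (m γ) x) (ha x) (hD x) x v) γ =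
        (m γ (x + v) - m γ x) * v γ + (m γ (x + v) - m γ x - fderiv ℝ (m γ) x v) * x γ := by
      rw [ZeroAtInftyContinuousMap.sub_apply, ZeroAtInftyContinuousMap.sub_apply, hmul, hmul,
        MulC1_T_apply, ZeroAtInftyContinuousMap.add_apply]
      ring
    rw [e3]
    have hvn := norm_nonneg v
    have b0 : |m γ (x + v) - m γ x| ≤ C * ‖v‖ := by
      have := h3 γ (x + v) x
      rwa [add_sub_cancel_left] at this
    have b1 : |(m γ (x + v) - m γ x) * v γ| ≤ ε / 2 * ‖v‖ := by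
      rw [abs_mul]
      have h5 : |m γ (x + v) - m γ x| * |v γ| ≤ (C * ‖v‖) * ‖v‖ :=
        mul_le_mul b0 (abs_le_norm v γ) (abs_nonneg _) (by positivity)
      refine h5.trans (mul_le_mul_of_nonneg_right ?_ hvn)
      calc C * ‖v‖ ≤ (C + 1) * (ε / (2 * (C + 1))) :=
            mul_le_mul (by linarith) hv2.le hvn (by positivity)
        _ = ε / 2 := by field_simp
    have b2 : |(m γ (x + v) - m γ x - fderiv ℝ (m γ) x v) * x γ| ≤ ε / 2 * ‖v‖ := by
      rw [abs_mul]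
      by_cases hγ : ε / (4 * (C + 1)) ≤ |x γ|
      · have h5 := hv1 γ hγ
        rw [Real.norm_eq_abs] at h5
        have h6 : |m γ (x + v) - m γ x - fderiv ℝ (m γ) x v| * |x γ| ≤
            (ε / (2 * (‖x‖ + 1)) * ‖v‖) * (‖x‖ + 1) :=
          mul_le_mul h5 ((abs_le_norm x γ).trans (by linarith)) (abs_nonneg _) (by positivity)
        refine h6.trans (le_of_eq ?_)
        have : ‖x‖ + 1 ≠ 0 := by positivity
        field_simp
      · have h5 : |fderiv ℝ (m γ) x v| ≤ C * ‖v‖ := by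
          rw [← Real.norm_eq_abs]
          exact (fderiv ℝ (m γ) x).le_of_opNorm_le (hD x γ) v
        have h6 : |m γ (x + v) - m γ x - fderiv ℝ (m γ) x v| ≤ 2 * (C + 1) * ‖v‖ := by
          have := abs_sub (m γ (x + v) - m γ x) (fderiv ℝ (m γ) x v)
          nlinarith
        have h7 : |m γ (x + v) - m γ x - fderiv ℝ (m γ) x v| * |x γ| ≤
            (2 * (C + 1) * ‖v‖) * (ε / (4 * (C + 1))) :=
          mul_le_mul h6 (not_le.1 hγ).le (abs_nonneg _) (by positivity)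
        refine h7.trans (le_of_eq ?_)
        have : C + 1 ≠ 0 := by positivity
        field_simp
        ring
    have := abs_add_le ((m γ (x + v) - m γ x) * v γ)
      ((m γ (x + v) - m γ x - fderiv ℝ (m γ) x v) * x γ)
    linarith
  rw [contDiff_one_iff_fderiv]
  refine ⟨fun x => (key x).differentiableAt, ?_⟩
  have hfd : fderiv ℝ (fun x : C₀(Γ, ℝ) => mul (fun γ => m γ x) x) = fun x =>
      MulC1_T hC (fun γ => m γ x) (fun γ => fderiv ℝ (m γ) x) (ha x) (hD x) x := by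
    ext1 x
    exact (key x).fderiv
  rw [hfd, continuous_iff_continuousAt]
  intro x
  rw [ContinuousAt, Metric.tendsto_nhds]
  intro ε hε
  have hη : 0 < ε / (8 * (C + 1)) := by positivity
  have e1 : ∀ᶠ y : C₀(Γ, ℝ) in 𝓝 x, ∀ γ ∈ {γ | ε / (8 * (C + 1)) ≤ |x γ|},
      ‖fderiv ℝ (m γ) y - fderiv ℝ (m γ) x‖ < ε / (4 * (‖x‖ + 1)) := by
    rw [Set.Finite.eventually_all (hfin x hη)]
    intro γ _
    have h4 := ((contDiff_one_iff_fderiv.1 (h1 γ)).2.tendsto x)
    rw [Metric.tendsto_nhds] at h4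
    filter_upwards [h4 (ε / (4 * (‖x‖ + 1))) (by positivity)] with y hy
    rwa [dist_eq_norm] at hy
  have e2 : ∀ᶠ y : C₀(Γ, ℝ) in 𝓝 x, ‖y - x‖ < ε / (8 * (C + 1)) := by
    filter_upwards [Metric.ball_mem_nhds x hη] with y hy
    rwa [Metric.mem_ball, dist_eq_norm] at hy
  filter_upwards [e1, e2] with y hy1 hy2
  rw [dist_eq_norm]
  refine lt_of_le_of_lt (ContinuousLinearMap.opNorm_le_bound _ (by positivity : 0 ≤ ε / 2) ?_)
    (by linarith)
  intro v
  rw [norm_le_iff (by positivity)]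
  intro γ
  have hvn := norm_nonneg v
  have e3 : ((MulC1_T hC (fun γ => m γ y) (fun γ => fderiv ℝ (m γ) y) (ha y) (hD y) y -
      MulC1_T hC (fun γ => m γ x) (fun γ => fderiv ℝ (m γ) x) (ha x) (hD x) x) v) γ =
      (m γ y - m γ x) * v γ + fderiv ℝ (m γ) y v * (y γ - x γ) +
      (fderiv ℝ (m γ) y - fderiv ℝ (m γ) x) v * x γ := by
    rw [ContinuousLinearMap.sub_apply, ZeroAtInftyContinuousMap.sub_apply, MulC1_T_apply,
      MulC1_T_apply, ContinuousLinearMap.sub_apply]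
    ring
  rw [e3]
  have b1 : |(m γ y - m γ x) * v γ| ≤ ε / 8 * ‖v‖ := by
    rw [abs_mul]
    have h5 : |m γ y - m γ x| * |v γ| ≤ (C * ‖y - x‖) * ‖v‖ :=
      mul_le_mul (h3 γ y x) (abs_le_norm v γ) (abs_nonneg _) (by positivity)
    refine h5.trans (mul_le_mul_of_nonneg_right ?_ hvn)
    calc C * ‖y - x‖ ≤ (C + 1) * (ε / (8 * (C + 1))) :=
          mul_le_mul (by linarith) hy2.le (norm_nonneg _) (by positivity)
      _ = ε / 8 := by field_simp
  have b2 : |fderiv ℝ (m γ) y v * (y γ - x γ)| ≤ ε / 8 * ‖v‖ := by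
    rw [abs_mul]
    have h5 : |fderiv ℝ (m γ) y v| ≤ (C + 1) * ‖v‖ := by
      rw [← Real.norm_eq_abs]
      refine ((fderiv ℝ (m γ) y).le_of_opNorm_le (hD y γ) v).trans ?_
      exact mul_le_mul_of_nonneg_right (by linarith) hvn
    have h6 : |y γ - x γ| ≤ ε / (8 * (C + 1)) := by
      have := abs_le_norm (y - x) γ
      rw [ZeroAtInftyContinuousMap.sub_apply] at this
      exact this.trans hy2.le
    have h7 : |fderiv ℝ (m γ) y v| * |y γ - x γ| ≤ ((C + 1) * ‖v‖) * (ε / (8 * (C + 1))) :=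
      mul_le_mul h5 h6 (abs_nonneg _) (by positivity)
    refine h7.trans (le_of_eq ?_)
    have : C + 1 ≠ 0 := by positivity
    field_simp
  have b3 : |(fderiv ℝ (m γ) y - fderiv ℝ (m γ) x) v * x γ| ≤ ε / 4 * ‖v‖ := by
    rw [abs_mul]
    have h5 : |(fderiv ℝ (m γ) y - fderiv ℝ (m γ) x) v| ≤
        ‖fderiv ℝ (m γ) y - fderiv ℝ (m γ) x‖ * ‖v‖ := by
      rw [← Real.norm_eq_abs]
      exact ContinuousLinearMap.le_opNorm _ _
    by_cases hγ : ε / (8 * (C + 1)) ≤ |x γ|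
    · have h6 := (hy1 γ hγ).le
      have h7 : |(fderiv ℝ (m γ) y - fderiv ℝ (m γ) x) v| * |x γ| ≤
          (ε / (4 * (‖x‖ + 1)) * ‖v‖) * (‖x‖ + 1) :=
        mul_le_mul (h5.trans (mul_le_mul_of_nonneg_right h6 hvn))
          ((abs_le_norm x γ).trans (by linarith)) (abs_nonneg _) (by positivity)
      refine h7.trans (le_of_eq ?_)
      have : ‖x‖ + 1 ≠ 0 := by positivity
      field_simp
    · have h6 : ‖fderiv ℝ (m γ) y - fderiv ℝ (m γ) x‖ ≤ 2 * (C + 1) := by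
        have := norm_sub_le (fderiv ℝ (m γ) y) (fderiv ℝ (m γ) x)
        have h8 := hD y γ
        have h9 := hD x γ
        linarith
      have h7 : |(fderiv ℝ (m γ) y - fderiv ℝ (m γ) x) v| * |x γ| ≤
          (2 * (C + 1) * ‖v‖) * (ε / (8 * (C + 1))) :=
        mul_le_mul (h5.trans (mul_le_mul_of_nonneg_right h6 hvn)) (not_le.1 hγ).le
          (abs_nonneg _) (by positivity)
      refine h7.trans (le_of_eq ?_)
      have : C + 1 ≠ 0 := by positivity
      field_simp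
      ring
  have t1 := abs_add_le ((m γ y - m γ x) * v γ + fderiv ℝ (m γ) y v * (y γ - x γ))
    ((fderiv ℝ (m γ) y - fderiv ℝ (m γ) x) v * x γ)
  have t2 := abs_add_le ((m γ y - m γ x) * v γ) (fderiv ℝ (m γ) y v * (y γ - x γ))
  linarith

end C0G
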