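import Pool.Agent.Lib.MP_85fd23_an.Base

/-!
C0G row TLIP.  N-Lipschitz constant of the nonlinear multiplier map x ↦ mul (m x) x, from the linear
bound of the multipliers and a local bound of the variation of the multipliers.

Proof.  If ‖x-y‖ ≤ r: mul (m x) x - mul (m y) y = mul (m x) (x - y) + z with
z γ = (cl (m x γ) - cl (m y γ)) y γ, ‖z‖ ≤ e ‖x-y‖ ≤ (e/a) N(x-y), N z ≤ b ‖z‖.  (z is a difference
of elements of C₀.)  General x, y: divide the segment into n equal pieces of sup length ≤ r, add up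
(EqN.tri or EqN.sum_le with a telescoping sum; N is homogeneous).
-/

set_option linter.unusedSectionVars false

namespace C0G

open scoped ZeroAtInfty Topology BigOperators
open Filter Set

universe u

variable {Γ : Type u} [TopologicalSpace Γ] [DiscreteTopology Γ]

theorem TLip_local {N : C₀(Γ, ℝ) → ℝ} {a b : ℝ} (hN : EqN N a b) (m : C₀(Γ, ℝ) → Γ → ℝ)
    {c e r : ℝ} (he : 0 ≤ e) (hlin : ∀ x v, N (mul (m x) v) ≤ c * N v)
    (hm : ∀ x y, ‖x - y‖ ≤ r → ∀ γ, |cl (m x γ) - cl (m y γ)| * |y γ| ≤ e * ‖x - y‖)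
    (x y : C₀(Γ, ℝ)) (hxy : ‖x - y‖ ≤ r) :
    N (mul (m x) x - mul (m y) y) ≤ (c + b / a * e) * N (x - y) := by
  have e1 : mul (m x) x - mul (m y) y = mul (m x) (x - y) + (mul (m x) y - mul (m y) y) := by
    rw [mul_sub]
    abel
  have h1 : ‖mul (m x) y - mul (m y) y‖ ≤ e * ‖x - y‖ := by
    rw [norm_le_iff (mul_nonneg he (norm_nonneg _))]
    intro γ
    have e2 : (mul (m x) y - mul (m y) y) γ = (cl (m x γ) - cl (m y γ)) * y γ := by
      rw [ZeroAtInftyContinuousMap.sub_apply, mul_apply, mul_apply]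
      ring
    rw [e2, abs_mul]
    exact hm x y hxy γ
  have h2 : ‖x - y‖ ≤ N (x - y) / a := by
    rw [le_div_iff₀ hN.apos]
    have := hN.lo (x - y)
    linarith
  have h3 : N (mul (m x) y - mul (m y) y) ≤ b / a * e * N (x - y) := by
    calc N (mul (m x) y - mul (m y) y) ≤ b * ‖mul (m x) y - mul (m y) y‖ := hN.hi _
      _ ≤ b * (e * ‖x - y‖) := mul_le_mul_of_nonneg_left h1 hN.bpos.le
      _ ≤ b * (e * (N (x - y) / a)) :=
          mul_le_mul_of_nonneg_left (mul_le_mul_of_nonneg_left h2 he) hN.bpos.le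
      _ = b / a * e * N (x - y) := by ring
  rw [e1]
  refine (hN.add _ _).trans ?_
  have h4 := hlin x (x - y)
  linarith

theorem T_lip {N : C₀(Γ, ℝ) → ℝ} {a b : ℝ} (hN : EqN N a b) (m : C₀(Γ, ℝ) → Γ → ℝ) {c e r : ℝ}
    (hc : 0 ≤ c) (he : 0 ≤ e) (hr : 0 < r) (hlin : ∀ x v, N (mul (m x) v) ≤ c * N v)
    (hm : ∀ x y, ‖x - y‖ ≤ r → ∀ γ, |cl (m x γ) - cl (m y γ)| * |y γ| ≤ e * ‖x - y‖)
    (x y : C₀(Γ, ℝ)) : N (mul (m x) x - mul (m y) y) ≤ (c + b / a * e) * N (x - y) := by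
  obtain ⟨n, hn⟩ := exists_nat_gt (‖x - y‖ / r)
  have hn0 : (0 : ℝ) < n := lt_of_le_of_lt (div_nonneg (norm_nonneg _) hr.le) hn
  have hnr : ‖x - y‖ / n ≤ r := by
    rw [div_le_iff₀ hn0]
    rw [div_lt_iff₀ hr] at hn
    linarith
  have hL : 0 ≤ c + b / a * e := by
    have := mul_nonneg (div_nonneg hN.bpos.le hN.apos.le) he
    linarith
  obtain ⟨p, hp⟩ : ∃ p : ℕ → C₀(Γ, ℝ), p = fun k : ℕ => x + ((k : ℝ) / n) • (y - x) := ⟨_, rfl⟩
  have hstep : ∀ k, p k - p (k + 1) = ((1 : ℝ) / n) • (x - y) := by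
    intro k
    rw [hp]
    ext γ
    simp only [Nat.cast_add, Nat.cast_one, ZeroAtInftyContinuousMap.sub_apply,
      ZeroAtInftyContinuousMap.add_apply, ZeroAtInftyContinuousMap.smul_apply, smul_eq_mul]
    ring
  have hsn : ∀ k, ‖p k - p (k + 1)‖ ≤ r := by
    intro k
    rw [hstep, norm_smul, Real.norm_eq_abs, abs_of_pos (by positivity)]
    have e1 : 1 / (n : ℝ) * ‖x - y‖ = ‖x - y‖ / n := by ring
    rw [e1]
    exact hnr
  have hsN : ∀ k, N (p k - p (k + 1)) = 1 / n * N (x - y) := by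
    intro k
    rw [hstep, hN.smul, abs_of_pos (by positivity)]
  have hind : ∀ k : ℕ, N (mul (m x) x - mul (m (p k)) (p k)) ≤
      (c + b / a * e) * ((k : ℝ) / n * N (x - y)) := by
    intro k
    induction k with
    | zero =>
      have e1 : p 0 = x := by
        rw [hp]
        simp
      rw [e1, sub_self, hN.zero]
      simp
    | succ k ih =>
      have h1 := TLip_local hN m he hlin hm (p k) (p (k + 1)) (hsn k)
      rw [hsN] at h1
      have h2 := hN.tri (mul (m x) x) (mul (m (p k)) (p k)) (mul (m (p (k + 1))) (p (k + 1)))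
      have e2 : (c + b / a * e) * (((k + 1 : ℕ) : ℝ) / n * N (x - y)) =
          (c + b / a * e) * ((k : ℝ) / n * N (x - y)) +
            (c + b / a * e) * (1 / n * N (x - y)) := by
        push_cast
        ring
      rw [e2]
      linarith
  have hpn : p n = y := by
    rw [hp]
    simp only
    rw [div_self hn0.ne', one_smul, add_sub_cancel]
  have h1 := hind n
  rw [hpn, div_self hn0.ne', one_mul] at h1
  exact h1

end C0G
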