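import Pool.Agent.Lib.MP_85fd23_an.Base

/-!
C0G row THETA.  The slow cutoff th κ η t = clamp (κ log (t/η)).  Real analysis only.

th_mul: if both s, t ≤ η the difference is 0.  Else max > η, min ≥ 3η/4 > 0, |y| ≤ t + η/4 ≤ (4/3) t,
|th s - th t| ≤ κ |log s - log t| ≤ κ |s-t|/min(s,t) (Real.log_le_sub_one_of_pos), t/min ≤ 4/3; 16/9 ≤ 2.
-/

set_option linter.unusedSectionVars false

namespace C0G

open Set

noncomputable def th (κ η t : ℝ) : ℝ := cl (κ * Real.log (t / η))

theorem th_nonneg (κ η t : ℝ) : 0 ≤ th κ η t := cl_nonneg _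

theorem th_le_one (κ η t : ℝ) : th κ η t ≤ 1 := cl_le_one _

theorem th_zero {κ η t : ℝ} (hκ : 0 < κ) (hη : 0 < η) (ht0 : 0 ≤ t) (ht : t ≤ η) : th κ η t = 0 := by
  refine cl_of_le_zero (mul_nonpos_of_nonneg_of_nonpos hκ.le ?_)
  exact Real.log_nonpos (div_nonneg ht0 hη.le) ((div_le_one hη).2 ht)

theorem th_one {κ η t : ℝ} (hκ : 0 < κ) (hη : 0 < η) (ht : η * Real.exp (1 / κ) ≤ t) :
    th κ η t = 1 := by
  refine cl_of_one_le ?_
  have h1 : Real.exp (1 / κ) ≤ t / η := by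
    rw [le_div_iff₀ hη, mul_comm]; exact ht
  have h2 : 1 / κ ≤ Real.log (t / η) :=
    (Real.le_log_iff_exp_le ((Real.exp_pos _).trans_le h1)).2 h1
  calc (1 : ℝ) = κ * (1 / κ) := by field_simp
    _ ≤ κ * Real.log (t / η) := mul_le_mul_of_nonneg_left h2 hκ.le

/-- above η only the maximum with η matters -/
private theorem theta_max {κ η t : ℝ} (hκ : 0 < κ) (hη : 0 < η) (ht : 0 ≤ t) :
    th κ η t = th κ η (max t η) := by
  rcases le_total t η with h | h
  · rw [max_eq_right h, th_zero hκ hη ht h, th_zero hκ hη hη.le le_rfl]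
  · rw [max_eq_left h]

private theorem theta_log {κ η s t : ℝ} (hκ : 0 < κ) (hη : 0 < η) (hs : 0 < s) (hst : s ≤ t) :
    th κ η t - th κ η s ≤ κ * (Real.log t - Real.log s) := by
  have ht : 0 < t := hs.trans_le hst
  have h1 : κ * Real.log (s / η) ≤ κ * Real.log (t / η) :=
    mul_le_mul_of_nonneg_left (Real.log_le_log (div_pos hs hη)
      (div_le_div_of_nonneg_right hst hη.le)) hκ.le
  have h2 := cl_sub_le h1
  rw [Real.log_div ht.ne' hη.ne', Real.log_div hs.ne' hη.ne'] at h2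
  unfold th
  rw [Real.log_div ht.ne' hη.ne', Real.log_div hs.ne' hη.ne']
  linarith

private theorem theta_key {κ η s t : ℝ} (hκ : 0 < κ) (hη : 0 < η) (hs : 0 ≤ s) (hst : s ≤ t) :
    th κ η t - th κ η s ≤ κ * ((t - s) / max s η) := by
  have ht : 0 ≤ t := hs.trans hst
  have hm : 0 < max s η := lt_max_of_lt_right hη
  rw [theta_max hκ hη hs, theta_max hκ hη ht]
  have hmm : max s η ≤ max t η := max_le_max hst le_rfl
  refine (theta_log hκ hη hm hmm).trans (mul_le_mul_of_nonneg_left ?_ hκ.le)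
  have hM : 0 < max t η := lt_max_of_lt_right hη
  rw [← Real.log_div hM.ne' hm.ne']
  refine (Real.log_le_sub_one_of_pos (div_pos hM hm)).trans ?_
  rw [div_sub_one hm.ne']
  refine div_le_div_of_nonneg_right ?_ hm.le
  rcases max_cases t η with ⟨e1, e2⟩ | ⟨e1, e2⟩ <;> rcases max_cases s η with ⟨e3, e4⟩ | ⟨e3, e4⟩ <;>
    rw [e1, e3] <;> linarith

theorem th_mono {κ η s t : ℝ} (hκ : 0 < κ) (hη : 0 < η) (hs : 0 ≤ s) (hst : s ≤ t) :
    th κ η s ≤ th κ η t := by
  rcases hs.eq_or_lt with h | h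
  · rw [← h, th_zero hκ hη le_rfl hη.le]
    exact th_nonneg _ _ _
  · exact cl_mono (mul_le_mul_of_nonneg_left (Real.log_le_log (div_pos h hη)
      (div_le_div_of_nonneg_right hst hη.le)) hκ.le)

private theorem theta_abs {κ η s t : ℝ} (hκ : 0 < κ) (hη : 0 < η) (hs : 0 ≤ s) (ht : 0 ≤ t) :
    |th κ η s - th κ η t| ≤ κ * (|s - t| / max (min s t) η) := by
  rcases le_total s t with h | h
  · rw [abs_sub_comm, abs_of_nonneg (sub_nonneg.2 (th_mono hκ hη hs h)), min_eq_left h,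
      abs_sub_comm, abs_of_nonneg (sub_nonneg.2 h)]
    exact theta_key hκ hη hs h
  · rw [abs_of_nonneg (sub_nonneg.2 (th_mono hκ hη ht h)), min_eq_right h,
      abs_of_nonneg (sub_nonneg.2 h)]
    exact theta_key hκ hη ht h

theorem th_lip {κ η s t : ℝ} (hκ : 0 < κ) (hη : 0 < η) (hs : 0 ≤ s) (ht : 0 ≤ t) :
    |th κ η s - th κ η t| ≤ κ / η * |s - t| := by
  refine (theta_abs hκ hη hs ht).trans ?_
  have h1 : |s - t| / max (min s t) η ≤ |s - t| / η :=
    div_le_div_of_nonneg_left (abs_nonneg _) hη (le_max_right _ _)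
  calc κ * (|s - t| / max (min s t) η) ≤ κ * (|s - t| / η) := mul_le_mul_of_nonneg_left h1 hκ.le
    _ = κ / η * |s - t| := by ring

theorem th_mul {κ η s t y : ℝ} (hκ : 0 < κ) (hη : 0 < η) (hs : 0 ≤ s) (ht : 0 ≤ t)
    (hst : |s - t| ≤ η / 4) (hy : |y| ≤ t + η / 4) :
    |th κ η s - th κ η t| * |y| ≤ 2 * κ * |s - t| := by
  have hm : 0 < max (min s t) η := lt_max_of_lt_right hη
  have hy2 : |y| ≤ 2 * max (min s t) η := by
    have h1 : η ≤ max (min s t) η := le_max_right _ _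
    have h2 : min s t ≤ max (min s t) η := le_max_left _ _
    have h3 : t ≤ min s t + η / 4 := by
      have := abs_le.1 hst
      rcases min_cases s t with ⟨e1, e2⟩ | ⟨e1, e2⟩ <;> rw [e1] <;> linarith
    linarith
  calc |th κ η s - th κ η t| * |y|
      ≤ (κ * (|s - t| / max (min s t) η)) * (2 * max (min s t) η) :=
        mul_le_mul (theta_abs hκ hη hs ht) hy2 (abs_nonneg _)
          (mul_nonneg hκ.le (div_nonneg (abs_nonneg _) hm.le))
    _ = 2 * κ * |s - t| := by field_simp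

/-- slow decrease: if t ≥ s exp(-c) then th s - th t ≤ κ c -/
theorem th_slow {κ η s t c : ℝ} (hκ : 0 < κ) (hη : 0 < η) (hs : 0 ≤ s) (hc : 0 ≤ c)
    (h : s * Real.exp (-c) ≤ t) : th κ η s - th κ η t ≤ κ * c := by
  have hkc : 0 ≤ κ * c := mul_nonneg hκ.le hc
  have ht : 0 ≤ t := (mul_nonneg hs (Real.exp_pos _).le).trans h
  rcases le_total s t with hst | hst
  · have := th_mono hκ hη hs hst
    linarith
  rcases le_total s η with hse | hse
  · rw [th_zero hκ hη hs hse]
    have := th_nonneg κ η t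
    linarith
  rw [theta_max hκ hη ht]
  have hM : 0 < max t η := lt_max_of_lt_right hη
  have hMs : max t η ≤ s := max_le hst hse
  refine (theta_log hκ hη hM hMs).trans (mul_le_mul_of_nonneg_left ?_ hκ.le)
  have h2 : s * Real.exp (-c) ≤ max t η := h.trans (le_max_left _ _)
  have hs0 : 0 < s := hη.trans_le hse
  have h3 := Real.log_le_log (mul_pos hs0 (Real.exp_pos _)) h2
  rw [Real.log_mul hs0.ne' (Real.exp_pos _).ne', Real.log_exp] at h3
  linarith

end C0G
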