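import Pool.Agent.Lib.MP_85fd23_an.Layer
import Pool.Agent.Lib.MP_85fd23_an.Good
import Pool.Agent.Lib.MP_85fd23_an.TLip
import Pool.Agent.Lib.MP_85fd23_an.Theta
import Pool.Agent.Lib.MP_85fd23_an.MulC1
import Pool.Agent.Lib.MP_85fd23_an.GateRob

/-!
C0G row MAPT.  The C^1 map T of a chain of closed sets.

Proof.  κ with (b/a) 2 κ ≤ ε (κ ≤ 1), η₀ > 0 with 2 η₀ e^{1/κ} ≤ ζ, s = η₀/8, η = η₀/2.
Weights w_γ(γ') = 1 if γ' ∈ S and rk γ ≤ rk γ', else 0.  f_γ x = th κ η₀ (gt w_γ x); Rob s f_γ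
(rob_gate, c = η₀); m γ x = sm s f_γ x for γ ∈ S, 0 for γ ∉ S; T x = mul (fun γ => m γ x) x.
C^1: mul_C1 with C = κ/η₀ (sm_C1; bounds const_le_sm, sm_le_const; Lipschitz from th_lip,
abs_gt_sub_le, sm_le).
Linear bound: the level set {γ | t ≤ m γ x}, t > 0, is contained in S and is a lower set for rk
(rk γ' ≤ rk γ implies gt w_γ ≤ gt w_γ' at every point, hence f_γ ≤ f_γ', m γ x ≤ m γ' x by sm_le with
c = 0): it is ⋃_{i ∈ J} Sx i, J = {rk γ : γ ∈ S, t ≤ m γ x} (rk_le), so closed (cld_union) and good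
(cld_good); layer: N(mul (m · x) v) ≤ N v, c = 1.
Variation: ‖x-y‖ ≤ η₀/8: |m γ x - m γ y| |y γ| ≤ 2 κ ‖x-y‖: if y γ = 0 trivial; else sm_le with the
constant 2κ‖x-y‖/|y γ| and th_mul at x + io ξ, y + io ξ (|y γ| ≤ gt w_γ (y+io ξ) + s).  e = 2κ.
T_lip.  ‖T x - x‖ ≤ ζ for x supported in S: if |x γ| ≥ η₀ e^{1/κ} + s then every gate
gt w_γ (x + io ξ) ≥ η₀ e^{1/κ}, m γ x = 1 (th_one, const_le_sm); η₀ e^{1/κ} + s ≤ 2 η₀ e^{1/κ} ≤ ζ.
Support: if |x γ| ≤ η₀/2 for all γ ∈ S with i < rk γ then for such γ gt w_γ (x+io ξ) ≤ η₀/2 + s ≤ η₀,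
m γ x = 0; so T x γ ≠ 0 implies γ ∈ S, rk γ ≤ i, γ ∈ Sx i.
-/

set_option linter.unusedSectionVars false

namespace C0G

open scoped ZeroAtInfty Topology BigOperators
open Filter Set

universe u

variable {Γ : Type u} [TopologicalSpace Γ] [DiscreteTopology Γ]

open Classical in
/-- weights of the gate of index γ -/
private noncomputable def mapT_w {I : Type*} [LinearOrder I] (S : Set Γ) (rk : Γ → I) (γ : Γ) :
    Γ → ℝ := fun δ => if δ ∈ S ∧ rk γ ≤ rk δ then 1 else 0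

private theorem mapT_w_cl {I : Type*} [LinearOrder I] (S : Set Γ) (rk : Γ → I) (γ δ : Γ)
    (h : δ ∈ S ∧ rk γ ≤ rk δ) : cl (mapT_w S rk γ δ) = 1 := by
  rw [mapT_w, if_pos h]
  exact cl_of_one_le le_rfl

private theorem mapT_w_cl0 {I : Type*} [LinearOrder I] (S : Set Γ) (rk : Γ → I) (γ δ : Γ)
    (h : ¬ (δ ∈ S ∧ rk γ ≤ rk δ)) : cl (mapT_w S rk γ δ) = 0 := by
  rw [mapT_w, if_neg h]
  exact cl_of_le_zero le_rfl

private theorem mapT_gt_mono {I : Type*} [LinearOrder I] (S : Set Γ) (rk : Γ → I) {γ γ' : Γ}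
    (h : rk γ' ≤ rk γ) (y : C₀(Γ, ℝ)) : gt (mapT_w S rk γ) y ≤ gt (mapT_w S rk γ') y := by
  rw [gt_le_iff _ _ (gt_nonneg _ _)]
  intro δ
  by_cases hδ : δ ∈ S ∧ rk γ ≤ rk δ
  · have h1 := le_gt (mapT_w S rk γ') y δ
    rw [mapT_w_cl S rk γ' δ ⟨hδ.1, h.trans hδ.2⟩] at h1
    rw [mapT_w_cl S rk γ δ hδ]
    exact h1
  · rw [mapT_w_cl0 S rk γ δ hδ, zero_mul]
    exact gt_nonneg _ _

/-- the gates -/
private noncomputable def mapT_f {I : Type*} [LinearOrder I] (S : Set Γ) (rk : Γ → I) (κ η : ℝ)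
    (γ : Γ) (x : C₀(Γ, ℝ)) : ℝ := th κ η (gt (mapT_w S rk γ) x)

private theorem mapT_f_lip {I : Type*} [LinearOrder I] (S : Set Γ) (rk : Γ → I) {κ η : ℝ}
    (hκ : 0 < κ) (hη : 0 < η) (γ : Γ) (x y : C₀(Γ, ℝ)) :
    |mapT_f S rk κ η γ x - mapT_f S rk κ η γ y| ≤ κ / η * ‖x - y‖ := by
  refine (th_lip hκ hη (gt_nonneg _ _) (gt_nonneg _ _)).trans ?_
  exact mul_le_mul_of_nonneg_left (abs_gt_sub_le _ _ _) (div_pos hκ hη).le

private theorem mapT_f_cont {I : Type*} [LinearOrder I] (S : Set Γ) (rk : Γ → I) {κ η : ℝ}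
    (hκ : 0 < κ) (hη : 0 < η) (γ : Γ) : Continuous (mapT_f S rk κ η γ) := by
  have : LipschitzWith (Real.toNNReal (κ / η)) (mapT_f S rk κ η γ) := by
    refine LipschitzWith.of_dist_le_mul ?_
    intro x y
    rw [Real.dist_eq, dist_eq_norm, Real.coe_toNNReal _ (div_pos hκ hη).le]
    exact mapT_f_lip S rk hκ hη γ x y
  exact this.continuous

private theorem mapT_f_rob {I : Type*} [LinearOrder I] (S : Set Γ) (rk : Γ → I) {κ η s : ℝ}
    (hκ : 0 < κ) (hη : 0 < η) (hs : 8 * s ≤ η) (γ : Γ) : Rob s (mapT_f S rk κ η γ) := by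
  refine rob_gate (mapT_w S rk γ) hη hs (th κ η) ?_
  intro t ht0 ht
  rw [th_zero hκ hη ht0 ht, th_zero hκ hη hη.le le_rfl]

open Classical in
/-- the multipliers -/
private noncomputable def mapT_m {I : Type*} [LinearOrder I] (S : Set Γ) (rk : Γ → I) (κ η s : ℝ)
    (γ : Γ) (x : C₀(Γ, ℝ)) : ℝ := if γ ∈ S then sm s (mapT_f S rk κ η γ) x else 0

private theorem mapT_m_C1 {I : Type*} [LinearOrder I] (S : Set Γ) (rk : Γ → I) {κ η s : ℝ}
    (hκ : 0 < κ) (hη : 0 < η) (hs0 : 0 < s) (hs : 8 * s ≤ η) (γ : Γ) :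
    ContDiff ℝ 1 (mapT_m S rk κ η s γ) := by
  by_cases h : γ ∈ S
  · have e : mapT_m S rk κ η s γ = sm s (mapT_f S rk κ η γ) := by
      funext x; simp [mapT_m, h]
    rw [e]
    exact sm_C1 hs0 (mapT_f_cont S rk hκ hη γ) (mapT_f_rob S rk hκ hη hs γ)
  · have e : mapT_m S rk κ η s γ = fun _ => 0 := by
      funext x; simp [mapT_m, h]
    rw [e]
    exact contDiff_const

private theorem mapT_m_mem {I : Type*} [LinearOrder I] (S : Set Γ) (rk : Γ → I) {κ η s : ℝ}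
    (hκ : 0 < κ) (hη : 0 < η) (hs0 : 0 < s) (hs : 8 * s ≤ η) (γ : Γ) (x : C₀(Γ, ℝ)) :
    0 ≤ mapT_m S rk κ η s γ x ∧ mapT_m S rk κ η s γ x ≤ 1 := by
  by_cases h : γ ∈ S
  · have e : mapT_m S rk κ η s γ x = sm s (mapT_f S rk κ η γ) x := by simp [mapT_m, h]
    rw [e]
    exact ⟨const_le_sm hs0 (mapT_f_cont S rk hκ hη γ) (mapT_f_rob S rk hκ hη hs γ)
        (fun ξ _ => th_nonneg _ _ _),
      sm_le_const hs0 (mapT_f_cont S rk hκ hη γ) (mapT_f_rob S rk hκ hη hs γ)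
        (fun ξ _ => th_le_one _ _ _)⟩
  · have e : mapT_m S rk κ η s γ x = 0 := by simp [mapT_m, h]
    rw [e]
    exact ⟨le_rfl, zero_le_one⟩

private theorem mapT_add_sub (x y z : C₀(Γ, ℝ)) : (x + z) - (y + z) = x - y := by
  abel

private theorem mapT_m_le {I : Type*} [LinearOrder I] (S : Set Γ) (rk : Γ → I) {κ η s : ℝ}
    (hκ : 0 < κ) (hη : 0 < η) (hs0 : 0 < s) (hs : 8 * s ≤ η) (γ : Γ) {x y : C₀(Γ, ℝ)} {c : ℝ}
    (hc : 0 ≤ c)
    (h : γ ∈ S → ∀ ξ : Γ →₀ ℝ, (∀ γ, |ξ γ| ≤ s) →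
      mapT_f S rk κ η γ (x + io ξ) ≤ mapT_f S rk κ η γ (y + io ξ) + c) :
    mapT_m S rk κ η s γ x ≤ mapT_m S rk κ η s γ y + c := by
  by_cases hγ : γ ∈ S
  · have e : ∀ z, mapT_m S rk κ η s γ z = sm s (mapT_f S rk κ η γ) z := by
      intro z; simp [mapT_m, hγ]
    rw [e, e]
    exact sm_le hs0 (mapT_f_cont S rk hκ hη γ) (mapT_f_cont S rk hκ hη γ)
      (mapT_f_rob S rk hκ hη hs γ) (mapT_f_rob S rk hκ hη hs γ) (h hγ)
  · have e : ∀ z, mapT_m S rk κ η s γ z = 0 := by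
      intro z; simp [mapT_m, hγ]
    rw [e, e]
    linarith

private theorem mapT_m_lip {I : Type*} [LinearOrder I] (S : Set Γ) (rk : Γ → I) {κ η s : ℝ}
    (hκ : 0 < κ) (hη : 0 < η) (hs0 : 0 < s) (hs : 8 * s ≤ η) (γ : Γ) (x y : C₀(Γ, ℝ)) :
    |mapT_m S rk κ η s γ x - mapT_m S rk κ η s γ y| ≤ κ / η * ‖x - y‖ := by
  have hc : 0 ≤ κ / η * ‖x - y‖ := mul_nonneg (div_pos hκ hη).le (norm_nonneg _)
  have h1 : mapT_m S rk κ η s γ x ≤ mapT_m S rk κ η s γ y + κ / η * ‖x - y‖ := by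
    refine mapT_m_le S rk hκ hη hs0 hs γ hc (fun _ ξ _ => ?_)
    have := (abs_le.1 (mapT_f_lip S rk hκ hη γ (x + io ξ) (y + io ξ))).2
    rw [mapT_add_sub] at this
    linarith
  have h2 : mapT_m S rk κ η s γ y ≤ mapT_m S rk κ η s γ x + κ / η * ‖x - y‖ := by
    refine mapT_m_le S rk hκ hη hs0 hs γ hc (fun _ ξ _ => ?_)
    have := (abs_le.1 (mapT_f_lip S rk hκ hη γ (x + io ξ) (y + io ξ))).1
    rw [mapT_add_sub] at this
    linarith
  rw [abs_le]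
  constructor <;> linarith

/-- monotonicity in the rank -/
private theorem mapT_m_mono {I : Type*} [LinearOrder I] (S : Set Γ) (rk : Γ → I) {κ η s : ℝ}
    (hκ : 0 < κ) (hη : 0 < η) (hs0 : 0 < s) (hs : 8 * s ≤ η) {γ γ' : Γ} (hγ : γ ∈ S)
    (hγ' : γ' ∈ S) (h : rk γ' ≤ rk γ) (x : C₀(Γ, ℝ)) :
    mapT_m S rk κ η s γ x ≤ mapT_m S rk κ η s γ' x := by
  have e : mapT_m S rk κ η s γ x = sm s (mapT_f S rk κ η γ) x := by simp [mapT_m, hγ]
  have e' : mapT_m S rk κ η s γ' x = sm s (mapT_f S rk κ η γ') x := by simp [mapT_m, hγ']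
  rw [e, e']
  have := sm_le (x := x) (y := x) (c := 0) hs0 (mapT_f_cont S rk hκ hη γ)
    (mapT_f_cont S rk hκ hη γ') (mapT_f_rob S rk hκ hη hs γ) (mapT_f_rob S rk hκ hη hs γ')
    (fun ξ _ => by
      rw [add_zero]
      exact th_mono hκ hη (gt_nonneg _ _) (mapT_gt_mono S rk h _))
  linarith

/-- the coordinate is bounded by the gate -/
private theorem mapT_coord {I : Type*} [LinearOrder I] (S : Set Γ) (rk : Γ → I) {s : ℝ} {γ : Γ}
    (hγ : γ ∈ S) (y : C₀(Γ, ℝ)) {ξ : Γ →₀ ℝ} (hξ : ∀ γ, |ξ γ| ≤ s) :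
    |y γ| ≤ gt (mapT_w S rk γ) (y + io ξ) + s := by
  have h1 := le_gt (mapT_w S rk γ) (y + io ξ) γ
  rw [mapT_w_cl S rk γ γ ⟨hγ, le_rfl⟩, one_mul] at h1
  have h2 : (y + io ξ) γ = y γ + ξ γ := by simp
  rw [h2] at h1
  have h3 := hξ γ
  have h4 : |y γ| ≤ |y γ + ξ γ| + |ξ γ| := by
    have := abs_sub (y γ + ξ γ) (ξ γ)
    rwa [add_sub_cancel_right] at this
  linarith

private theorem mapT_var {I : Type*} [LinearOrder I] (S : Set Γ) (rk : Γ → I) {κ η : ℝ}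
    (hκ : 0 < κ) (hη : 0 < η) (γ : Γ) {x y : C₀(Γ, ℝ)} (hxy : ‖x - y‖ ≤ η / 8) :
    |mapT_m S rk κ η (η / 8) γ x - mapT_m S rk κ η (η / 8) γ y| * |y γ| ≤ 2 * κ * ‖x - y‖ := by
  have hs0 : 0 < η / 8 := by positivity
  have hs : 8 * (η / 8) ≤ η := by linarith
  by_cases hy : y γ = 0
  · rw [hy, abs_zero, mul_zero]; positivity
  · have hy' : 0 < |y γ| := abs_pos.2 hy
    have hc : 0 ≤ 2 * κ * ‖x - y‖ / |y γ| := by positivity
    have key : γ ∈ S → ∀ ξ : Γ →₀ ℝ, (∀ γ, |ξ γ| ≤ η / 8) →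
        |mapT_f S rk κ η γ (x + io ξ) - mapT_f S rk κ η γ (y + io ξ)| ≤
          2 * κ * ‖x - y‖ / |y γ| := by
      intro hγ ξ hξ
      rw [le_div_iff₀ hy']
      have h1 : |gt (mapT_w S rk γ) (x + io ξ) - gt (mapT_w S rk γ) (y + io ξ)| ≤ ‖x - y‖ := by
        have := abs_gt_sub_le (mapT_w S rk γ) (x + io ξ) (y + io ξ)
        rwa [mapT_add_sub] at this
      have h2 := th_mul (κ := κ) (η := η) (s := gt (mapT_w S rk γ) (x + io ξ))
        (t := gt (mapT_w S rk γ) (y + io ξ)) (y := y γ) hκ hη (gt_nonneg _ _) (gt_nonneg _ _)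
        (by linarith) (by have := mapT_coord S rk hγ y hξ; linarith)
      refine h2.trans ?_
      exact mul_le_mul_of_nonneg_left h1 (by positivity)
    have h1 : mapT_m S rk κ η (η / 8) γ x ≤
        mapT_m S rk κ η (η / 8) γ y + 2 * κ * ‖x - y‖ / |y γ| := by
      refine mapT_m_le S rk hκ hη hs0 hs γ hc (fun hγ ξ hξ => ?_)
      have := (abs_le.1 (key hγ ξ hξ)).2
      linarith
    have h2 : mapT_m S rk κ η (η / 8) γ y ≤
        mapT_m S rk κ η (η / 8) γ x + 2 * κ * ‖x - y‖ / |y γ| := by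
      refine mapT_m_le S rk hκ hη hs0 hs γ hc (fun hγ ξ hξ => ?_)
      have := (abs_le.1 (key hγ ξ hξ)).1
      linarith
    rw [← le_div_iff₀ hy', abs_le]
    constructor <;> linarith

private theorem mapT_lin {N : C₀(Γ, ℝ) → ℝ} {a b : ℝ} (hN : EqN N a b)
    {nx : Finset Γ → ℕ → Finset Γ} (hnx : NX N nx) {S : Set Γ} {I : Type*} [LinearOrder I]
    {Sx : I → Set Γ} {rk : Γ → I} (hch : Chn nx S Sx rk) {κ η s : ℝ}
    (hκ : 0 < κ) (hη : 0 < η) (hs0 : 0 < s) (hs : 8 * s ≤ η) (x v : C₀(Γ, ℝ)) :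
    N (mul (fun γ => mapT_m S rk κ η s γ x) v) ≤ 1 * N v := by
  rw [one_mul]
  refine layer hN _ (fun γ => mapT_m_mem S rk hκ hη hs0 hs γ x) ?_ v
  intro t ht u
  have hmono : ∀ i j, i ≤ j → Sx i ⊆ Sx j := by
    intro i j hij γ hγ
    have hS : γ ∈ S := hch.sub i hγ
    exact (hch.rk_le γ hS j).2 (((hch.rk_le γ hS i).1 hγ).trans hij)
  have hset : {γ | t ≤ mapT_m S rk κ η s γ x} =
      ⋃ i ∈ {i : I | ∃ γ ∈ S, t ≤ mapT_m S rk κ η s γ x ∧ rk γ = i}, Sx i := by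
    ext γ
    simp only [mem_setOf_eq, mem_iUnion, exists_prop]
    constructor
    · intro h
      have hS : γ ∈ S := by
        by_contra hno
        have e : mapT_m S rk κ η s γ x = 0 := by simp [mapT_m, hno]
        linarith
      exact ⟨rk γ, ⟨γ, hS, h, rfl⟩, (hch.rk_le γ hS _).2 le_rfl⟩
    · rintro ⟨i, ⟨δ, hδS, hδ, rfl⟩, hγ⟩
      have hS : γ ∈ S := hch.sub _ hγ
      exact hδ.trans (mapT_m_mono S rk hκ hη hs0 hs hδS hS ((hch.rk_le γ hS _).1 hγ) x)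
  rw [hset]
  exact cld_good hN hnx (cld_union hmono hch.cld _) u

theorem exists_T {N : C₀(Γ, ℝ) → ℝ} {a b : ℝ} (hN : EqN N a b) {nx : Finset Γ → ℕ → Finset Γ}
    (hnx : NX N nx) {S : Set Γ} (hS : Cld nx S) {I : Type*} [LinearOrder I] {Sx : I → Set Γ}
    {rk : Γ → I} (hch : Chn nx S Sx rk) {ε ζ : ℝ} (hε : 0 < ε) (hζ : 0 < ζ) :
    ∃ η : ℝ, 0 < η ∧ ∃ T : C₀(Γ, ℝ) → C₀(Γ, ℝ), ContDiff ℝ 1 T ∧
      (∀ x y, N (T x - T y) ≤ (1 + ε) * N (x - y)) ∧ (∀ x, Sup S x → ‖T x - x‖ ≤ ζ) ∧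
      ∀ (x : C₀(Γ, ℝ)) (i : I), (∀ γ ∈ S, i < rk γ → |x γ| ≤ η) → Sup (Sx i) (T x) := by
  have ha := hN.apos
  have hb := hN.bpos
  obtain ⟨κ, hκ, hκε⟩ : ∃ κ : ℝ, 0 < κ ∧ b / a * (2 * κ) ≤ ε := by
    refine ⟨ε * a / (2 * b), by positivity, le_of_eq ?_⟩
    field_simp
  have hE : 1 ≤ Real.exp (1 / κ) := Real.one_le_exp (by positivity)
  obtain ⟨η, hη, hηζ⟩ : ∃ η : ℝ, 0 < η ∧ 2 * (η * Real.exp (1 / κ)) = ζ := by
    refine ⟨ζ / (2 * Real.exp (1 / κ)), by positivity, ?_⟩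
    field_simp
  have hs0 : 0 < η / 8 := by positivity
  have hs : 8 * (η / 8) ≤ η := by linarith
  have hcl : ∀ γ x, cl (mapT_m S rk κ η (η / 8) γ x) = mapT_m S rk κ η (η / 8) γ x := by
    intro γ x
    have := mapT_m_mem S rk hκ hη hs0 hs γ x
    exact cl_eq this.1 this.2
  refine ⟨η / 2, by positivity, fun x => mul (fun γ => mapT_m S rk κ η (η / 8) γ x) x,
    ?_, ?_, ?_, ?_⟩
  · exact mul_C1 (fun γ => mapT_m S rk κ η (η / 8) γ) (C := κ / η) (div_pos hκ hη).le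
      (mapT_m_C1 S rk hκ hη hs0 hs) (mapT_m_mem S rk hκ hη hs0 hs)
      (mapT_m_lip S rk hκ hη hs0 hs)
  · intro x y
    have h := T_lip hN (fun x γ => mapT_m S rk κ η (η / 8) γ x) (c := 1) (e := 2 * κ)
      (r := η / 8) zero_le_one (by positivity) hs0
      (fun x v => mapT_lin hN hnx hch hκ hη hs0 hs x v)
      (fun x y hxy γ => by
        rw [hcl, hcl]
        exact mapT_var S rk hκ hη γ hxy) x y
    refine h.trans ?_
    exact mul_le_mul_of_nonneg_right (by linarith) (hN.nonneg _)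
  · intro x hx
    rw [norm_le_iff hζ.le]
    intro γ
    have e : (mul (fun γ => mapT_m S rk κ η (η / 8) γ x) x - x) γ =
        mapT_m S rk κ η (η / 8) γ x * x γ - x γ := by
      rw [ZeroAtInftyContinuousMap.sub_apply, mul_apply, hcl]
    rw [e]
    by_cases hγ : γ ∈ S
    · rcases le_or_gt (|x γ|) ζ with h1 | h1
      · have h2 := mapT_m_mem S rk hκ hη hs0 hs γ x
        have e2 : mapT_m S rk κ η (η / 8) γ x * x γ - x γ =
            -((1 - mapT_m S rk κ η (η / 8) γ x) * x γ) := by ring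
        rw [e2, abs_neg, abs_mul, abs_of_nonneg (by linarith)]
        exact (mul_le_of_le_one_left (abs_nonneg _) (by linarith)).trans h1
      · have h3 : 1 ≤ mapT_m S rk κ η (η / 8) γ x := by
          have e3 : mapT_m S rk κ η (η / 8) γ x = sm (η / 8) (mapT_f S rk κ η γ) x := by
            simp [mapT_m, hγ]
          rw [e3]
          refine const_le_sm hs0 (mapT_f_cont S rk hκ hη γ) (mapT_f_rob S rk hκ hη hs γ) ?_
          intro ξ hξ
          refine le_of_eq (th_one hκ hη ?_).symm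
          have h4 := mapT_coord S rk hγ x hξ
          nlinarith [mul_le_mul_of_nonneg_left hE hη.le]
        have h4 : mapT_m S rk κ η (η / 8) γ x = 1 :=
          le_antisymm (mapT_m_mem S rk hκ hη hs0 hs γ x).2 h3
        rw [h4, one_mul, sub_self, abs_zero]
        exact hζ.le
    · rw [hx γ hγ, mul_zero, sub_zero, abs_zero]
      exact hζ.le
  · intro x i hi γ hγi
    rw [mul_apply, hcl]
    by_cases hγ : γ ∈ S
    · have hlt : i < rk γ := by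
        rw [hch.rk_le γ hγ i, not_le] at hγi
        exact hγi
      have h0 : mapT_m S rk κ η (η / 8) γ x ≤ 0 := by
        have e3 : mapT_m S rk κ η (η / 8) γ x = sm (η / 8) (mapT_f S rk κ η γ) x := by
          simp [mapT_m, hγ]
        rw [e3]
        refine sm_le_const hs0 (mapT_f_cont S rk hκ hη γ) (mapT_f_rob S rk hκ hη hs γ) ?_
        intro ξ hξ
        refine le_of_eq (th_zero hκ hη (gt_nonneg _ _) ?_)
        rw [gt_le_iff _ _ hη.le]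
        intro δ
        by_cases hδ : δ ∈ S ∧ rk γ ≤ rk δ
        · rw [mapT_w_cl S rk γ δ hδ, one_mul]
          have h5 := hi δ hδ.1 (hlt.trans_le hδ.2)
          have h6 := hξ δ
          have h7 : (x + io ξ) δ = x δ + ξ δ := by simp
          rw [h7]
          have := abs_add_le (x δ) (ξ δ)
          linarith
        · rw [mapT_w_cl0 S rk γ δ hδ, zero_mul]
          exact hη.le
      have h1 : mapT_m S rk κ η (η / 8) γ x = 0 :=
        le_antisymm h0 (mapT_m_mem S rk hκ hη hs0 hs γ x).1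
      rw [h1, zero_mul]
    · have e : mapT_m S rk κ η (η / 8) γ x = 0 := by simp [mapT_m, hγ]
      rw [e, zero_mul]

end C0G
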