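import Mathlib

/-!
C0G row SML.  The sup-min functional on a chain of indices.  Pure order and real arithmetic.

MM u = sSup 𝒯(u), 𝒯(u) = {t | ∃ α, t ≤ u (inl α) ∧ ∀ β > α, t ≤ u (inr β)}.
Nom v p w V δ F: nominal data at a point, u near the nominal family nomU v p w (distance ≤ δ/4).

Proofs.  Let β₀ ≤ α₀ be the indices in Nom.ex.
(near) t = V - 5δ/4 ∈ 𝒯(u) with α₀: u(inl α₀) ≥ v α₀ - 0 - δ/4 ≥ V - 5δ/4, and for β > α₀
u(inr β) ≥ v β + 3δ - δ/4 ≥ V + 7δ/4.  Upper bound: t ∈ 𝒯 with α: if β₀ ≤ α then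
t ≤ u(inl α) ≤ v α - p α + δ/4 ≤ V + 5δ/4; if α < β₀ then (∀ i, β₀ ≤ i) fails so w β₀ = -4δ and
t ≤ u(inr β₀) ≤ V + δ - 4δ + δ/4.  So 𝒯 is nonempty, bounded above, |MM u - V| ≤ 5δ/4.
(lip) t ∈ 𝒯(u) implies t - ρ ∈ 𝒯(u'); both nonempty and bounded above (csSup_le, le_csSup).
(loc) if t ∈ 𝒯(u), t > V - 2δ with α, then β₀ ≤ α (else t ≤ V - 11δ/4) and α ∈ F (else p α = 5δ and
t ≤ V + δ - 5δ + δ/4), so u'(inl α) = u(inl α) ≥ t; for β > α in F the values agree, and for β ∉ F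
u'(inr β) ≥ v β + 3δ - δ/4 ≥ V + 7δ/4 ≥ V + 5δ/4 ≥ t.  So t ∈ 𝒯(u'); and t ≤ V - 2δ is below
MM u' ≥ V - 5δ/4.  Hence MM u ≤ MM u' and by symmetry equality.
-/

set_option linter.unusedSectionVars false

namespace C0G

open Set

variable {I : Type*} [LinearOrder I]

noncomputable def MM (u : I ⊕ I → ℝ) : ℝ :=
  sSup {t : ℝ | ∃ α : I, t ≤ u (Sum.inl α) ∧ ∀ β, α < β → t ≤ u (Sum.inr β)}

def nomU (v p w : I → ℝ) : I ⊕ I → ℝ := Sum.elim (fun i => v i - p i) (fun i => v i + w i)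

structure Nom (v p w : I → ℝ) (V δ : ℝ) (F : Finset I) : Prop where
  ex : ∃ β₀ α₀ : I, β₀ ≤ α₀ ∧ (∀ i, β₀ ≤ i → |v i - V| ≤ δ) ∧ ((∀ i, β₀ ≤ i) ∨ w β₀ = -(4 * δ)) ∧
    p α₀ = 0 ∧ ∀ i, α₀ < i → w i = 3 * δ
  p_nonneg : ∀ i, 0 ≤ p i
  out : ∀ i, i ∉ F → p i = 5 * δ ∧ w i = 3 * δ

private theorem SML_mem {v p w : I → ℝ} {V δ : ℝ} {F : Finset I} (hδ : 0 < δ)
    (h : Nom v p w V δ F) {u : I ⊕ I → ℝ} (hu : ∀ j, |u j - nomU v p w j| ≤ δ / 4) :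
    ∃ α : I, V - 5 * δ / 4 ≤ u (Sum.inl α) ∧ ∀ β, α < β → V - 5 * δ / 4 ≤ u (Sum.inr β) := by
  obtain ⟨β₀, α₀, hle, hv, _, hp, hw⟩ := h.ex
  refine ⟨α₀, ?_, ?_⟩
  · have h1 := abs_le.1 (hu (Sum.inl α₀))
    have h2 := abs_le.1 (hv α₀ hle)
    simp only [nomU, Sum.elim_inl, hp] at h1
    linarith [h1.1, h2.1]
  · intro β hβ
    have h1 := abs_le.1 (hu (Sum.inr β))
    have h2 := abs_le.1 (hv β (hle.trans hβ.le))
    have h3 := hw β hβ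
    simp only [nomU, Sum.elim_inr, h3] at h1
    linarith [h1.1, h2.1]

private theorem SML_ub {v p w : I → ℝ} {V δ : ℝ} {F : Finset I} (hδ : 0 < δ)
    (h : Nom v p w V δ F) {u : I ⊕ I → ℝ} (hu : ∀ j, |u j - nomU v p w j| ≤ δ / 4) {t : ℝ}
    (ht : ∃ α : I, t ≤ u (Sum.inl α) ∧ ∀ β, α < β → t ≤ u (Sum.inr β)) :
    t ≤ V + 5 * δ / 4 := by
  obtain ⟨β₀, α₀, hle, hv, hb, hp, hw⟩ := h.ex
  obtain ⟨α, h1, h2⟩ := ht
  rcases le_or_gt β₀ α with hα | hα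
  · have h3 := abs_le.1 (hu (Sum.inl α))
    have h4 := abs_le.1 (hv α hα)
    have h5 := h.p_nonneg α
    simp only [nomU, Sum.elim_inl] at h3
    linarith [h3.2, h4.2]
  · rcases hb with hb | hb
    · exact absurd (hb α) (not_le.2 hα)
    · have h3 := abs_le.1 (hu (Sum.inr β₀))
      have h4 := abs_le.1 (hv β₀ le_rfl)
      have h5 := h2 β₀ hα
      simp only [nomU, Sum.elim_inr, hb] at h3
      linarith [h3.2, h4.2]

private theorem SML_bdd {v p w : I → ℝ} {V δ : ℝ} {F : Finset I} (hδ : 0 < δ)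
    (h : Nom v p w V δ F) {u : I ⊕ I → ℝ} (hu : ∀ j, |u j - nomU v p w j| ≤ δ / 4) :
    BddAbove {t : ℝ | ∃ α : I, t ≤ u (Sum.inl α) ∧ ∀ β, α < β → t ≤ u (Sum.inr β)} :=
  ⟨V + 5 * δ / 4, fun _ ht => SML_ub hδ h hu ht⟩

private theorem SML_ne {v p w : I → ℝ} {V δ : ℝ} {F : Finset I} (hδ : 0 < δ)
    (h : Nom v p w V δ F) {u : I ⊕ I → ℝ} (hu : ∀ j, |u j - nomU v p w j| ≤ δ / 4) :
    {t : ℝ | ∃ α : I, t ≤ u (Sum.inl α) ∧ ∀ β, α < β → t ≤ u (Sum.inr β)}.Nonempty :=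
  ⟨V - 5 * δ / 4, SML_mem hδ h hu⟩

theorem mm_near {v p w : I → ℝ} {V δ : ℝ} {F : Finset I} (hδ : 0 < δ) (h : Nom v p w V δ F)
    {u : I ⊕ I → ℝ} (hu : ∀ j, |u j - nomU v p w j| ≤ δ / 4) : |MM u - V| ≤ 2 * δ := by
  have h1 : V - 5 * δ / 4 ≤ MM u := le_csSup (SML_bdd hδ h hu) (SML_mem hδ h hu)
  have h2 : MM u ≤ V + 5 * δ / 4 := csSup_le (SML_ne hδ h hu) (fun t ht => SML_ub hδ h hu ht)
  rw [abs_le]
  constructor <;> linarith

theorem mm_lip {v p w : I → ℝ} {V δ : ℝ} {F : Finset I} {v' p' w' : I → ℝ} {V' : ℝ} {F' : Finset I}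
    (hδ : 0 < δ) (h : Nom v p w V δ F) (h' : Nom v' p' w' V' δ F')
    {u u' : I ⊕ I → ℝ} (hu : ∀ j, |u j - nomU v p w j| ≤ δ / 4)
    (hu' : ∀ j, |u' j - nomU v' p' w' j| ≤ δ / 4) {ρ : ℝ} (hρ : ∀ j, |u j - u' j| ≤ ρ) :
    |MM u - MM u'| ≤ ρ := by
  have key : ∀ (x x' : I ⊕ I → ℝ), (∀ j, |x j - x' j| ≤ ρ) →
      {t : ℝ | ∃ α : I, t ≤ x (Sum.inl α) ∧ ∀ β, α < β → t ≤ x (Sum.inr β)}.Nonempty →
      BddAbove {t : ℝ | ∃ α : I, t ≤ x' (Sum.inl α) ∧ ∀ β, α < β → t ≤ x' (Sum.inr β)} →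
      MM x ≤ MM x' + ρ := by
    intro x x' hx hne hbd
    refine csSup_le hne ?_
    rintro t ⟨α, h1, h2⟩
    have h3 : t - ρ ≤ MM x' := by
      refine le_csSup hbd ⟨α, ?_, ?_⟩
      · have := abs_le.1 (hx (Sum.inl α))
        linarith [this.2]
      · intro β hβ
        have h4 := abs_le.1 (hx (Sum.inr β))
        have h5 := h2 β hβ
        linarith [h4.2]
    linarith
  have h1 := key u u' hρ (SML_ne hδ h hu) (SML_bdd hδ h' hu')
  have h2 := key u' u (fun j => by rw [abs_sub_comm]; exact hρ j) (SML_ne hδ h' hu')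
    (SML_bdd hδ h hu)
  rw [abs_le]
  constructor <;> linarith

theorem mm_loc {v p w : I → ℝ} {V δ : ℝ} {F : Finset I} (hδ : 0 < δ) (h : Nom v p w V δ F)
    {u u' : I ⊕ I → ℝ} (hu : ∀ j, |u j - nomU v p w j| ≤ δ / 4)
    (hu' : ∀ j, |u' j - nomU v p w j| ≤ δ / 4)
    (hF : ∀ i ∈ F, u (Sum.inl i) = u' (Sum.inl i) ∧ u (Sum.inr i) = u' (Sum.inr i)) :
    MM u = MM u' := by
  have key : ∀ (x x' : I ⊕ I → ℝ), (∀ j, |x j - nomU v p w j| ≤ δ / 4) →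
      (∀ j, |x' j - nomU v p w j| ≤ δ / 4) →
      (∀ i ∈ F, x (Sum.inl i) = x' (Sum.inl i) ∧ x (Sum.inr i) = x' (Sum.inr i)) →
      MM x ≤ MM x' := by
    intro x x' hx hx' hE
    refine csSup_le (SML_ne hδ h hx) ?_
    intro t ht
    have hub := SML_ub hδ h hx ht
    obtain ⟨α, h1, h2⟩ := ht
    have hlow : V - 5 * δ / 4 ≤ MM x' := le_csSup (SML_bdd hδ h hx') (SML_mem hδ h hx')
    rcases le_or_gt t (V - 2 * δ) with ht | ht
    · linarith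
    · obtain ⟨β₀, α₀, hle, hv, hb, hp, hw⟩ := h.ex
      have hα : β₀ ≤ α := by
        by_contra hc
        rw [not_le] at hc
        rcases hb with hb | hb
        · exact absurd (hb α) (not_le.2 hc)
        · have h3 := abs_le.1 (hx (Sum.inr β₀))
          have h4 := abs_le.1 (hv β₀ le_rfl)
          have h5 := h2 β₀ hc
          simp only [nomU, Sum.elim_inr, hb] at h3
          linarith [h3.2, h4.2]
      have hF' : α ∈ F := by
        by_contra hc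
        have h3 := abs_le.1 (hx (Sum.inl α))
        have h4 := abs_le.1 (hv α hα)
        have h5 := (h.out α hc).1
        simp only [nomU, Sum.elim_inl, h5] at h3
        linarith [h3.2, h4.2]
      refine le_csSup (SML_bdd hδ h hx') ⟨α, ?_, ?_⟩
      · rw [← (hE α hF').1]
        exact h1
      · intro β hβ
        by_cases hc : β ∈ F
        · rw [← (hE β hc).2]
          exact h2 β hβ
        · have h3 := abs_le.1 (hx' (Sum.inr β))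
          have h4 := abs_le.1 (hv β (hα.trans hβ.le))
          have h5 := (h.out β hc).2
          simp only [nomU, Sum.elim_inr, h5] at h3
          linarith [h3.1, h4.1]
  refine le_antisymm (key u u' hu hu' hF) (key u' u hu' hu ?_)
  intro i hi
  exact ⟨(hF i hi).1.symm, (hF i hi).2.symm⟩

end C0G
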