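import Pool.Agent.Lib.MP_85fd23_an.SS
import Pool.Agent.Lib.MP_85fd23_an.SML
import Pool.Agent.Lib.MP_85fd23_an.MapT
import Pool.Agent.Lib.MP_85fd23_an.Bump

/-!
C0G row STEPB.  The inductive step: a closed set with a chain of closed sets having PP has PP.

Proof.  F, ε, δ given.  ε₁ with (1+ε₁)(1+ε₁) + ε₁ ≤ 1 + ε; exists_T with ε₁ and ζ = δ/(2b): η, T.
δ₁ > 0 with 2 δ₁ ≤ δ/4 and (1/a) 112 δ₁/η ≤ ε₁.  H i from PP (Sx i) with (ε₁, δ₁); v i x = H i (T x).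
Blocks D i = {γ ∈ S | rk γ = i}; R1 i = bump (D i, η/32, 5η/32), R2 i = bump (D i, 7η/32, 13η/32).
p i x = if i = ⊥ then 0 else 5 δ₁ (1 - R1 i x); w i x = 3 δ₁ - 7 δ₁ R2 i x; u x = nomU (v · x) (p · x) (w · x).
All u x j are C^1 and |u x j - u y j| ≤ D x y := (1+ε) N(x-y) (5δ₁·16/η, 7δ₁·32/(3η) ≤ 112 δ₁/η).
Nom at x with V = F (T x), δ₁, F(x) = {⊥} ∪ {rk γ : γ ∈ S, η/32 ≤ |x γ|} (finite): β₀ = max of ⊥ and the
ranks of γ ∈ S with |x γ| ≥ 13η/32, α₀ = the same with 5η/32.  For i ≥ β₀ all γ ∈ S of rank > i have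
|x γ| < 13η/32 ≤ η so T x is supported in Sx i and |v i x - V| ≤ δ₁.  w β₀ = -4δ₁ unless β₀ = ⊥.
p α₀ = 0.  For i > α₀: |x γ| < 5η/32 ≤ 7η/32 on D i: w i = 3δ₁.  Outside F(x): R1 = R2 = 0.
(maximum of finite sets: Finset.exists_max_image or Finset.max' on the image under rk.)
ss with M = MM, τ = δ₁/4 (mm_lip, mm_loc; F = disjoint sum of F(x) with itself; hD: N(y-x) ≤ b‖y-x‖ → 0)
gives h C^1, NL N (1+ε) h, |h x - MM (u x)| ≤ δ₁/4, |MM (u x) - V| ≤ 2δ₁ (mm_near), and for x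
supported in S |V - F x| ≤ N(T x - x) ≤ b ζ = δ/2.
-/

set_option linter.unusedSectionVars false

namespace C0G

open scoped ZeroAtInfty Topology BigOperators
open Filter Set

universe u

variable {Γ : Type u} [TopologicalSpace Γ] [DiscreteTopology Γ]

private theorem stepB_max (S : Set Γ) {I : Type*} [LinearOrder I] [OrderBot I] (rk : Γ → I)
    (x : C₀(Γ, ℝ)) {c : ℝ} (hc : 0 < c) :
    ∃ m : I, (m = ⊥ ∨ ∃ γ ∈ S, rk γ = m ∧ c ≤ |x γ|) ∧ ∀ γ ∈ S, m < rk γ → |x γ| < c := by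
  classical
  have hfin : (rk '' {γ | γ ∈ S ∧ c ≤ |x γ|}).Finite :=
    ((finite_ge x hc).subset (fun γ hγ => hγ.2)).image rk
  have hmem : ∀ i, i ∈ insert ⊥ hfin.toFinset ↔ i = ⊥ ∨ ∃ γ, (γ ∈ S ∧ c ≤ |x γ|) ∧ rk γ = i := by
    intro i
    rw [Finset.mem_insert, Set.Finite.mem_toFinset]
    rfl
  have hne : (insert ⊥ hfin.toFinset).Nonempty := Finset.insert_nonempty _ _
  refine ⟨(insert ⊥ hfin.toFinset).max' hne, ?_, ?_⟩
  · rcases (hmem _).1 ((insert ⊥ hfin.toFinset).max'_mem hne) with h | ⟨γ, ⟨h1, h2⟩, h3⟩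
    · exact Or.inl h
    · exact Or.inr ⟨γ, h1, h3, h2⟩
  · intro γ hγ hlt
    by_contra hcon
    exact absurd ((insert ⊥ hfin.toFinset).le_max' (rk γ)
      ((hmem _).2 (Or.inr ⟨γ, ⟨hγ, not_lt.1 hcon⟩, rfl⟩))) (not_le.2 hlt)

private theorem stepB_fin (S : Set Γ) {I : Type*} [LinearOrder I] [OrderBot I] (rk : Γ → I)
    (x : C₀(Γ, ℝ)) {c : ℝ} (hc : 0 < c) :
    ∃ F : Finset I, ∀ i, i ∉ F → i ≠ ⊥ ∧ ∀ γ ∈ S, rk γ = i → |x γ| < c := by
  classical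
  have hfin : (rk '' {γ | γ ∈ S ∧ c ≤ |x γ|}).Finite :=
    ((finite_ge x hc).subset (fun γ hγ => hγ.2)).image rk
  refine ⟨insert ⊥ hfin.toFinset, fun i hi => ?_⟩
  rw [Finset.mem_insert, Set.Finite.mem_toFinset, not_or] at hi
  refine ⟨hi.1, fun γ hγ hr => ?_⟩
  by_contra hcon
  exact hi.2 ⟨γ, ⟨hγ, not_lt.1 hcon⟩, hr⟩

/-- the nominal data of a point -/
private theorem stepB_nom {S : Set Γ} {I : Type*} [LinearOrder I] [OrderBot I] {rk : Γ → I}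
    {η δ₁ V : ℝ} (hη : 0 < η) (hδ₁ : 0 < δ₁) (x : C₀(Γ, ℝ)) (v r1 r2 : I → ℝ)
    (hv : ∀ i, (∀ γ ∈ S, i < rk γ → |x γ| ≤ η) → |v i - V| ≤ δ₁)
    (h1m : ∀ i, r1 i ≤ 1)
    (h10 : ∀ i, (∀ γ ∈ {γ | γ ∈ S ∧ rk γ = i}, |x γ| ≤ η / 32) → r1 i = 0)
    (h11 : ∀ i, (∃ γ ∈ {γ | γ ∈ S ∧ rk γ = i}, 5 * η / 32 ≤ |x γ|) → r1 i = 1)
    (h20 : ∀ i, (∀ γ ∈ {γ | γ ∈ S ∧ rk γ = i}, |x γ| ≤ 7 * η / 32) → r2 i = 0)
    (h21 : ∀ i, (∃ γ ∈ {γ | γ ∈ S ∧ rk γ = i}, 13 * η / 32 ≤ |x γ|) → r2 i = 1) :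
    ∃ F : Finset I, Nom v (fun i => if i = ⊥ then 0 else 5 * δ₁ * (1 - r1 i))
      (fun i => 3 * δ₁ - 7 * δ₁ * r2 i) V δ₁ F := by
  obtain ⟨F, hF⟩ := stepB_fin S rk x (c := η / 32) (by positivity)
  obtain ⟨β₀, hβ1, hβ2⟩ := stepB_max S rk x (c := 13 * η / 32) (by positivity)
  obtain ⟨α₀, hα1, hα2⟩ := stepB_max S rk x (c := 5 * η / 32) (by positivity)
  refine ⟨F, ⟨⟨β₀, α₀, ?_, ?_, ?_, ?_, ?_⟩, ?_, ?_⟩⟩
  · rcases hβ1 with h | ⟨γ, hγ, hr, hx⟩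
    · rw [h]
      exact bot_le
    · by_contra hcon
      have := hα2 γ hγ (by rw [hr]; exact not_le.1 hcon)
      linarith
  · intro i hi
    refine hv i fun γ hγ hlt => ?_
    have := hβ2 γ hγ (hi.trans_lt hlt)
    linarith
  · rcases hβ1 with h | ⟨γ, hγ, hr, hx⟩
    · left
      intro i
      rw [h]
      exact bot_le
    · right
      have := h21 β₀ ⟨γ, ⟨hγ, hr⟩, hx⟩
      simp only [this]
      ring
  · rcases hα1 with h | ⟨γ, hγ, hr, hx⟩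
    · simp only [h, if_true]
    · have := h11 α₀ ⟨γ, ⟨hγ, hr⟩, hx⟩
      simp only [this, sub_self, mul_zero, ite_self]
  · intro i hi
    have := h20 i (fun γ hγ => by
      have := hα2 γ hγ.1 (by rw [hγ.2]; exact hi)
      linarith)
    simp only [this, mul_zero, sub_zero]
  · intro i
    show 0 ≤ if i = ⊥ then (0 : ℝ) else 5 * δ₁ * (1 - r1 i)
    split_ifs
    · exact le_rfl
    · exact mul_nonneg (by linarith) (by linarith [h1m i])
  · intro i hi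
    obtain ⟨h1, h2⟩ := hF i hi
    have e1 := h10 i (fun γ hγ => (h2 γ hγ.1 hγ.2).le)
    have e2 := h20 i (fun γ hγ => by
      have := h2 γ hγ.1 hγ.2
      linarith)
    constructor
    · simp only [if_neg h1, e1, sub_zero, mul_one]
    · simp only [e2, mul_zero, sub_zero]

theorem stepB {N : C₀(Γ, ℝ) → ℝ} {a b : ℝ} (hN : EqN N a b) {nx : Finset Γ → ℕ → Finset Γ}
    (hnx : NX N nx) {S : Set Γ} (hS : Cld nx S) {I : Type*} [LinearOrder I] [OrderBot I]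
    {Sx : I → Set Γ} {rk : Γ → I} (hch : Chn nx S Sx rk) (hP : ∀ i, PP N (Sx i)) : PP N S := by
  classical
  intro F hF ε hε δ hδ
  have ha := hN.apos
  have hb := hN.bpos
  obtain ⟨ε₁, hε₁, hε₁'⟩ : ∃ ε₁ : ℝ, 0 < ε₁ ∧ (1 + ε₁) * (1 + ε₁) + ε₁ ≤ 1 + ε := by
    have h0 : 0 < min 1 (ε / 4) := lt_min one_pos (by linarith)
    have h1 : min 1 (ε / 4) ≤ 1 := min_le_left _ _
    have h2 : min 1 (ε / 4) ≤ ε / 4 := min_le_right _ _
    refine ⟨min 1 (ε / 4), h0, ?_⟩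
    nlinarith
  obtain ⟨η, hη, T, hT1, hTl, hTc, hTs⟩ := exists_T hN hnx hS hch hε₁
    (ζ := δ / (2 * b)) (by positivity)
  obtain ⟨δ₁, hδ₁, hδa, hδb⟩ : ∃ δ₁ : ℝ, 0 < δ₁ ∧ δ₁ ≤ δ / 8 ∧ 112 * δ₁ / η ≤ ε₁ * a := by
    have h0 : 0 < min (δ / 8) (ε₁ * a * η / 112) := lt_min (by positivity) (by positivity)
    refine ⟨min (δ / 8) (ε₁ * a * η / 112), h0, min_le_left _ _, ?_⟩
    have h2 : min (δ / 8) (ε₁ * a * η / 112) ≤ ε₁ * a * η / 112 := min_le_right _ _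
    rw [div_le_iff₀ hη]
    linarith
  have hNn : ∀ x y : C₀(Γ, ℝ), 112 * δ₁ / η * ‖x - y‖ ≤ ε₁ * N (x - y) := by
    intro x y
    calc 112 * δ₁ / η * ‖x - y‖ ≤ ε₁ * a * ‖x - y‖ :=
          mul_le_mul_of_nonneg_right hδb (norm_nonneg _)
      _ = ε₁ * (a * ‖x - y‖) := by ring
      _ ≤ ε₁ * N (x - y) := mul_le_mul_of_nonneg_left (hN.lo _) hε₁.le
  choose H hH1 hHl hHc using fun i => hP i F hF ε₁ hε₁ δ₁ hδ₁
  choose R1 hR1c hR1m hR1l hR10 hR11 using fun i : I => exists_bump {γ | γ ∈ S ∧ rk γ = i}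
    (u := η / 32) (v := 5 * η / 32) (by positivity) (by linarith)
  choose R2 hR2c hR2m hR2l hR20 hR21 using fun i : I => exists_bump {γ | γ ∈ S ∧ rk γ = i}
    (u := 7 * η / 32) (v := 13 * η / 32) (by positivity) (by linarith)
  have hvl : ∀ (x y : C₀(Γ, ℝ)) (i : I), |H i (T x) - H i (T y)| ≤
      (1 + ε₁) * (1 + ε₁) * N (x - y) := by
    intro x y i
    refine (hHl i (T x) (T y)).trans ?_
    rw [mul_assoc]
    exact mul_le_mul_of_nonneg_left (hTl x y) (by linarith)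
  have hp1 : ∀ (x y : C₀(Γ, ℝ)) (i : I), |5 * δ₁ * (1 - R1 i x) - 5 * δ₁ * (1 - R1 i y)| ≤
      ε₁ * N (x - y) := by
    intro x y i
    have e : 5 * δ₁ * (1 - R1 i x) - 5 * δ₁ * (1 - R1 i y) = -(5 * δ₁ * (R1 i x - R1 i y)) := by
      ring
    rw [e, abs_neg, abs_mul, abs_of_pos (by positivity : (0 : ℝ) < 5 * δ₁)]
    refine (mul_le_mul_of_nonneg_left (hR1l i x y) (by positivity)).trans
      (le_trans ?_ (hNn x y))
    have e2 : 5 * δ₁ * (2 / (5 * η / 32 - η / 32) * ‖x - y‖) = 80 * δ₁ / η * ‖x - y‖ := by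
      field_simp
      ring
    rw [e2]
    refine mul_le_mul_of_nonneg_right ?_ (norm_nonneg _)
    exact div_le_div_of_nonneg_right (by linarith) hη.le
  have hw1 : ∀ (x y : C₀(Γ, ℝ)) (i : I), |3 * δ₁ - 7 * δ₁ * R2 i x - (3 * δ₁ - 7 * δ₁ * R2 i y)| ≤
      ε₁ * N (x - y) := by
    intro x y i
    have e : 3 * δ₁ - 7 * δ₁ * R2 i x - (3 * δ₁ - 7 * δ₁ * R2 i y) =
        -(7 * δ₁ * (R2 i x - R2 i y)) := by
      ring
    rw [e, abs_neg, abs_mul, abs_of_pos (by positivity : (0 : ℝ) < 7 * δ₁)]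
    refine (mul_le_mul_of_nonneg_left (hR2l i x y) (by positivity)).trans
      (le_trans ?_ (hNn x y))
    have e2 : 7 * δ₁ * (2 / (13 * η / 32 - 7 * η / 32) * ‖x - y‖) =
        (224 / 3) * δ₁ / η * ‖x - y‖ := by
      field_simp
      ring
    rw [e2]
    refine mul_le_mul_of_nonneg_right ?_ (norm_nonneg _)
    exact div_le_div_of_nonneg_right (by linarith) hη.le
  have hnom : ∀ x : C₀(Γ, ℝ), ∃ G : Finset I, Nom (fun i => H i (T x))
      (fun i => if i = ⊥ then 0 else 5 * δ₁ * (1 - R1 i x))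
      (fun i => 3 * δ₁ - 7 * δ₁ * R2 i x) (F (T x)) δ₁ G := by
    intro x
    exact stepB_nom (S := S) (rk := rk) hη hδ₁ x (fun i => H i (T x)) (fun i => R1 i x)
      (fun i => R2 i x) (fun i hi => hHc i (T x) (hTs x i hi)) (fun i => (hR1m i x).2)
      (fun i => hR10 i x) (fun i => hR11 i x) (fun i => hR20 i x) (fun i => hR21 i x)
  choose G hG using hnom
  obtain ⟨u, hu⟩ : ∃ u : C₀(Γ, ℝ) → I ⊕ I → ℝ, u = fun x => nomU (fun i => H i (T x))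
      (fun i => if i = ⊥ then 0 else 5 * δ₁ * (1 - R1 i x))
      (fun i => 3 * δ₁ - 7 * δ₁ * R2 i x) := ⟨_, rfl⟩
  have huC : ∀ j, ContDiff ℝ 1 (fun x => u x j) := by
    intro j
    rw [hu]
    rcases j with i | i
    · show ContDiff ℝ 1 (fun x => H i (T x) - if i = ⊥ then 0 else 5 * δ₁ * (1 - R1 i x))
      refine ((hH1 i).comp hT1).sub ?_
      by_cases hi : i = ⊥
      · simp only [hi, if_true]
        exact contDiff_const
      · simp only [hi, if_false]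
        exact contDiff_const.mul (contDiff_const.sub (hR1c i))
    · show ContDiff ℝ 1 (fun x => H i (T x) + (3 * δ₁ - 7 * δ₁ * R2 i x))
      exact ((hH1 i).comp hT1).add (contDiff_const.sub (contDiff_const.mul (hR2c i)))
  have huL : ∀ x y j, |u x j - u y j| ≤ (1 + ε) * N (x - y) := by
    intro x y j
    have hNN := hN.nonneg (x - y)
    have h0 : (1 + ε₁) * (1 + ε₁) * N (x - y) + ε₁ * N (x - y) ≤ (1 + ε) * N (x - y) := by
      rw [← add_mul]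
      exact mul_le_mul_of_nonneg_right hε₁' hNN
    have hv := hvl x y
    rw [hu]
    rcases j with i | i
    · show |(H i (T x) - if i = ⊥ then 0 else 5 * δ₁ * (1 - R1 i x)) -
        (H i (T y) - if i = ⊥ then 0 else 5 * δ₁ * (1 - R1 i y))| ≤ _
      by_cases hi : i = ⊥
      · simp only [if_pos hi, sub_zero]
        refine (hv i).trans (le_trans ?_ h0)
        have : 0 ≤ ε₁ * N (x - y) := mul_nonneg hε₁.le hNN
        linarith
      · simp only [if_neg hi]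
        have e : H i (T x) - 5 * δ₁ * (1 - R1 i x) - (H i (T y) - 5 * δ₁ * (1 - R1 i y)) =
          (H i (T x) - H i (T y)) - (5 * δ₁ * (1 - R1 i x) - 5 * δ₁ * (1 - R1 i y)) := by ring
        rw [e]
        exact (abs_sub _ _).trans ((add_le_add (hv i) (hp1 x y i)).trans h0)
    · show |(H i (T x) + (3 * δ₁ - 7 * δ₁ * R2 i x)) -
        (H i (T y) + (3 * δ₁ - 7 * δ₁ * R2 i y))| ≤ _
      have e : H i (T x) + (3 * δ₁ - 7 * δ₁ * R2 i x) - (H i (T y) + (3 * δ₁ - 7 * δ₁ * R2 i y)) =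
        (H i (T x) - H i (T y)) + (3 * δ₁ - 7 * δ₁ * R2 i x - (3 * δ₁ - 7 * δ₁ * R2 i y)) := by
        ring
      rw [e]
      exact (abs_add_le _ _).trans ((add_le_add (hv i) (hw1 x y i)).trans h0)
  have hD : ∀ x : C₀(Γ, ℝ), Tendsto (fun y => (1 + ε) * N (y - x)) (𝓝 x) (𝓝 0) := by
    intro x
    have h1 : Tendsto (fun y : C₀(Γ, ℝ) => (1 + ε) * (b * ‖y - x‖)) (𝓝 x) (𝓝 0) := by
      have hc : Continuous (fun y : C₀(Γ, ℝ) => (1 + ε) * (b * ‖y - x‖)) := by fun_prop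
      have := hc.tendsto x
      simpa using this
    refine squeeze_zero (fun y => mul_nonneg (by linarith) (hN.nonneg _)) (fun y => ?_) h1
    exact mul_le_mul_of_nonneg_left (hN.hi _) (by linarith)
  obtain ⟨h, hh1, hh2, hh3⟩ := ss (fun x y => (1 + ε) * N (x - y)) hD u huC huL MM
    (τ := δ₁ / 4) (by positivity)
    (by
      intro x y p q ρ hp hq hpq
      rw [hu] at hp hq
      exact mm_lip hδ₁ (hG x) (hG y) hp hq hpq)
    (by
      intro x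
      refine ⟨(G x).disjSum (G x), fun p q hp hq hpq => ?_⟩
      rw [hu] at hp hq
      exact mm_loc hδ₁ (hG x) hp hq (fun i hi =>
        ⟨hpq _ (Finset.inl_mem_disjSum.2 hi), hpq _ (Finset.inr_mem_disjSum.2 hi)⟩))
  refine ⟨h, hh1, hh2, fun x hx => ?_⟩
  have k1 := hh3 x
  have k2 : |MM (u x) - F (T x)| ≤ 2 * δ₁ := by
    refine mm_near hδ₁ (hG x) (fun j => ?_)
    rw [hu]
    simp only [sub_self, abs_zero]
    positivity
  have k3 : |F (T x) - F x| ≤ δ / 2 := by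
    refine (hF (T x) x).trans ?_
    rw [one_mul]
    refine (hN.hi _).trans ((mul_le_mul_of_nonneg_left (hTc x hx) hb.le).trans (le_of_eq ?_))
    field_simp
  have e : h x - F x = (h x - MM (u x)) + (MM (u x) - F (T x)) + (F (T x) - F x) := by ring
  rw [e]
  refine (abs_add_three _ _ _).trans ?_
  linarith

end C0G
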