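import Pool.Agent.Lib.MP_85fd23_an.StepA
import Pool.Agent.Lib.MP_85fd23_an.StepB
import Pool.Agent.Lib.MP_85fd23_an.Chain
import Pool.Agent.Lib.MP_85fd23_an.Next

/-!
C0G row MAIN.  Induction on the cardinality, and the theorem for c_0(Γ).

Main: well-founded induction on #S (Cardinal.lt_wf, generalizing S): countable S: stepA; uncountable:
exists_chain, stepB.  S = univ is closed.  approx: scaling F/L for L > 0; L = 0: F constant.
-/

set_option linter.unusedSectionVars false

namespace C0G

open scoped ZeroAtInfty Topology BigOperators Cardinal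
open Filter Set Cardinal

universe u

variable {Γ : Type u} [TopologicalSpace Γ] [DiscreteTopology Γ]

theorem PP_all {N : C₀(Γ, ℝ) → ℝ} {a b : ℝ} (hN : EqN N a b) {nx : Finset Γ → ℕ → Finset Γ}
    (hnx : NX N nx) {S : Set Γ} (hS : Cld nx S) : PP N S := by
  suffices H : ∀ c : Cardinal.{u}, ∀ S : Set Γ, #S = c → Cld nx S → PP N S from H _ S rfl hS
  intro c
  induction c using WellFoundedLT.induction with
  | _ c ih =>
    intro S hc hS
    by_cases h : ℵ₀ < #S
    · obtain ⟨I, _, _, Sx, rk, hch, hcard⟩ := exists_chain nx hS h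
      refine stepB hN hnx hS hch ?_
      intro i
      exact ih _ (by rw [← hc]; exact hcard i) (Sx i) rfl (hch.cld i)
    · exact stepA hN hnx hS (Cardinal.le_aleph0_iff_set_countable.1 (not_lt.1 h))

theorem approx {N : C₀(Γ, ℝ) → ℝ} {a b : ℝ} (hN : EqN N a b) {F : C₀(Γ, ℝ) → ℝ} {L : ℝ} (hL : 0 ≤ L)
    (hF : NL N L F) {ε δ : ℝ} (hε : 0 < ε) (hδ : 0 < δ) :
    ∃ h : C₀(Γ, ℝ) → ℝ, ContDiff ℝ 1 h ∧ NL N ((1 + ε) * L) h ∧ ∀ x, |h x - F x| ≤ δ := by
  rcases hL.eq_or_lt with h0 | h0
  · refine ⟨fun _ => F 0, contDiff_const, ?_, ?_⟩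
    · intro x y
      rw [← h0]
      simp
    · intro x
      have h1 := hF 0 x
      rw [← h0, zero_mul] at h1
      exact h1.trans hδ.le
  · obtain ⟨nx, hnx⟩ := exists_nx hN
    have hC : Cld nx (univ : Set Γ) := fun G _ _ n => subset_univ _
    have hF' : NL N 1 (fun x => F x / L) := by
      intro x y
      have h1 := hF x y
      rw [one_mul]
      have e : F x / L - F y / L = (F x - F y) / L := by ring
      show |F x / L - F y / L| ≤ N (x - y)
      rw [e, abs_div, abs_of_pos h0, div_le_iff₀ h0, mul_comm]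
      exact h1
    obtain ⟨H, h1, h2, h3⟩ := PP_all hN hnx hC _ hF' ε hε (δ / L) (div_pos hδ h0)
    refine ⟨fun x => L * H x, contDiff_const.mul h1, ?_, ?_⟩
    · intro x y
      have h4 := h2 x y
      show |L * H x - L * H y| ≤ (1 + ε) * L * N (x - y)
      have e : L * H x - L * H y = L * (H x - H y) := by ring
      rw [e, abs_mul, abs_of_pos h0]
      calc L * |H x - H y| ≤ L * ((1 + ε) * N (x - y)) := mul_le_mul_of_nonneg_left h4 h0.le
        _ = (1 + ε) * L * N (x - y) := by ring
    · intro x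
      have h4 := h3 x (fun γ hγ => absurd (mem_univ γ) hγ)
      have e : L * H x - F x = L * (H x - F x / L) := by field_simp
      show |L * H x - F x| ≤ δ
      rw [e, abs_mul, abs_of_pos h0]
      calc L * |H x - F x / L| ≤ L * (δ / L) := mul_le_mul_of_nonneg_left h4 h0.le
        _ = δ := by field_simp

end C0G
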