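import Pool.Agent.Lib.MP_85fd23_an.Smo

/-!
C0G row SS.  Smoothing of M (u x), u x : J → ℝ a family of equi-Lipschitz C^1 functions of x, M
1-Lipschitz for the sup distance and locally dependent on finitely many values.

Proof.  s = τ/2, Φ x ξ = M (fun j => u x j + ξ j), h x = SMO s (Φ x).  Fix x₀, F = F(x₀), and
G t = M (fun j => if h : j ∈ F then max (u x₀ j - τ) (min (u x₀ j + τ) (t ⟨j,h⟩)) else u x₀ j):
G is 1-Lipschitz for the sup norm of F → ℝ by hM (x = y = x₀).  For x near x₀ (D x x₀ ≤ τ/2, by hD)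
and |ξ| ≤ τ/2 the family p = u x + ξ is τ-close to u x₀ and agrees on F with the clamped extension of
its restriction, so Φ x ξ = G (p|F) by hF.  This gives tameness (x = x₀) and smo_C1
(a x = (u x j)_{j in F}, contDiffAt_pi).  Lipschitz: smo_le with hM (p = u x + ξ, q = u y + ξ,
ρ = D x y).  Closeness: smo_le / smo_const with hM (x = y, p = u x + ξ, q = u x, ρ = τ/2).
-/

set_option linter.unusedSectionVars false

namespace C0G

open scoped ZeroAtInfty Topology BigOperators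
open Filter Set MeasureTheory

private theorem ss_clamp {c τ : ℝ} (hτ : 0 ≤ τ) (t : ℝ) :
    |max (c - τ) (min (c + τ) t) - c| ≤ τ := by
  rw [abs_le]
  constructor
  · linarith [le_max_left (c - τ) (min (c + τ) t)]
  · have h1 : max (c - τ) (min (c + τ) t) ≤ c + τ :=
      max_le (by linarith) (min_le_left _ _)
    linarith

private theorem ss_clamp_eq {c τ t : ℝ} (h : |t - c| ≤ τ) :
    max (c - τ) (min (c + τ) t) = t := by
  obtain ⟨h1, h2⟩ := abs_le.1 h
  rw [min_eq_right (by linarith), max_eq_right (by linarith)]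

private theorem ss_clamp_lip (c τ t t' : ℝ) :
    |max (c - τ) (min (c + τ) t) - max (c - τ) (min (c + τ) t')| ≤ |t - t'| := by
  have h1 := abs_max_sub_max_le_abs (min (c + τ) t) (min (c + τ) t') (c - τ)
  have h2 := abs_min_sub_min_le_max (c + τ) t (c + τ) t'
  rw [max_comm (c - τ), max_comm (c - τ)]
  refine h1.trans (h2.trans ?_)
  rw [sub_self, abs_zero]
  exact max_le (abs_nonneg _) le_rfl

theorem ss {E : Type*} [NormedAddCommGroup E] [NormedSpace ℝ E] {J : Type*} (D : E → E → ℝ)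
    (hD : ∀ x, Tendsto (fun y => D y x) (𝓝 x) (𝓝 0)) (u : E → J → ℝ)
    (hu : ∀ j, ContDiff ℝ 1 (fun x => u x j)) (hL : ∀ x y j, |u x j - u y j| ≤ D x y)
    (M : (J → ℝ) → ℝ) {τ : ℝ} (hτ : 0 < τ)
    (hM : ∀ (x y : E) (p q : J → ℝ) (ρ : ℝ), (∀ j, |p j - u x j| ≤ τ) → (∀ j, |q j - u y j| ≤ τ) →
      (∀ j, |p j - q j| ≤ ρ) → |M p - M q| ≤ ρ)
    (hF : ∀ x : E, ∃ F : Finset J, ∀ p q : J → ℝ, (∀ j, |p j - u x j| ≤ τ) →
      (∀ j, |q j - u x j| ≤ τ) → (∀ j ∈ F, p j = q j) → M p = M q) :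
    ∃ h : E → ℝ, ContDiff ℝ 1 h ∧ (∀ x y, |h x - h y| ≤ D x y) ∧ ∀ x, |h x - M (u x)| ≤ τ := by
  classical
  have hs : 0 < τ / 2 := by positivity
  choose F hF' using hF
  obtain ⟨Φ, hΦ⟩ : ∃ Φ : E → (J →₀ ℝ) → ℝ, Φ = fun x ξ => M (fun j => u x j + ξ j) := ⟨_, rfl⟩
  obtain ⟨ex, hex⟩ : ∃ ex : (x : E) → (F x → ℝ) → J → ℝ, ex = fun x t j =>
    if h : j ∈ F x then max (u x j - τ) (min (u x j + τ) (t ⟨j, h⟩)) else u x j := ⟨_, rfl⟩
  have hex1 : ∀ x t j, |ex x t j - u x j| ≤ τ := by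
    intro x t j
    rw [hex]
    by_cases h : j ∈ F x
    · simp only [h, dite_true]
      exact ss_clamp hτ.le _
    · simp only [h, dite_false, sub_self, abs_zero]
      exact hτ.le
  obtain ⟨G, hG⟩ : ∃ G : (x : E) → (F x → ℝ) → ℝ, G = fun x t => M (ex x t) := ⟨_, rfl⟩
  have hGc : ∀ x, Continuous (G x) := by
    intro x
    have h1 : LipschitzWith 1 (G x) := by
      refine LipschitzWith.of_dist_le_mul fun t t' => ?_
      rw [Real.dist_eq, dist_eq_norm, NNReal.coe_one, one_mul, hG]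
      refine hM x x _ _ _ (hex1 x t) (hex1 x t') fun j => ?_
      rw [hex]
      by_cases h : j ∈ F x
      · simp only [h, dite_true]
        refine (ss_clamp_lip _ _ _ _).trans ?_
        have h2 := norm_le_pi_norm (t - t') ⟨j, h⟩
        rwa [Pi.sub_apply, Real.norm_eq_abs] at h2
      · simp only [h, dite_false, sub_self, abs_zero]
        exact norm_nonneg _
    exact h1.continuous
  have hkey : ∀ x₀ x : E, (∀ j, |u x j - u x₀ j| ≤ τ / 2) → ∀ ξ : J →₀ ℝ,
      (∀ j, |ξ j| ≤ τ / 2) → Φ x ξ = G x₀ (fun j => u x j + ξ j) := by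
    intro x₀ x hx ξ hξ
    rw [hΦ, hG]
    have h1 : ∀ j, |(u x j + ξ j) - u x₀ j| ≤ τ := by
      intro j
      have h2 : (u x j + ξ j) - u x₀ j = (u x j - u x₀ j) + ξ j := by ring
      rw [h2]
      refine (abs_add_le _ _).trans ?_
      linarith [hx j, hξ j]
    refine hF' x₀ _ _ h1 (hex1 x₀ _) fun j hj => ?_
    rw [hex]
    simp only [hj, dite_true]
    exact (ss_clamp_eq (h1 j)).symm
  have htame : ∀ x, Tame (τ / 2) (Φ x) := fun x =>
    ⟨F x, fun t => G x ((fun j : F x => u x j) + t),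
      (hGc x).comp (continuous_const.add continuous_id), fun ξ hξ =>
      hkey x x (fun j => by rw [sub_self, abs_zero]; exact hs.le) ξ hξ⟩
  have hconst : ∀ c : ℝ, Tame (τ / 2) (fun _ : J →₀ ℝ => c) := fun c =>
    ⟨∅, fun _ => c, continuous_const, fun _ _ => rfl⟩
  have hle : ∀ x y, ∀ ρ, (∀ j, |u x j - u y j| ≤ ρ) →
      SMO (τ / 2) (Φ x) ≤ SMO (τ / 2) (Φ y) + ρ := by
    intro x y ρ hρ
    refine smo_le hs (htame x) (htame y) fun ξ hξ => ?_
    have h1 : ∀ z : E, ∀ j, |(u z j + ξ j) - u z j| ≤ τ := fun z j => by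
      rw [add_sub_cancel_left]
      linarith [hξ j]
    have h2 := hM x y (fun j => u x j + ξ j) (fun j => u y j + ξ j) ρ (h1 x) (h1 y) (fun j => by
      have h3 : u x j + ξ j - (u y j + ξ j) = u x j - u y j := by ring
      rw [h3]
      exact hρ j)
    rw [hΦ]
    simp only
    linarith [(abs_le.1 h2).2]
  refine ⟨fun x => SMO (τ / 2) (Φ x), ?_, ?_, ?_⟩
  · rw [contDiff_iff_contDiffAt]
    intro x₀
    refine smo_C1 hs Φ x₀ (F x₀) (G x₀) (hGc x₀) (fun x j => u x j)
      (contDiffAt_pi.2 fun j => (hu j).contDiffAt) ?_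
    filter_upwards [(hD x₀).eventually_lt_const hs] with x hx ξ hξ
    exact hkey x₀ x (fun j => (hL x x₀ j).trans hx.le) ξ hξ
  · intro x y
    have h1 := hle x y (D x y) (hL x y)
    have h2 := hle y x (D x y) (fun j => by rw [abs_sub_comm]; exact hL x y j)
    rw [abs_le]
    constructor <;> linarith
  · intro x
    have hcl : ∀ ξ : J →₀ ℝ, (∀ j, |ξ j| ≤ τ / 2) → |Φ x ξ - M (u x)| ≤ τ / 2 := by
      intro ξ hξ
      rw [hΦ]
      refine hM x x _ _ _ (fun j => ?_) (fun j => ?_) (fun j => ?_)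
      · rw [add_sub_cancel_left]
        linarith [hξ j]
      · rw [sub_self, abs_zero]
        exact hτ.le
      · rw [add_sub_cancel_left]
        exact hξ j
    have h1 := smo_le hs (htame x) (hconst (M (u x))) (c := τ / 2) fun ξ hξ => by
      linarith [(abs_le.1 (hcl ξ hξ)).2]
    have h2 := smo_le hs (hconst (M (u x))) (htame x) (c := τ / 2) fun ξ hξ => by
      linarith [(abs_le.1 (hcl ξ hξ)).1]
    rw [smo_const hs] at h1 h2
    rw [abs_le]
    constructor <;> linarith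

end C0G
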