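import Pool.Agent.Lib.MP_85fd23_an.Avg

/-!
C0G row SLOWMUL.  Multipliers that decrease slowly along a sparse chain of finite sets are almost
N-contractive.

Proof.  c_j = μ j - μ (j+1) for j < n, where μ j = 0 for j ≥ n.  rk γ = least j with γ ∈ G j (hrk).
Σ_{j<n} c_j pr (G j) v has at γ with rk γ = r the value (Σ_{r ≤ j < n} c_j) v γ = (μ r - μ n) v γ =
μ r v γ if r ≤ n, and 0 = μ r v γ if r > n; for γ outside ⋃ G j both are 0.  So mul m v is this sum; avg.
-/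

set_option linter.unusedSectionVars false

namespace C0G

open scoped ZeroAtInfty Topology BigOperators
open Filter Set

universe u

variable {Γ : Type u} [TopologicalSpace Γ] [DiscreteTopology Γ]

private theorem SlowMul_sum_apply {ι : Type*} (s : Finset ι) (f : ι → C₀(Γ, ℝ)) (γ : Γ) :
    (∑ i ∈ s, f i) γ = ∑ i ∈ s, f i γ := by
  classical
  induction s using Finset.induction_on with
  | empty => simp
  | insert i s hi ih =>
    rw [Finset.sum_insert hi, Finset.sum_insert hi, ← ih]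
    rfl

private theorem SlowMul_tele (μ : ℕ → ℝ) (r : ℕ) : ∀ n : ℕ, r ≤ n →
    ∑ j ∈ (Finset.range n).filter (fun j => r ≤ j), (μ j - μ (j + 1)) = μ r - μ n := by
  intro n hn
  induction n, hn using Nat.le_induction with
  | base =>
    rw [Finset.filter_false_of_mem, Finset.sum_empty, sub_self]
    intro j hj
    exact not_le.2 (Finset.mem_range.1 hj)
  | succ n hn ih =>
    rw [Finset.range_add_one, Finset.filter_insert, if_pos hn, Finset.sum_insert, ih]
    · ring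
    · intro h
      exact lt_irrefl n (Finset.mem_range.1 (Finset.mem_filter.1 h).1)

theorem slow_mul {N : C₀(Γ, ℝ) → ℝ} {a b : ℝ} (hN : EqN N a b) (G : ℕ → Finset Γ) {ρ κ : ℝ}
    (hρ0 : 0 ≤ ρ) (hρ : ρ ≤ 1) (hκ : 0 ≤ κ) (hG : ∀ j, G j ⊆ G (j + 1))
    (hn : ∀ j, ∀ x, ∃ y, Sup (G (j + 1) : Set Γ) y ∧
      pr (G j : Set Γ) y = pr (G j : Set Γ) x ∧ N y ≤ (1 + ρ) * N x)
    {S : Set Γ} (hS : ∀ γ, γ ∈ S ↔ ∃ j, γ ∈ G j) (rk : Γ → ℕ)
    (hrk : ∀ γ ∈ S, ∀ j, γ ∈ G j ↔ rk γ ≤ j) (μ : ℕ → ℝ) (h0 : ∀ j, 0 ≤ μ j) (h1 : μ 0 ≤ 1)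
    (hanti : ∀ j, μ (j + 1) ≤ μ j) (hslow : ∀ j, μ j - μ (j + 1) ≤ κ) {n : ℕ}
    (hz : ∀ j, n ≤ j → μ j = 0) (m : Γ → ℝ) (hm : ∀ γ ∈ S, m γ = μ (rk γ)) (hm' : ∀ γ ∉ S, m γ = 0)
    (v : C₀(Γ, ℝ)) : N (mul m v) ≤ (1 + ρ + 2 * (b / a) * κ) * N v := by
  classical
  have hmono : ∀ i j, i ≤ j → μ j ≤ μ i := fun i j h => antitone_nat_of_succ_le hanti h
  have hsum : ∑ j ∈ Finset.range n, (μ j - μ (j + 1)) ≤ 1 := by
    rw [Finset.sum_range_sub']
    have := h0 n
    linarith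
  have key : mul m v = ∑ j ∈ Finset.range n, (μ j - μ (j + 1)) • pr (G j : Set Γ) v := by
    ext γ
    rw [SlowMul_sum_apply, mul_apply]
    by_cases hγ : γ ∈ S
    · rw [hm γ hγ, cl_eq (h0 _) ((hmono 0 _ (Nat.zero_le _)).trans h1)]
      have e1 : ∀ j ∈ Finset.range n, ((μ j - μ (j + 1)) • pr (G j : Set Γ) v) γ =
          if rk γ ≤ j then (μ j - μ (j + 1)) * v γ else 0 := by
        intro j _
        change (μ j - μ (j + 1)) * pr (G j : Set Γ) v γ = _
        by_cases hj : rk γ ≤ j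
        · rw [if_pos hj, pr_of_mem (Finset.mem_coe.2 ((hrk γ hγ j).2 hj))]
        · rw [if_neg hj, pr_of_notMem (fun h => hj ((hrk γ hγ j).1 (Finset.mem_coe.1 h))),
            mul_zero]
      rw [Finset.sum_congr rfl e1, ← Finset.sum_filter, ← Finset.sum_mul]
      congr 1
      rcases le_total (rk γ) n with h | h
      · rw [SlowMul_tele μ (rk γ) n h, hz n le_rfl, sub_zero]
      · rw [hz _ h, Finset.filter_false_of_mem, Finset.sum_empty]
        intro j hj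
        exact not_le.2 (lt_of_lt_of_le (Finset.mem_range.1 hj) h)
    · rw [hm' γ hγ, cl_of_le_zero le_rfl, zero_mul]
      symm
      refine Finset.sum_eq_zero ?_
      intro j _
      change (μ j - μ (j + 1)) * pr (G j : Set Γ) v γ = 0
      rw [pr_of_notMem (fun h => hγ ((hS γ).2 ⟨j, Finset.mem_coe.1 h⟩)), mul_zero]
  rw [key]
  exact avg hN G n hρ0 hρ hκ hG (fun j _ x => hn j x) (fun j => μ j - μ (j + 1))
    (fun j => sub_nonneg.2 (hanti j)) hsum (fun j _ => hslow j) v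

end C0G
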