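import Pool.Agent.Lib.MP_85fd23_an.Kern

/-!
C0G row SMO.  SMO s φ = average of φ over finitely supported perturbations with independent
coordinates of law nu s.  A function φ is tame if for perturbations of size at most s it is a
continuous function G of the coordinates in a finite set A.

smo_eq: for every finite B containing A, for almost every ω (infinitePi measure; |ω j| ≤ s for all
j in B almost surely, by Measure.infinitePi_map_eval / measurePreserving_eval_infinitePi and nu_ae)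
φ (indicator_B ω) = G (ω restricted to A); so the net is eventually constant, equal to
∫ G (ω|A) d(infinitePi) = ∫ G d(Measure.pi) by Measure.infinitePi_map_restrict (law of the restriction).
smo_le: take a finite set containing the two sets A, use smo_eq for both (with G composed with the
restriction) or compare the two eventually constant nets (le_of_tendsto_of_tendsto); integrability:
G is continuous, hence bounded on the cube [-s,s]^A which carries the measure.
smo_C1: near x₀ SMO s (Φ x) = ∫ G (a x + t) dpi (smo_eq with G(a x + ·)), compose kern_C1 with a.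
-/

set_option linter.unusedSectionVars false

namespace C0G

open scoped ZeroAtInfty Topology BigOperators
open Filter Set MeasureTheory

variable {J : Type*}

noncomputable def SMO (s : ℝ) (φ : (J →₀ ℝ) → ℝ) : ℝ :=
  limUnder atTop (fun A : Finset J =>
    ∫ ω, φ (Finsupp.indicator A fun j _ => ω j) ∂(Measure.infinitePi fun _ : J => nu s))

def Tame (s : ℝ) (φ : (J →₀ ℝ) → ℝ) : Prop :=
  ∃ (A : Finset J) (G : (A → ℝ) → ℝ), Continuous G ∧
    ∀ ξ : J →₀ ℝ, (∀ j, |ξ j| ≤ s) → φ ξ = G (fun j => ξ j)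

private theorem smo_ae {s : ℝ} (hs : 0 < s) (B : Finset J) :
    ∀ᵐ ω ∂(Measure.infinitePi fun _ : J => nu s), ∀ j ∈ B, |ω j| ≤ s := by
  rw [Filter.eventually_all_finset]
  intro j _
  exact (measurePreserving_eval_infinitePi (fun _ : J => nu s) j).quasiMeasurePreserving.ae
    (nu_ae hs)

private theorem smo_ae_pi {s : ℝ} (hs : 0 < s) (B : Finset J) :
    ∀ᵐ t ∂(Measure.pi fun _ : B => nu s), ∀ j, |t j| ≤ s := by
  rw [ae_all_iff]
  intro j
  exact (measurePreserving_eval (fun _ : B => nu s) j).quasiMeasurePreserving.ae (nu_ae hs)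

private theorem smo_ind {s : ℝ} (hs : 0 < s) (B : Finset J) (f : (j : J) → j ∈ B → ℝ)
    (hf : ∀ j hj, |f j hj| ≤ s) (j : J) : |Finsupp.indicator B f j| ≤ s := by
  classical
  rw [Finsupp.indicator_apply]
  split_ifs with h
  · exact hf j h
  · rw [abs_zero]
    exact hs.le

private theorem smo_int {s : ℝ} (hs : 0 < s) {φ : (J →₀ ℝ) → ℝ} {A : Finset J}
    {G : (A → ℝ) → ℝ} (hG : Continuous G)
    (h : ∀ ξ : J →₀ ℝ, (∀ j, |ξ j| ≤ s) → φ ξ = G (fun j => ξ j)) (B : Finset J) (hB : A ⊆ B) :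
    ∫ ω, φ (Finsupp.indicator B fun j _ => ω j) ∂(Measure.infinitePi fun _ : J => nu s) =
      ∫ t, G t ∂(Measure.pi fun _ : A => nu s) := by
  classical
  have h1 : ∀ᵐ ω ∂(Measure.infinitePi fun _ : J => nu s),
      φ (Finsupp.indicator B fun j _ => ω j) = G (A.restrict ω) := by
    filter_upwards [smo_ae hs B] with ω hω
    rw [h _ (smo_ind hs B (fun j _ => ω j) fun j hj => hω j hj)]
    congr 1
    funext j
    rw [Finsupp.indicator_apply, dif_pos (hB j.2)]
    rfl
  rw [integral_congr_ae h1, ← Measure.infinitePi_map_restrict (fun _ : J => nu s) (I := A),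
    integral_map (Finset.measurable_restrict A).aemeasurable hG.aestronglyMeasurable]

theorem smo_eq {s : ℝ} (hs : 0 < s) {φ : (J →₀ ℝ) → ℝ} {A : Finset J} {G : (A → ℝ) → ℝ}
    (hG : Continuous G) (h : ∀ ξ : J →₀ ℝ, (∀ j, |ξ j| ≤ s) → φ ξ = G (fun j => ξ j)) :
    SMO s φ = ∫ t, G t ∂(Measure.pi fun _ : A => nu s) := by
  refine Tendsto.limUnder_eq ?_
  refine tendsto_const_nhds.congr' ?_
  filter_upwards [eventually_ge_atTop A] with B hB
  exact (smo_int hs hG h B hB).symm

private theorem smo_integrable {s : ℝ} (hs : 0 < s) (B : Finset J) {G : (B → ℝ) → ℝ}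
    (hG : Continuous G) : Integrable G (Measure.pi fun _ : B => nu s) := by
  obtain ⟨M, hM⟩ := (isCompact_univ_pi fun _ : B =>
    (isCompact_Icc : IsCompact (Icc (-s) s))).exists_bound_of_continuousOn hG.continuousOn
  refine Integrable.of_bound hG.aestronglyMeasurable M ?_
  filter_upwards [smo_ae_pi hs B] with t ht
  exact hM t fun j _ => abs_le.1 (ht j)

theorem smo_le {s : ℝ} (hs : 0 < s) {φ ψ : (J →₀ ℝ) → ℝ} (hφ : Tame s φ) (hψ : Tame s ψ) {c : ℝ}
    (h : ∀ ξ : J →₀ ℝ, (∀ j, |ξ j| ≤ s) → φ ξ ≤ ψ ξ + c) : SMO s φ ≤ SMO s ψ + c := by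
  classical
  obtain ⟨A, G, hG, hA⟩ := hφ
  obtain ⟨A', G', hG', hA'⟩ := hψ
  set B : Finset J := A ∪ A' with hB
  have hAB : ∀ j : A, j.1 ∈ B := fun j => Finset.mem_union_left _ j.2
  have hAB' : ∀ j : A', j.1 ∈ B := fun j => Finset.mem_union_right _ j.2
  let G1 : (B → ℝ) → ℝ := fun t => G fun j => t ⟨j.1, hAB j⟩
  let G2 : (B → ℝ) → ℝ := fun t => G' fun j => t ⟨j.1, hAB' j⟩
  have hG1 : Continuous G1 := hG.comp (continuous_pi fun j => continuous_apply _)
  have hG2 : Continuous G2 := hG'.comp (continuous_pi fun j => continuous_apply _)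
  have h1 : ∀ ξ : J →₀ ℝ, (∀ j, |ξ j| ≤ s) → φ ξ = G1 (fun j => ξ j) := fun ξ hξ => hA ξ hξ
  have h2 : ∀ ξ : J →₀ ℝ, (∀ j, |ξ j| ≤ s) → ψ ξ = G2 (fun j => ξ j) := fun ξ hξ => hA' ξ hξ
  rw [smo_eq hs hG1 h1, smo_eq hs hG2 h2]
  have h3 : ∀ᵐ t ∂(Measure.pi fun _ : B => nu s), G1 t ≤ G2 t + c := by
    filter_upwards [smo_ae_pi hs B] with t ht
    have h4 := smo_ind hs B (fun j hj => t ⟨j, hj⟩) fun j hj => ht ⟨j, hj⟩
    have h5 : (fun j : B => (Finsupp.indicator B fun j hj => t ⟨j, hj⟩) j) = t := by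
      funext j
      rw [Finsupp.indicator_apply, dif_pos j.2]
    have h6 := h _ h4
    rw [h1 _ h4, h2 _ h4, h5] at h6
    exact h6
  have hi1 := smo_integrable hs B hG1
  have hi2 := smo_integrable hs B hG2
  calc ∫ t, G1 t ∂(Measure.pi fun _ : B => nu s) ≤
        ∫ t, (G2 t + c) ∂(Measure.pi fun _ : B => nu s) :=
        integral_mono_ae hi1 (hi2.add (integrable_const c)) h3
    _ = ∫ t, G2 t ∂(Measure.pi fun _ : B => nu s) + c := by
        rw [integral_add hi2 (integrable_const c), integral_const]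
        simp

theorem smo_const {s : ℝ} (hs : 0 < s) (c : ℝ) : SMO s (fun _ : J →₀ ℝ => c) = c := by
  rw [smo_eq hs (A := ∅) (G := fun _ => c) continuous_const fun _ _ => rfl, integral_const]
  simp

theorem smo_C1 {E : Type*} [NormedAddCommGroup E] [NormedSpace ℝ E] {s : ℝ} (hs : 0 < s)
    (Φ : E → (J →₀ ℝ) → ℝ) (x₀ : E) (A : Finset J) (G : (A → ℝ) → ℝ) (hG : Continuous G)
    (a : E → A → ℝ) (ha : ContDiffAt ℝ 1 a x₀)
    (h : ∀ᶠ x in 𝓝 x₀, ∀ ξ : J →₀ ℝ, (∀ j, |ξ j| ≤ s) → Φ x ξ = G (fun j => a x j + ξ j)) :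
    ContDiffAt ℝ 1 (fun x => SMO s (Φ x)) x₀ := by
  have h1 := (kern_C1 hs hG).contDiffAt.comp x₀ ha
  refine h1.congr_of_eventuallyEq ?_
  filter_upwards [h] with x hx
  have h2 : Continuous fun t : A → ℝ => G (a x + t) := hG.comp (continuous_const.add continuous_id)
  exact smo_eq hs h2 hx

end C0G
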