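import Pool.Agent.Lib.MP_85fd23_an.SlowMul
import Pool.Agent.Lib.MP_85fd23_an.TLip
import Pool.Agent.Lib.MP_85fd23_an.Theta
import Pool.Agent.Lib.MP_85fd23_an.GateRob

/-!
C0G row STEPA.  The countable case.

exists_seq: S countable, closed, nonempty; e : ℕ → Γ with range S; G 0 = {e 0},
G (j+1) = G j ∪ nx (G j) n ∪ {e j}.
stepA: S empty: H = constant F 0.  Else choose n, κ: ρ = 1/(n+1) ≤ ε/4, 2 (b/a) κ^2 ≤ ε/4,
(b/a) 2 κ ≤ ε/4, κ ≤ 1.  η > 0 with b (η e^{1/κ}) ≤ δ/2; rk γ = least j with γ ∈ G j.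
Weights w_j(γ') = exp(-κ (j - rk γ')_+) for γ' ∈ S, 0 otherwise; m x γ = th κ η (gt (w_{rk γ}) x) for
γ ∈ S, 0 otherwise; T x = mul (m x) x.
Linear bound: μ j = th κ η (gt w_j x): nonincreasing in j (weights decrease: th_mono), μ j - μ (j+1) ≤ κ^2
(w_{j+1} ≥ e^{-κ} w_j: th_slow with c = κ), μ j = 0 for large j: gt w_j x ≤ η for large j as only finitely
many |x γ'| > η, and the weights of these tend to 0.  slow_mul gives c = 1 + ρ + 2 (b/a) κ^2.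
Variation: ‖x-y‖ ≤ η/4: th_mul with s = gt .. x, t = gt .. y, |y γ| ≤ gt w_{rk γ} y (weight 1 at γ):
e = 2κ.  T_lip: N(T x - T y) ≤ (1+ε) N(x-y).  So NL N (1+ε) (F ∘ T).
Rob s (F ∘ T), s = η/8: x₀ given, A₀ = {|x₀ γ| ≥ η/2}, R = ‖x₀‖ + η; choose k with exp(-κ (k - rk γ')) R ≤ η
for all γ' ∈ A₀ ∩ S; A = A₀ ∪ G k.  y, z in the ball of radius 2 s = η/4, y = z on A: for every γ ∈ S
max (gt w y) η = max (gt w z) η (gt_max), so the multipliers are equal (th = 0 below η); if rk γ > k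
the gate is ≤ η and both T-coordinates are 0; if rk γ ≤ k then γ ∈ G k ⊆ A and y γ = z γ.  T y = T z.
H = sm s' (F ∘ T) with s' ≤ s and (1+ε) b s' ≤ δ/2 (Rob s' from Rob s: smaller radius, same proof or
monotonicity); ts.  For x supported in S: |T x γ - x γ| ≤ η e^{1/κ}: if |x γ| ≥ η e^{1/κ} the
multiplier is 1 (th_one).  |F (T x) - F x| ≤ N(T x - x) ≤ b η e^{1/κ} ≤ δ/2.
-/

set_option linter.unusedSectionVars false

namespace C0G

open scoped ZeroAtInfty Topology BigOperators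
open Filter Set

universe u

variable {Γ : Type u} [TopologicalSpace Γ] [DiscreteTopology Γ]

theorem exists_seq {nx : Finset Γ → ℕ → Finset Γ} {N : C₀(Γ, ℝ) → ℝ} (hnx : NX N nx) {S : Set Γ}
    (hS : Cld nx S) (hc : S.Countable) (hne : S.Nonempty) (n : ℕ) :
    ∃ G : ℕ → Finset Γ, (∀ j, G j ⊆ G (j + 1)) ∧ (∀ γ, γ ∈ S ↔ ∃ j, γ ∈ G j) ∧
      ∀ j, ∀ x, ∃ y, Sup (G (j + 1) : Set Γ) y ∧ pr (G j : Set Γ) y = pr (G j : Set Γ) x ∧
        N y ≤ (1 + 1 / ((n : ℝ) + 1)) * N x := by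
  classical
  obtain ⟨e, he⟩ := hc.exists_eq_range hne
  obtain ⟨G, hG0, hG1⟩ : ∃ G : ℕ → Finset Γ, G 0 = {e 0} ∧
      ∀ j, G (j + 1) = G j ∪ nx (G j) n ∪ {e j} :=
    ⟨fun j => Nat.rec {e 0} (fun j A => A ∪ nx A n ∪ {e j}) j, rfl, fun j => rfl⟩
  have hmem : ∀ j, e j ∈ S := fun j => by rw [he]; exact mem_range_self j
  have hinv : ∀ j, (G j).Nonempty ∧ (G j : Set Γ) ⊆ S := by
    intro j
    induction j with
    | zero =>
      rw [hG0]
      refine ⟨Finset.singleton_nonempty _, ?_⟩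
      rw [Finset.coe_singleton, singleton_subset_iff]
      exact hmem 0
    | succ j ih =>
      rw [hG1]
      refine ⟨ih.1.mono (Finset.subset_union_left.trans Finset.subset_union_left), ?_⟩
      rw [Finset.coe_union, Finset.coe_union, Finset.coe_singleton]
      exact union_subset (union_subset ih.2 (hS _ ih.1 ih.2 n)) (singleton_subset_iff.2 (hmem j))
  refine ⟨G, fun j => ?_, fun γ => ⟨fun h => ?_, fun ⟨j, hj⟩ => (hinv j).2 hj⟩, fun j x => ?_⟩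
  · rw [hG1]
    exact Finset.subset_union_left.trans Finset.subset_union_left
  · rw [he] at h
    obtain ⟨j, rfl⟩ := h
    refine ⟨j + 1, ?_⟩
    rw [hG1]
    exact Finset.mem_union_right _ (Finset.mem_singleton_self _)
  · obtain ⟨y, h1, h2, h3⟩ := hnx.ex (G j) n x
    refine ⟨y, fun γ hγ => h1 γ fun h => hγ ?_, h2, h3⟩
    rw [hG1]
    exact Finset.mem_coe.2 (Finset.mem_union_left _ (Finset.mem_union_right _ h))

open Classical in
private noncomputable def stepA_w (κ : ℝ) (S : Set Γ) (rk : Γ → ℕ) (j : ℕ) (γ : Γ) : ℝ :=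
  if γ ∈ S then Real.exp (-(κ * ((j - rk γ : ℕ) : ℝ))) else 0

private theorem stepA_w_mem {κ : ℝ} {S : Set Γ} {rk : Γ → ℕ} {j : ℕ} {γ : Γ} (h : γ ∈ S) :
    stepA_w κ S rk j γ = Real.exp (-(κ * ((j - rk γ : ℕ) : ℝ))) := if_pos h

private theorem stepA_w_not {κ : ℝ} {S : Set Γ} {rk : Γ → ℕ} {j : ℕ} {γ : Γ} (h : γ ∉ S) :
    stepA_w κ S rk j γ = 0 := if_neg h

private theorem stepA_w_nonneg (κ : ℝ) (S : Set Γ) (rk : Γ → ℕ) (j : ℕ) (γ : Γ) :
    0 ≤ stepA_w κ S rk j γ := by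
  by_cases h : γ ∈ S
  · rw [stepA_w_mem h]
    exact (Real.exp_pos _).le
  · rw [stepA_w_not h]

private theorem stepA_w_le {κ : ℝ} (hκ : 0 < κ) (S : Set Γ) (rk : Γ → ℕ) (j : ℕ) (γ : Γ) :
    stepA_w κ S rk j γ ≤ 1 := by
  by_cases h : γ ∈ S
  · rw [stepA_w_mem h, Real.exp_le_one_iff]
    have : (0 : ℝ) ≤ κ * ((j - rk γ : ℕ) : ℝ) := mul_nonneg hκ.le (Nat.cast_nonneg _)
    linarith
  · rw [stepA_w_not h]
    exact zero_le_one

private theorem stepA_cl {κ : ℝ} (hκ : 0 < κ) (S : Set Γ) (rk : Γ → ℕ) (j : ℕ) (γ : Γ) :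
    cl (stepA_w κ S rk j γ) = stepA_w κ S rk j γ :=
  cl_eq (stepA_w_nonneg κ S rk j γ) (stepA_w_le hκ S rk j γ)

private theorem stepA_w_anti {κ : ℝ} (hκ : 0 < κ) (S : Set Γ) (rk : Γ → ℕ) (j : ℕ) (γ : Γ) :
    stepA_w κ S rk (j + 1) γ ≤ stepA_w κ S rk j γ := by
  by_cases h : γ ∈ S
  · rw [stepA_w_mem h, stepA_w_mem h, Real.exp_le_exp]
    have h1 : ((j - rk γ : ℕ) : ℝ) ≤ ((j + 1 - rk γ : ℕ) : ℝ) := by
      exact_mod_cast (by omega : j - rk γ ≤ j + 1 - rk γ)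
    nlinarith
  · rw [stepA_w_not h, stepA_w_not h]

private theorem stepA_w_slow {κ : ℝ} (hκ : 0 < κ) (S : Set Γ) (rk : Γ → ℕ) (j : ℕ) (γ : Γ) :
    stepA_w κ S rk j γ ≤ Real.exp κ * stepA_w κ S rk (j + 1) γ := by
  by_cases h : γ ∈ S
  · rw [stepA_w_mem h, stepA_w_mem h, ← Real.exp_add, Real.exp_le_exp]
    have h1 : ((j + 1 - rk γ : ℕ) : ℝ) ≤ ((j - rk γ : ℕ) : ℝ) + 1 := by
      exact_mod_cast (by omega : j + 1 - rk γ ≤ j - rk γ + 1)
    nlinarith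
  · rw [stepA_w_not h, stepA_w_not h, mul_zero]

private theorem stepA_gt_anti {κ : ℝ} (hκ : 0 < κ) (S : Set Γ) (rk : Γ → ℕ) (j : ℕ)
    (x : C₀(Γ, ℝ)) : gt (stepA_w κ S rk (j + 1)) x ≤ gt (stepA_w κ S rk j) x := by
  rw [gt_le_iff _ _ (gt_nonneg _ _)]
  intro γ
  refine le_trans (mul_le_mul_of_nonneg_right ?_ (abs_nonneg _)) (le_gt (stepA_w κ S rk j) x γ)
  exact cl_mono (stepA_w_anti hκ S rk j γ)

private theorem stepA_gt_slow {κ : ℝ} (hκ : 0 < κ) (S : Set Γ) (rk : Γ → ℕ) (j : ℕ)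
    (x : C₀(Γ, ℝ)) :
    gt (stepA_w κ S rk j) x * Real.exp (-κ) ≤ gt (stepA_w κ S rk (j + 1)) x := by
  have h1 : gt (stepA_w κ S rk j) x ≤ Real.exp κ * gt (stepA_w κ S rk (j + 1)) x := by
    rw [gt_le_iff _ _ (mul_nonneg (Real.exp_pos _).le (gt_nonneg _ _))]
    intro γ
    rw [stepA_cl hκ]
    have h2 := le_gt (stepA_w κ S rk (j + 1)) x γ
    rw [stepA_cl hκ] at h2
    calc stepA_w κ S rk j γ * |x γ| ≤ (Real.exp κ * stepA_w κ S rk (j + 1) γ) * |x γ| :=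
          mul_le_mul_of_nonneg_right (stepA_w_slow hκ S rk j γ) (abs_nonneg _)
      _ = Real.exp κ * (stepA_w κ S rk (j + 1) γ * |x γ|) := by ring
      _ ≤ _ := mul_le_mul_of_nonneg_left h2 (Real.exp_pos _).le
  calc gt (stepA_w κ S rk j) x * Real.exp (-κ)
      ≤ (Real.exp κ * gt (stepA_w κ S rk (j + 1)) x) * Real.exp (-κ) :=
        mul_le_mul_of_nonneg_right h1 (Real.exp_pos _).le
    _ = gt (stepA_w κ S rk (j + 1)) x * (Real.exp κ * Real.exp (-κ)) := by ring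
    _ = _ := by rw [← Real.exp_add, add_neg_cancel, Real.exp_zero, mul_one]

/-- the weights of a finite set tend to zero -/
private theorem stepA_ev {κ : ℝ} (hκ : 0 < κ) (rk : Γ → ℕ) {A : Set Γ} (hA : A.Finite) {R η : ℝ}
    (hη : 0 < η) : ∃ k : ℕ, ∀ j, k ≤ j → ∀ γ ∈ A,
      Real.exp (-(κ * ((j - rk γ : ℕ) : ℝ))) * R ≤ η := by
  obtain ⟨M, hM⟩ := (hA.image rk).bddAbove
  obtain ⟨K, hK⟩ := exists_nat_gt (R / (η * κ))
  refine ⟨M + K, fun j hj γ hγ => ?_⟩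
  have h1 : rk γ ≤ M := hM (mem_image_of_mem rk hγ)
  have h2 : (K : ℝ) ≤ ((j - rk γ : ℕ) : ℝ) := by exact_mod_cast (by omega : K ≤ j - rk γ)
  obtain ⟨u, hu⟩ : ∃ u : ℝ, u = κ * ((j - rk γ : ℕ) : ℝ) := ⟨_, rfl⟩
  rw [← hu]
  have h3 : R ≤ η * u := by
    rw [div_lt_iff₀ (mul_pos hη hκ)] at hK
    have h4 : κ * (K : ℝ) ≤ u := by
      rw [hu]
      exact mul_le_mul_of_nonneg_left h2 hκ.le
    have h5 : η * (κ * (K : ℝ)) ≤ η * u := mul_le_mul_of_nonneg_left h4 hη.le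
    linarith
  have h6 : u ≤ Real.exp u := (le_add_of_nonneg_right zero_le_one).trans (Real.add_one_le_exp u)
  have h7 : R ≤ η * Real.exp u := h3.trans (mul_le_mul_of_nonneg_left h6 hη.le)
  calc Real.exp (-u) * R ≤ Real.exp (-u) * (η * Real.exp u) :=
        mul_le_mul_of_nonneg_left h7 (Real.exp_pos _).le
    _ = η * (Real.exp (-u) * Real.exp u) := by ring
    _ = η := by rw [← Real.exp_add, neg_add_cancel, Real.exp_zero, mul_one]

/-- the gates of large rank are closed, uniformly on a ball -/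
private theorem stepA_gate {κ η : ℝ} (hκ : 0 < κ) (hη : 0 < η) (S : Set Γ) (rk : Γ → ℕ)
    (x₀ : C₀(Γ, ℝ)) : ∃ k : ℕ, ∀ j, k ≤ j → ∀ y : C₀(Γ, ℝ), ‖y - x₀‖ ≤ η / 4 →
      gt (stepA_w κ S rk j) y ≤ η := by
  obtain ⟨k, hk⟩ := stepA_ev hκ rk (finite_ge x₀ (half_pos hη)) (R := ‖x₀‖ + η) hη
  refine ⟨k, fun j hj y hy => ?_⟩
  rw [gt_le_iff _ _ hη.le]
  intro γ
  rw [stepA_cl hκ]
  have hd : |y γ - x₀ γ| ≤ η / 4 := (abs_le_norm (y - x₀) γ).trans hy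
  have hy1 : |y γ| ≤ |x₀ γ| + η / 4 := by
    have : |y γ| ≤ |y γ - x₀ γ| + |x₀ γ| := by
      have := abs_add_le (y γ - x₀ γ) (x₀ γ)
      rwa [sub_add_cancel] at this
    linarith
  by_cases hS : γ ∈ S
  · by_cases h : η / 2 ≤ |x₀ γ|
    · rw [stepA_w_mem hS]
      refine le_trans (mul_le_mul_of_nonneg_left ?_ (Real.exp_pos _).le) (hk j hj γ h)
      have := abs_le_norm x₀ γ
      linarith
    · push Not at h
      calc stepA_w κ S rk j γ * |y γ| ≤ 1 * |y γ| :=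
            mul_le_mul_of_nonneg_right (stepA_w_le hκ S rk j γ) (abs_nonneg _)
        _ ≤ η := by linarith
  · rw [stepA_w_not hS, zero_mul]
    exact hη.le

open Classical in
private noncomputable def stepA_m (κ η : ℝ) (S : Set Γ) (rk : Γ → ℕ) (x : C₀(Γ, ℝ)) (γ : Γ) : ℝ :=
  if γ ∈ S then th κ η (gt (stepA_w κ S rk (rk γ)) x) else 0

private theorem stepA_m_mem {κ η : ℝ} {S : Set Γ} {rk : Γ → ℕ} {x : C₀(Γ, ℝ)} {γ : Γ}
    (h : γ ∈ S) : stepA_m κ η S rk x γ = th κ η (gt (stepA_w κ S rk (rk γ)) x) := if_pos h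

private theorem stepA_m_not {κ η : ℝ} {S : Set Γ} {rk : Γ → ℕ} {x : C₀(Γ, ℝ)} {γ : Γ}
    (h : γ ∉ S) : stepA_m κ η S rk x γ = 0 := if_neg h

private theorem stepA_clm (κ η : ℝ) (S : Set Γ) (rk : Γ → ℕ) (x : C₀(Γ, ℝ)) (γ : Γ) :
    cl (stepA_m κ η S rk x γ) = stepA_m κ η S rk x γ := by
  by_cases h : γ ∈ S
  · rw [stepA_m_mem h]
    exact cl_eq (th_nonneg _ _ _) (th_le_one _ _ _)
  · rw [stepA_m_not h]
    exact cl_eq le_rfl zero_le_one

private theorem stepA_self {κ : ℝ} (hκ : 0 < κ) {S : Set Γ} {rk : Γ → ℕ} {γ : Γ} (h : γ ∈ S)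
    (x : C₀(Γ, ℝ)) : |x γ| ≤ gt (stepA_w κ S rk (rk γ)) x := by
  have h1 := le_gt (stepA_w κ S rk (rk γ)) x γ
  rw [stepA_cl hκ, stepA_w_mem h, Nat.sub_self, Nat.cast_zero, mul_zero, neg_zero, Real.exp_zero,
    one_mul] at h1
  exact h1

private theorem stepA_th_max {κ η t : ℝ} (hκ : 0 < κ) (hη : 0 < η) (ht : 0 ≤ t) :
    th κ η t = th κ η (max t η) := by
  rcases le_total t η with h | h
  · rw [max_eq_right h, th_zero hκ hη ht h, th_zero hκ hη hη.le le_rfl]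
  · rw [max_eq_left h]

private theorem stepA_var {κ η : ℝ} (hκ : 0 < κ) (hη : 0 < η) (S : Set Γ) (rk : Γ → ℕ)
    (x y : C₀(Γ, ℝ)) (hxy : ‖x - y‖ ≤ η / 4) (γ : Γ) :
    |cl (stepA_m κ η S rk x γ) - cl (stepA_m κ η S rk y γ)| * |y γ| ≤ 2 * κ * ‖x - y‖ := by
  rw [stepA_clm, stepA_clm]
  by_cases h : γ ∈ S
  · rw [stepA_m_mem h, stepA_m_mem h]
    have h1 := abs_gt_sub_le (stepA_w κ S rk (rk γ)) x y
    have h2 := stepA_self hκ (rk := rk) h y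
    refine (th_mul hκ hη (gt_nonneg _ _) (gt_nonneg _ _) (h1.trans hxy) ?_).trans ?_
    · linarith
    · exact mul_le_mul_of_nonneg_left h1 (by positivity)
  · rw [stepA_m_not h, stepA_m_not h, sub_zero, abs_zero, zero_mul]
    positivity

private theorem stepA_lin {N : C₀(Γ, ℝ) → ℝ} {a b : ℝ} (hN : EqN N a b) (G : ℕ → Finset Γ)
    {ρ κ η : ℝ} (hρ0 : 0 ≤ ρ) (hρ : ρ ≤ 1) (hκ : 0 < κ) (hη : 0 < η) (hG : ∀ j, G j ⊆ G (j + 1))
    (hn : ∀ j, ∀ x, ∃ y, Sup (G (j + 1) : Set Γ) y ∧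
      pr (G j : Set Γ) y = pr (G j : Set Γ) x ∧ N y ≤ (1 + ρ) * N x)
    {S : Set Γ} (hS : ∀ γ, γ ∈ S ↔ ∃ j, γ ∈ G j) (rk : Γ → ℕ)
    (hrk : ∀ γ ∈ S, ∀ j, γ ∈ G j ↔ rk γ ≤ j) (x v : C₀(Γ, ℝ)) :
    N (mul (stepA_m κ η S rk x) v) ≤ (1 + ρ + 2 * (b / a) * (κ * κ)) * N v := by
  obtain ⟨k, hk⟩ := stepA_gate hκ hη S rk x
  refine slow_mul hN G hρ0 hρ (mul_nonneg hκ.le hκ.le) hG hn hS rk hrk
    (fun j => th κ η (gt (stepA_w κ S rk j) x)) (fun j => th_nonneg _ _ _) (th_le_one _ _ _)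
    (fun j => th_mono hκ hη (gt_nonneg _ _) (stepA_gt_anti hκ S rk j x))
    (fun j => th_slow hκ hη (gt_nonneg _ _) hκ.le (stepA_gt_slow hκ S rk j x)) (n := k)
    (fun j hj => th_zero hκ hη (gt_nonneg _ _) (hk j hj x ?_)) _ (fun γ hγ => stepA_m_mem hγ)
    (fun γ hγ => stepA_m_not hγ) v
  rw [sub_self, norm_zero]
  positivity

private theorem stepA_rob {κ η s : ℝ} (hκ : 0 < κ) (hη : 0 < η) (hs : 8 * s ≤ η)
    (G : ℕ → Finset Γ) {S : Set Γ} (rk : Γ → ℕ) (hrk : ∀ γ ∈ S, ∀ j, γ ∈ G j ↔ rk γ ≤ j)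
    (F : C₀(Γ, ℝ) → ℝ) : Rob s (fun x => F (mul (stepA_m κ η S rk x) x)) := by
  classical
  intro x₀
  obtain ⟨k, hk⟩ := stepA_gate hκ hη S rk x₀
  obtain ⟨A₀, hA₀⟩ := (finite_ge x₀ (half_pos hη)).exists_finset_coe
  refine ⟨A₀ ∪ G k, fun y z hy hz hyz => ?_⟩
  have hb : ∀ y : C₀(Γ, ℝ), ‖y - x₀‖ ≤ 2 * s → ∀ γ ∉ ((A₀ ∪ G k : Finset Γ) : Set Γ),
      |y γ| ≤ η := by
    intro y hy γ hγ
    have h1 : |x₀ γ| < η / 2 := by
      by_contra h
      push Not at h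
      refine hγ (Finset.mem_coe.2 (Finset.mem_union_left _ ?_))
      have : γ ∈ (A₀ : Set Γ) := by
        rw [hA₀]
        exact h
      exact this
    have h2 : |y γ - x₀ γ| ≤ 2 * s := (abs_le_norm (y - x₀) γ).trans hy
    have h3 := abs_add_le (y γ - x₀ γ) (x₀ γ)
    rw [sub_add_cancel] at h3
    linarith
  have hg : ∀ w : Γ → ℝ, max (gt w y) η = max (gt w z) η := fun w =>
    gt_max w hη.le (A := ((A₀ ∪ G k : Finset Γ) : Set Γ)) (fun γ hγ => hyz γ hγ) (hb y hy)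
      (hb z hz)
  have hm : ∀ γ ∈ S, stepA_m κ η S rk y γ = stepA_m κ η S rk z γ := by
    intro γ hγ
    rw [stepA_m_mem hγ, stepA_m_mem hγ, stepA_th_max hκ hη (gt_nonneg _ _), hg,
      ← stepA_th_max hκ hη (gt_nonneg _ _)]
  have hT : mul (stepA_m κ η S rk y) y = mul (stepA_m κ η S rk z) z := by
    ext γ
    rw [mul_apply, mul_apply, stepA_clm, stepA_clm]
    by_cases hγ : γ ∈ S
    · by_cases hr : rk γ ≤ k
      · rw [hm γ hγ, hyz γ (Finset.mem_union_right _ ((hrk γ hγ k).2 hr))]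
      · push Not at hr
        have h0 : stepA_m κ η S rk y γ = 0 := by
          rw [stepA_m_mem hγ]
          exact th_zero hκ hη (gt_nonneg _ _) (hk _ hr.le y (hy.trans (by linarith)))
        rw [← hm γ hγ, h0, zero_mul, zero_mul]
    · rw [stepA_m_not hγ, stepA_m_not hγ, zero_mul, zero_mul]
  exact congrArg F hT

private theorem stepA_near {κ η : ℝ} (hκ : 0 < κ) (hη : 0 < η) {S : Set Γ} (rk : Γ → ℕ)
    {x : C₀(Γ, ℝ)} (hx : Sup S x) :
    ‖mul (stepA_m κ η S rk x) x - x‖ ≤ η * Real.exp (1 / κ) := by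
  have h0 : 0 ≤ η * Real.exp (1 / κ) := mul_nonneg hη.le (Real.exp_pos _).le
  rw [norm_le_iff h0]
  intro γ
  have e : (mul (stepA_m κ η S rk x) x - x) γ = stepA_m κ η S rk x γ * x γ - x γ := by
    rw [← stepA_clm κ η S rk x γ]
    rfl
  rw [e]
  by_cases hγ : γ ∈ S
  · rcases le_total (η * Real.exp (1 / κ)) |x γ| with h | h
    · rw [stepA_m_mem hγ, th_one hκ hη (h.trans (stepA_self hκ hγ x)), one_mul, sub_self,
        abs_zero]
      exact h0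
    · have h1 : 0 ≤ stepA_m κ η S rk x γ := by
        rw [stepA_m_mem hγ]
        exact th_nonneg _ _ _
      have h2 : stepA_m κ η S rk x γ ≤ 1 := by
        rw [stepA_m_mem hγ]
        exact th_le_one _ _ _
      have e1 : stepA_m κ η S rk x γ * x γ - x γ = -((1 - stepA_m κ η S rk x γ) * x γ) := by ring
      rw [e1, abs_neg, abs_mul, abs_of_nonneg (by linarith)]
      exact (mul_le_of_le_one_left (abs_nonneg _) (by linarith)).trans h
  · rw [hx γ hγ, mul_zero, sub_zero, abs_zero]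
    exact h0

theorem stepA {N : C₀(Γ, ℝ) → ℝ} {a b : ℝ} (hN : EqN N a b) {nx : Finset Γ → ℕ → Finset Γ}
    (hnx : NX N nx) {S : Set Γ} (hS : Cld nx S) (hc : S.Countable) : PP N S := by
  intro F hF ε hε δ hδ
  rcases S.eq_empty_or_nonempty with rfl | hne
  · refine ⟨fun _ => F 0, contDiff_const, fun x y => ?_, fun x hx => ?_⟩
    · rw [sub_self, abs_zero]
      exact mul_nonneg (by linarith) (hN.nonneg _)
    · have hx0 : x = 0 := by
        ext γ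
        exact hx γ (notMem_empty γ)
      rw [hx0, sub_self, abs_zero]
      exact hδ.le
  have ha := hN.apos
  have hb := hN.bpos
  obtain ⟨n, hn⟩ := exists_nat_gt (4 / ε)
  have hρ : 1 / ((n : ℝ) + 1) ≤ ε / 4 := by
    rw [div_lt_iff₀ hε] at hn
    rw [div_le_iff₀ (by positivity)]
    nlinarith
  have hρ0 : 0 ≤ 1 / ((n : ℝ) + 1) := by positivity
  have hρ1 : 1 / ((n : ℝ) + 1) ≤ 1 := by
    rw [div_le_one (by positivity)]
    have : (0 : ℝ) ≤ n := Nat.cast_nonneg n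
    linarith
  obtain ⟨κ, hκ, hκ1, hκ2⟩ : ∃ κ : ℝ, 0 < κ ∧ κ ≤ 1 ∧ b / a * (2 * κ) ≤ ε / 4 := by
    refine ⟨min 1 (ε * a / (8 * b)), lt_min one_pos (by positivity), min_le_left _ _, ?_⟩
    calc b / a * (2 * min 1 (ε * a / (8 * b))) ≤ b / a * (2 * (ε * a / (8 * b))) := by
          refine mul_le_mul_of_nonneg_left ?_ (by positivity)
          exact mul_le_mul_of_nonneg_left (min_le_right _ _) (by norm_num)
      _ = ε / 4 := by
          field_simp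
          ring
  have hκ3 : 2 * (b / a) * (κ * κ) ≤ ε / 4 := by
    have h1 : 0 ≤ b / a * (2 * κ) := by positivity
    calc 2 * (b / a) * (κ * κ) = (b / a * (2 * κ)) * κ := by ring
      _ ≤ (b / a * (2 * κ)) * 1 := mul_le_mul_of_nonneg_left hκ1 h1
      _ ≤ ε / 4 := by rw [mul_one]; exact hκ2
  obtain ⟨η, hη, hη1⟩ : ∃ η : ℝ, 0 < η ∧ b * (η * Real.exp (1 / κ)) ≤ δ / 2 := by
    have he := Real.exp_pos (1 / κ)
    refine ⟨δ / (2 * b * Real.exp (1 / κ)), by positivity, le_of_eq ?_⟩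
    field_simp
  obtain ⟨G, hG, hGS, hGn⟩ := exists_seq hnx hS hc hne n
  have hGm : Monotone G := monotone_nat_of_le_succ hG
  obtain ⟨rk, hrk⟩ : ∃ rk : Γ → ℕ, ∀ γ ∈ S, ∀ j, γ ∈ G j ↔ rk γ ≤ j := by
    refine ⟨fun γ => sInf {j | γ ∈ G j}, fun γ hγ j => ⟨fun h => Nat.sInf_le h, fun h => ?_⟩⟩
    have h1 : sInf {j | γ ∈ G j} ∈ {j | γ ∈ G j} := Nat.sInf_mem ((hGS γ).1 hγ)
    exact hGm h h1
  have hlip := T_lip hN (stepA_m κ η S rk) (c := 1 + 1 / ((n : ℝ) + 1) + 2 * (b / a) * (κ * κ))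
    (e := 2 * κ) (r := η / 4) (by positivity) (by positivity) (by positivity)
    (stepA_lin hN G hρ0 hρ1 hκ hη hG hGn hGS rk hrk) (stepA_var hκ hη S rk)
  have hf : NL N (1 + ε) (fun x => F (mul (stepA_m κ η S rk x) x)) := by
    intro x y
    refine (hF _ _).trans ?_
    rw [one_mul]
    refine (hlip x y).trans (mul_le_mul_of_nonneg_right ?_ (hN.nonneg _))
    linarith
  obtain ⟨s, hs, hs1, hs2⟩ : ∃ s : ℝ, 0 < s ∧ 8 * s ≤ η ∧ (1 + ε) * (b * s) ≤ δ / 2 := by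
    refine ⟨min (η / 8) (δ / (2 * (1 + ε) * b)), lt_min (by positivity) (by positivity), ?_, ?_⟩
    · have := min_le_left (η / 8) (δ / (2 * (1 + ε) * b))
      linarith
    · calc (1 + ε) * (b * min (η / 8) (δ / (2 * (1 + ε) * b)))
          ≤ (1 + ε) * (b * (δ / (2 * (1 + ε) * b))) := by
            refine mul_le_mul_of_nonneg_left ?_ (by positivity)
            exact mul_le_mul_of_nonneg_left (min_le_right _ _) hb.le
        _ = δ / 2 := by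
            field_simp
  obtain ⟨h1, h2, h3⟩ := ts hN (by positivity : (0 : ℝ) ≤ 1 + ε) hf hs
    (stepA_rob hκ hη hs1 G rk hrk F)
  refine ⟨_, h1, h2, fun x hx => ?_⟩
  have h4 := (h3 x).trans hs2
  have h5 : |F (mul (stepA_m κ η S rk x) x) - F x| ≤ δ / 2 := by
    refine (hF _ _).trans ?_
    rw [one_mul]
    refine (hN.hi _).trans (le_trans ?_ hη1)
    exact mul_le_mul_of_nonneg_left (stepA_near hκ hη rk hx) hb.le
  have h6 := abs_sub_le (sm s (fun x => F (mul (stepA_m κ η S rk x) x)) x)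
    (F (mul (stepA_m κ η S rk x) x)) (F x)
  linarith

end C0G
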