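import Pool.Agent.Lib.MP_85fd23_an.Smo

/-!
C0G row TS.  Translation smoothing on C₀(Γ, ℝ): sm s f x = average of f (x + io ξ).
Rob s f: near every point (radius 2 s) f depends only on finitely many coordinates.

Proofs.  For x in the closed ball of radius s about x₀ and |ξ| ≤ s the vectors x + io ξ and
x₀ + io (indicator_A (x + ξ - x₀)) have distance at most 2 s from x₀ (norm_le_iff) and agree on A,
so
f (x + io ξ) = G (fun γ : A => x γ + ξ γ) with G t = f (x₀ + io (indicator_A (t - x₀))), continuous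
(to have it for ALL t just take this formula; it is continuous as f is, and t ↦ io(indicator) is
Lipschitz for the sup norm).  tame: x₀ = x.  sm_C1: smo_C1 with a x = (x γ)_{γ in A}, a continuous
linear map (evaluations are continuous linear; contDiffAt_pi; norm bound abs_le_norm).
sm_le, sm_le_const, const_le_sm: smo_le, smo_const.  ts: smo_le twice with
|f(x + io ξ) - f(y + io ξ)| ≤ c N(x-y) and |f(x + io ξ) - f x| ≤ c N(io ξ) ≤ c b s.
-/

set_option linter.unusedSectionVars false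

namespace C0G

open scoped ZeroAtInfty Topology BigOperators
open Filter Set MeasureTheory

universe u

variable {Γ : Type u} [TopologicalSpace Γ] [DiscreteTopology Γ]

/-- robust local dependence on finitely many coordinates -/
def Rob (s : ℝ) (f : C₀(Γ, ℝ) → ℝ) : Prop :=
  ∀ x₀ : C₀(Γ, ℝ), ∃ A : Finset Γ, ∀ y z : C₀(Γ, ℝ), ‖y - x₀‖ ≤ 2 * s → ‖z - x₀‖ ≤ 2 * s →
    (∀ γ ∈ A, y γ = z γ) → f y = f z

noncomputable def sm (s : ℝ) (f : C₀(Γ, ℝ) → ℝ) (x : C₀(Γ, ℝ)) : ℝ := SMO s (fun ξ => f (x + io ξ))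

private theorem TS_io_continuous (A : Finset Γ) :
    Continuous fun t : A → ℝ => io (Finsupp.indicator A fun γ hγ => t ⟨γ, hγ⟩) := by
  have hL : LipschitzWith 1
      fun t : A → ℝ => io (Finsupp.indicator A fun γ hγ => t ⟨γ, hγ⟩) := by
    refine LipschitzWith.of_dist_le_mul fun t u => ?_
    rw [NNReal.coe_one, one_mul, dist_eq_norm, norm_le_iff dist_nonneg]
    intro γ
    simp only [ZeroAtInftyContinuousMap.sub_apply, io_apply]
    by_cases hγ : γ ∈ A
    · rw [Finsupp.indicator_of_mem hγ, Finsupp.indicator_of_mem hγ, ← Real.dist_eq]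
      exact dist_le_pi_dist t u ⟨γ, hγ⟩
    · rw [Finsupp.indicator_of_notMem hγ, Finsupp.indicator_of_notMem hγ, sub_zero, abs_zero]
      exact dist_nonneg
  exact hL.continuous

private theorem TS_eval_contDiff (γ : Γ) :
    ContDiff ℝ 1 (fun x : C₀(Γ, ℝ) => x γ) := by
  have hl : IsBoundedLinearMap ℝ (fun x : C₀(Γ, ℝ) => x γ) := by
    refine IsLinearMap.with_bound ⟨fun x y => rfl, fun c x => rfl⟩ 1 fun x => ?_
    rw [one_mul, Real.norm_eq_abs]
    exact abs_le_norm x γ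
  exact hl.contDiff

theorem tame_of_rob {s : ℝ} (hs : 0 < s) {f : C₀(Γ, ℝ) → ℝ} (hf : Continuous f) (hr : Rob s f)
    (x : C₀(Γ, ℝ)) : Tame s (fun ξ : Γ →₀ ℝ => f (x + io ξ)) := by
  obtain ⟨A, hA⟩ := hr x
  refine ⟨A, fun t => f (x + io (Finsupp.indicator A fun γ hγ => t ⟨γ, hγ⟩)), ?_, ?_⟩
  · exact hf.comp (continuous_const.add (TS_io_continuous A))
  · intro ξ hξ
    refine hA _ _ ?_ ?_ ?_
    · rw [add_sub_cancel_left]
      exact (norm_io_le hs.le hξ).trans (by linarith)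
    · rw [add_sub_cancel_left]
      refine (norm_io_le hs.le fun γ => ?_).trans (by linarith)
      by_cases hγ : γ ∈ A
      · rw [Finsupp.indicator_of_mem hγ]; exact hξ γ
      · rw [Finsupp.indicator_of_notMem hγ, abs_zero]; exact hs.le
    · intro γ hγ
      simp only [ZeroAtInftyContinuousMap.add_apply, io_apply]
      rw [Finsupp.indicator_of_mem hγ]

theorem sm_le {s : ℝ} (hs : 0 < s) {f g : C₀(Γ, ℝ) → ℝ} (hf : Continuous f) (hg : Continuous g)
    (hrf : Rob s f) (hrg : Rob s g) {x y : C₀(Γ, ℝ)} {c : ℝ}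
    (h : ∀ ξ : Γ →₀ ℝ, (∀ γ, |ξ γ| ≤ s) → f (x + io ξ) ≤ g (y + io ξ) + c) :
    sm s f x ≤ sm s g y + c := by
  exact smo_le hs (tame_of_rob hs hf hrf x) (tame_of_rob hs hg hrg y) h

theorem sm_le_const {s : ℝ} (hs : 0 < s) {f : C₀(Γ, ℝ) → ℝ} (hf : Continuous f)
    (hrf : Rob s f) {x : C₀(Γ, ℝ)} {c : ℝ}
    (h : ∀ ξ : Γ →₀ ℝ, (∀ γ, |ξ γ| ≤ s) → f (x + io ξ) ≤ c) : sm s f x ≤ c := by
  have h0 : Tame s (fun _ : Γ →₀ ℝ => c) := ⟨∅, fun _ => c, continuous_const, fun _ _ => rfl⟩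
  have h1 := smo_le hs (tame_of_rob hs hf hrf x) h0 (c := 0) (fun ξ hξ => by
    rw [add_zero]; exact h ξ hξ)
  rw [smo_const hs, add_zero] at h1
  exact h1

theorem const_le_sm {s : ℝ} (hs : 0 < s) {f : C₀(Γ, ℝ) → ℝ} (hf : Continuous f)
    (hrf : Rob s f) {x : C₀(Γ, ℝ)} {c : ℝ}
    (h : ∀ ξ : Γ →₀ ℝ, (∀ γ, |ξ γ| ≤ s) → c ≤ f (x + io ξ)) : c ≤ sm s f x := by
  have h0 : Tame s (fun _ : Γ →₀ ℝ => c) := ⟨∅, fun _ => c, continuous_const, fun _ _ => rfl⟩
  have h1 := smo_le hs h0 (tame_of_rob hs hf hrf x) (c := 0) (fun ξ hξ => by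
    rw [add_zero]; exact h ξ hξ)
  rw [smo_const hs, add_zero] at h1
  exact h1

theorem sm_C1 {s : ℝ} (hs : 0 < s) {f : C₀(Γ, ℝ) → ℝ} (hf : Continuous f) (hr : Rob s f) :
    ContDiff ℝ 1 (sm s f) := by
  rw [contDiff_iff_contDiffAt]
  intro x₀
  obtain ⟨A, hA⟩ := hr x₀
  refine smo_C1 hs (fun (x : C₀(Γ, ℝ)) (ξ : Γ →₀ ℝ) => f (x + io ξ)) x₀ A
    (fun t => f (x₀ + io (Finsupp.indicator A fun γ hγ => (fun j : A => t j - x₀ j) ⟨γ, hγ⟩)))
    ?_ (fun x j => x j) ?_ ?_
  · have h1 : Continuous fun t : A → ℝ => (fun j : A => t j - x₀ j) :=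
      continuous_pi fun j => (continuous_apply j).sub continuous_const
    exact hf.comp (continuous_const.add ((TS_io_continuous A).comp h1))
  · exact (contDiff_pi.2 fun j : A => TS_eval_contDiff (j : Γ)).contDiffAt
  · filter_upwards [Metric.ball_mem_nhds x₀ hs] with x hx ξ hξ
    have hx' : ‖x - x₀‖ ≤ s := by
      rw [← dist_eq_norm]; exact (Metric.mem_ball.1 hx).le
    refine hA _ _ ?_ ?_ ?_
    · have e : x + io ξ - x₀ = (x - x₀) + io ξ := by abel
      rw [e]
      exact (norm_add_le _ _).trans (by linarith [norm_io_le hs.le hξ])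
    · rw [add_sub_cancel_left]
      refine norm_io_le (by linarith) fun γ => ?_
      by_cases hγ : γ ∈ A
      · rw [Finsupp.indicator_of_mem hγ]
        have e : x γ + ξ γ - x₀ γ = (x - x₀) γ + ξ γ := by
          rw [ZeroAtInftyContinuousMap.sub_apply]; ring
        change |x γ + ξ γ - x₀ γ| ≤ 2 * s
        rw [e]
        exact (abs_add_le _ _).trans (by linarith [abs_le_norm (x - x₀) γ, hξ γ])
      · rw [Finsupp.indicator_of_notMem hγ, abs_zero]; linarith
    · intro γ hγ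
      simp only [ZeroAtInftyContinuousMap.add_apply, io_apply]
      rw [Finsupp.indicator_of_mem hγ]
      ring

theorem ts {N : C₀(Γ, ℝ) → ℝ} {a b : ℝ} (hN : EqN N a b) {c : ℝ} (hc : 0 ≤ c)
    {f : C₀(Γ, ℝ) → ℝ} (hf : NL N c f) {s : ℝ} (hs : 0 < s) (hr : Rob s f) :
    ContDiff ℝ 1 (sm s f) ∧ NL N c (sm s f) ∧ ∀ x, |sm s f x - f x| ≤ c * (b * s) := by
  have hfc : Continuous f := hf.continuous hN hc
  have hle : ∀ x y, f x ≤ f y + c * N (x - y) := fun x y => by
    have := (abs_le.1 (hf x y)).2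
    linarith
  have hsm : ∀ x y, sm s f x ≤ sm s f y + c * N (x - y) := fun x y => by
    refine sm_le hs hfc hfc hr hr fun ξ _ => ?_
    have := hle (x + io ξ) (y + io ξ)
    rwa [add_sub_add_right_eq_sub] at this
  have hio : ∀ ξ : Γ →₀ ℝ, (∀ γ, |ξ γ| ≤ s) → N (io ξ) ≤ b * s := fun ξ hξ =>
    (hN.hi _).trans (mul_le_mul_of_nonneg_left (norm_io_le hs.le hξ) hN.bpos.le)
  refine ⟨sm_C1 hs hfc hr, fun x y => ?_, fun x => ?_⟩
  · rw [abs_le]
    constructor
    · have := hsm y x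
      rw [hN.sub_comm y x] at this
      linarith
    · have := hsm x y
      linarith
  · rw [abs_le]
    constructor
    · have h1 : f x - c * (b * s) ≤ sm s f x := by
        refine const_le_sm hs hfc hr fun ξ hξ => ?_
        have h2 := hle x (x + io ξ)
        rw [hN.sub_comm, add_sub_cancel_left] at h2
        have h3 := mul_le_mul_of_nonneg_left (hio ξ hξ) hc
        linarith
      linarith
    · have h1 : sm s f x ≤ f x + c * (b * s) := by
        refine sm_le_const hs hfc hr fun ξ hξ => ?_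
        have h2 := hle (x + io ξ) x
        rw [add_sub_cancel_left] at h2
        have h3 := mul_le_mul_of_nonneg_left (hio ξ hξ) hc
        linarith
      linarith

end C0G
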